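import Mathlib
import Pool.Agent.U376.AK.Mom
import Pool.Agent.TH890.AS.R5

set_option autoImplicit false

/-! The correlation of two primes, for arbitrary families of sets of residues with small Fourier norm and
arbitrary sets of exponents. -/

namespace Pool.Agent.U376.AG

open Finset
open Pool.Agent.U376.AK (hit hit_nonneg hit_le)
open Pool.Agent.H730R2.AA (NT)
open Pool.Agent.TH890.AS (Rep dens dens_nonneg dens_le_one dens_eq)

open Classical in
/-- families of sets of residues with small Fourier norm -/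
def Adm (T : ∀ p : ℕ, ZMod p → Prop) : Prop :=
  ∀ (p : ℕ) (_hp : Fact p.Prime), ¬ T p 0 ∧
    Rep p (fun x => if T p x then (1 : ℂ) else 0) ((p - 1).divisors.card : ℝ)

open Classical in
/-- indicator minus mean -/
noncomputable def Rt (T : ∀ p : ℕ, ZMod p → Prop) (a : ℕ) (b c : ℤ) (p k : ℕ) : ℝ :=
  (if T p ((b * (a : ℤ) ^ k + c : ℤ) : ZMod p) then (1 : ℝ) else 0) - dens p (T p)

noncomputable def Vt (T : ∀ p : ℕ, ZMod p → Prop) (a : ℕ) (b c : ℤ) (p k : ℕ) : ℝ :=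
  Rt T a b c p k + hit a b c p k * dens p (T p)

variable {T : ∀ p : ℕ, ZMod p → Prop}

lemma Rt_abs (hT : Adm T) (a : ℕ) (b c : ℤ) (p k : ℕ) (hp : p.Prime) : |Rt T a b c p k| ≤ 1 := by
  have : Fact p.Prime := ⟨hp⟩
  have h0 := dens_nonneg p (T p)
  have h1 := dens_le_one (T p) (hT p this).1
  unfold Rt
  split_ifs <;> rw [abs_le] <;> constructor <;> linarith

lemma Vt_abs (hT : Adm T) (a : ℕ) (b c : ℤ) (p k : ℕ) (hp : p.Prime) : |Vt T a b c p k| ≤ 1 := by
  have : Fact p.Prime := ⟨hp⟩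
  have h0 := dens_nonneg p (T p)
  have h1 := dens_le_one (T p) (hT p this).1
  unfold Vt Rt hit
  by_cases h : (p : ℤ) ∣ b * (a : ℤ) ^ k + c
  · have h2 : ((b * (a : ℤ) ^ k + c : ℤ) : ZMod p) = 0 := by
      rw [ZMod.intCast_zmod_eq_zero_iff_dvd]; exact h
    rw [h2, if_neg (hT p this).1, if_pos h]
    simp
  · rw [if_neg h, zero_mul, add_zero]
    split_ifs <;> rw [abs_le] <;> constructor <;> linarith

open Classical in
lemma expT (hT : Adm T) (p : ℕ) [hp : Fact p.Prime] :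
    ∃ β : DirichletCharacter ℂ p → ℂ,
      (∀ x : ZMod p, (((if T p x then (1 : ℝ) else 0) - dens p (T p) +
        (if x = 0 then 1 else 0) * dens p (T p) : ℝ) : ℂ) = ∑ χ ∈ NT p, β χ * χ x) ∧
      ∑ χ, ‖β χ‖ ≤ ((p - 1).divisors.card : ℝ) := by
  obtain ⟨h0, β, hβ, hf⟩ := hT p hp
  refine ⟨β, fun x => ?_, hβ⟩
  have hp1 : ((p - 1 : ℕ) : ℂ) ≠ 0 := by
    have := hp.out.one_lt
    exact_mod_cast (by omega : p - 1 ≠ 0)
  have h1 : ((dens p (T p) : ℝ) : ℂ) = β 1 := by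
    have e : ∑ x, (if T p x then (1 : ℂ) else 0) = β 1 * ((p - 1 : ℕ) : ℂ) := by
      have hf' : ∀ x : ZMod p, (if T p x then (1 : ℂ) else 0) = ∑ χ, β χ * χ x := hf
      simp only [hf']
      rw [sum_comm]
      simp only [← mul_sum]
      rw [sum_eq_single (1 : DirichletCharacter ℂ p)]
      · rw [MulChar.sum_one_eq_card_units, ZMod.card_units]
      · intro χ _ hχ
        rw [MulChar.sum_eq_zero_of_ne_one hχ, mul_zero]
      · intro h
        exact absurd (mem_univ _) h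
    rw [dens_eq]
    rw [← sum_boole] 
    push_cast
    rw [div_eq_iff hp1, ← e]
    refine sum_congr rfl fun _ _ => ?_
    split_ifs <;> simp
  have hf' : (if T p x then (1 : ℂ) else 0) = ∑ χ, β χ * χ x := hf x
  have h2 : ∑ χ, β χ * χ x = β 1 * (1 : DirichletCharacter ℂ p) x + ∑ χ ∈ NT p, β χ * χ x := by
    have h3 : NT p = univ.erase (1 : DirichletCharacter ℂ p) := by
      unfold NT
      ext χ
      simp
    rw [h3]
    exact (add_sum_erase univ _ (mem_univ (1 : DirichletCharacter ℂ p))).symm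
  have h4 : (1 : DirichletCharacter ℂ p) x = if x = 0 then 0 else 1 := by
    by_cases hx : x = 0
    · rw [if_pos hx, hx, MulChar.map_zero]
    · rw [if_neg hx, MulChar.one_apply (isUnit_iff_ne_zero.2 hx)]
  have h5 : ∑ χ ∈ NT p, β χ * χ x = (if T p x then (1 : ℂ) else 0) - β 1 * (1 : DirichletCharacter ℂ p) x := by
    rw [hf', h2]; ring
  rw [h5, h4, ← h1]
  push_cast
  split_ifs <;> simp

theorem pairG (hT : Adm T) (a : ℕ) (b c : ℤ) (p q : ℕ) [Fact p.Prime] [Fact q.Prime] (E : Finset ℕ)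
    (M Hp Hq : ℝ) (hM0 : 0 ≤ M)
    (hM : ∀ (χ : DirichletCharacter ℂ p) (φ : DirichletCharacter ℂ q), χ ≠ 1 → φ ≠ 1 →
      ‖∑ k ∈ E, χ ((b : ZMod p) * (a : ZMod p) ^ k + (c : ZMod p)) *
        φ ((b : ZMod q) * (a : ZMod q) ^ k + (c : ZMod q))‖ ≤ M)
    (hHp : ∑ k ∈ E, hit a b c p k ≤ Hp) (hHq : ∑ k ∈ E, hit a b c q k ≤ Hq) :
    |∑ k ∈ E, Rt T a b c p k * Rt T a b c q k| ≤
      ((p - 1).divisors.card : ℝ) * ((q - 1).divisors.card : ℝ) * M + (2 * Hp + Hq) := by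
  classical
  have hp := Fact.out (p := p.Prime)
  have hq := Fact.out (p := q.Prime)
  obtain ⟨β₁, e1', s1⟩ := expT hT p
  obtain ⟨β₂, e2', s2⟩ := expT hT q
  have e1 : ∀ k, ((Vt T a b c p k : ℝ) : ℂ) =
      ∑ χ ∈ NT p, β₁ χ * χ ((b : ZMod p) * (a : ZMod p) ^ k + (c : ZMod p)) := by
    intro k
    have hx : ((b * (a : ℤ) ^ k + c : ℤ) : ZMod p) = (b : ZMod p) * (a : ZMod p) ^ k + (c : ZMod p) := by
      push_cast; rfl
    rw [← hx, ← e1']
    unfold Vt Rt hit
    have h5 : (p : ℤ) ∣ b * (a : ℤ) ^ k + c ↔ ((b * (a : ℤ) ^ k + c : ℤ) : ZMod p) = 0 :=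
      (ZMod.intCast_zmod_eq_zero_iff_dvd _ _).symm
    simp only [h5]
  have e2 : ∀ k, ((Vt T a b c q k : ℝ) : ℂ) =
      ∑ χ ∈ NT q, β₂ χ * χ ((b : ZMod q) * (a : ZMod q) ^ k + (c : ZMod q)) := by
    intro k
    have hx : ((b * (a : ℤ) ^ k + c : ℤ) : ZMod q) = (b : ZMod q) * (a : ZMod q) ^ k + (c : ZMod q) := by
      push_cast; rfl
    rw [← hx, ← e2']
    unfold Vt Rt hit
    have h5 : (q : ℤ) ∣ b * (a : ℤ) ^ k + c ↔ ((b * (a : ℤ) ^ k + c : ℤ) : ZMod q) = 0 :=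
      (ZMod.intCast_zmod_eq_zero_iff_dvd _ _).symm
    simp only [h5]
  have hVV : |∑ k ∈ E, Vt T a b c p k * Vt T a b c q k| ≤
      ((p - 1).divisors.card : ℝ) * ((q - 1).divisors.card : ℝ) * M := by
    have h1 : ((∑ k ∈ E, Vt T a b c p k * Vt T a b c q k : ℝ) : ℂ) =
        ∑ χ ∈ NT p, ∑ φ ∈ NT q, β₁ χ * β₂ φ *
          ∑ k ∈ E, χ ((b : ZMod p) * (a : ZMod p) ^ k + (c : ZMod p)) * φ ((b : ZMod q) * (a : ZMod q) ^ k + (c : ZMod q)) := by
      have g1 : ∀ k ∈ E, ((Vt T a b c p k * Vt T a b c q k : ℝ) : ℂ) =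
          ∑ χ ∈ NT p, ∑ φ ∈ NT q, β₁ χ * β₂ φ *
            (χ ((b : ZMod p) * (a : ZMod p) ^ k + (c : ZMod p)) * φ ((b : ZMod q) * (a : ZMod q) ^ k + (c : ZMod q))) := by
        intro k _
        rw [Complex.ofReal_mul, e1 k, e2 k, sum_mul_sum]
        refine sum_congr rfl fun χ _ => sum_congr rfl fun φ _ => by ring
      rw [Complex.ofReal_sum, sum_congr rfl g1, sum_comm]
      refine sum_congr rfl fun χ _ => ?_
      rw [sum_comm]
      refine sum_congr rfl fun φ _ => ?_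
      rw [mul_sum]
    have h2 : |∑ k ∈ E, Vt T a b c p k * Vt T a b c q k| =
        ‖((∑ k ∈ E, Vt T a b c p k * Vt T a b c q k : ℝ) : ℂ)‖ := by
      rw [Complex.norm_real, Real.norm_eq_abs]
    rw [h2, h1]
    calc _ ≤ ∑ χ ∈ NT p, ∑ φ ∈ NT q, ‖β₁ χ‖ * ‖β₂ φ‖ * M := by
          refine (norm_sum_le _ _).trans (sum_le_sum fun χ hχ => (norm_sum_le _ _).trans
            (sum_le_sum fun φ hφ => ?_))
          rw [norm_mul, norm_mul]
          refine mul_le_mul_of_nonneg_left ?_ (by positivity)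
          have m1 : χ ≠ 1 := by
            unfold NT at hχ; simpa using hχ
          have m2 : φ ≠ 1 := by
            unfold NT at hφ; simpa using hφ
          exact hM χ φ m1 m2
      _ = (∑ χ ∈ NT p, ‖β₁ χ‖) * (∑ φ ∈ NT q, ‖β₂ φ‖) * M := by
          rw [sum_mul_sum, sum_mul]
          refine sum_congr rfl fun χ _ => ?_
          rw [sum_mul]
      _ ≤ _ := by
          have f1 : ∑ χ ∈ NT p, ‖β₁ χ‖ ≤ ((p - 1).divisors.card : ℝ) :=
            (sum_le_sum_of_subset_of_nonneg (subset_univ _) fun _ _ _ => norm_nonneg _).trans s1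
          have f2 : ∑ φ ∈ NT q, ‖β₂ φ‖ ≤ ((q - 1).divisors.card : ℝ) :=
            (sum_le_sum_of_subset_of_nonneg (subset_univ _) fun _ _ _ => norm_nonneg _).trans s2
          have f3 : 0 ≤ ∑ φ ∈ NT q, ‖β₂ φ‖ := sum_nonneg fun _ _ => norm_nonneg _
          gcongr
  have hdiff : |∑ k ∈ E, Rt T a b c p k * Rt T a b c q k -
      ∑ k ∈ E, Vt T a b c p k * Vt T a b c q k| ≤ 2 * Hp + Hq := by
    rw [← sum_sub_distrib]
    refine (abs_sum_le_sum_abs _ _).trans ?_
    have g1 : ∀ k ∈ E, |Rt T a b c p k * Rt T a b c q k - Vt T a b c p k * Vt T a b c q k| ≤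
        2 * hit a b c p k + hit a b c q k := by
      intro k _
      have v1 := Vt_abs hT a b c p k hp
      have v2 := Vt_abs hT a b c q k hq
      have g0 := dens_nonneg p (T p)
      have g1 := dens_le_one (T p) (hT p ⟨hp⟩).1
      have g2 := dens_nonneg q (T q)
      have g3 := dens_le_one (T q) (hT q ⟨hq⟩).1
      have h0 := hit_nonneg a b c p k
      have h1 := hit_le a b c p k
      have h2 := hit_nonneg a b c q k
      have h3 := hit_le a b c q k
      have r1 : Rt T a b c p k = Vt T a b c p k - hit a b c p k * dens p (T p) := by unfold Vt; ring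
      have r2 : Rt T a b c q k = Vt T a b c q k - hit a b c q k * dens q (T q) := by unfold Vt; ring
      obtain ⟨x, hx⟩ : ∃ x, x = hit a b c p k * dens p (T p) := ⟨_, rfl⟩
      obtain ⟨y, hy⟩ : ∃ y, y = hit a b c q k * dens q (T q) := ⟨_, rfl⟩
      have x0 : 0 ≤ x := by rw [hx]; positivity
      have x1 : x ≤ hit a b c p k := by rw [hx]; exact mul_le_of_le_one_right h0 g1
      have y0 : 0 ≤ y := by rw [hy]; positivity
      have y1 : y ≤ hit a b c q k := by rw [hy]; exact mul_le_of_le_one_right h2 g3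
      rw [r1, r2, ← hx, ← hy]
      have e3 : (Vt T a b c p k - x) * (Vt T a b c q k - y) - Vt T a b c p k * Vt T a b c q k =
          -(x * Vt T a b c q k) - y * Vt T a b c p k + x * y := by ring
      rw [e3]
      have a1 : |x * Vt T a b c q k| ≤ hit a b c p k := by
        rw [abs_mul, abs_of_nonneg x0]
        calc x * |Vt T a b c q k| ≤ x * 1 := mul_le_mul_of_nonneg_left v2 x0
          _ ≤ _ := by linarith
      have a2 : |y * Vt T a b c p k| ≤ hit a b c q k := by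
        rw [abs_mul, abs_of_nonneg y0]
        calc y * |Vt T a b c p k| ≤ y * 1 := mul_le_mul_of_nonneg_left v1 y0
          _ ≤ _ := by linarith
      have a3 : x * y ≤ hit a b c p k := by
        calc x * y ≤ x * 1 := mul_le_mul_of_nonneg_left (y1.trans h3) x0
          _ ≤ _ := by linarith
      have a4 : 0 ≤ x * y := mul_nonneg x0 y0
      rw [abs_le] at a1 a2 ⊢
      constructor <;> linarith [a1.1, a1.2, a2.1, a2.2]
    refine (sum_le_sum g1).trans ?_
    rw [sum_add_distrib, ← mul_sum]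
    linarith
  have hfin : |∑ k ∈ E, Rt T a b c p k * Rt T a b c q k| ≤
      |∑ k ∈ E, Vt T a b c p k * Vt T a b c q k| +
      |∑ k ∈ E, Rt T a b c p k * Rt T a b c q k -
      ∑ k ∈ E, Vt T a b c p k * Vt T a b c q k| := by
    have := abs_add_le (∑ k ∈ E, Vt T a b c p k * Vt T a b c q k)
      (∑ k ∈ E, Rt T a b c p k * Rt T a b c q k -
      ∑ k ∈ E, Vt T a b c p k * Vt T a b c q k)
    rwa [add_sub_cancel] at this
  linarith

/-- the second moment -/
lemma secondG (hT : Adm T) (a : ℕ) (b c : ℤ) (y : ℕ) (hy : 3 ≤ y) (E Q : Finset ℕ) (hQ : Q ⊆ AK.PY y)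
    (D H : ℝ) (hD : 0 ≤ D) (hH : 0 ≤ H) (hτ : ∀ p ∈ Q, ((p - 1).divisors.card : ℝ) ≤ Real.log y ^ 3)
    (hh : ∀ p ∈ Q, ∑ k ∈ E, hit a b c p k ≤ H)
    (hM : ∀ p ∈ Q, ∀ q ∈ Q, p ≠ q → ∀ (χ : DirichletCharacter ℂ p) (φ : DirichletCharacter ℂ q),
      χ ≠ 1 → φ ≠ 1 → ‖∑ k ∈ E, χ ((b : ZMod p) * (a : ZMod p) ^ k + (c : ZMod p)) *
        φ ((b : ZMod q) * (a : ZMod q) ^ k + (c : ZMod q))‖ ≤
          E.card * (Nat.gcd (p - 1) (q - 1) : ℝ) / Real.log y ^ 20 + D) :
    ∑ k ∈ E, (∑ p ∈ Q, Rt T a b c p k) ^ 2 ≤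
      y * E.card + E.card * ((y : ℝ) ^ 2 * (1 + Real.log y)) / Real.log y ^ 14 +
        (y : ℝ) ^ 2 * (Real.log y ^ 6 * D + 3 * H) := by
  classical
  obtain ⟨l, hl⟩ : ∃ l, l = Real.log (y : ℝ) := ⟨_, rfl⟩
  have hyr : (3 : ℝ) ≤ y := by exact_mod_cast hy
  have hl1 : 1 < l := by
    rw [hl, Real.lt_log_iff_exp_lt (by linarith)]
    have := Real.exp_one_lt_d9
    linarith
  rw [← hl]
  have hN0 : (0 : ℝ) ≤ E.card := Nat.cast_nonneg _
  have hPYc : (AK.PY y).card ≤ y := by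
    unfold AK.PY
    exact (card_filter_le _ _).trans (by rw [Nat.card_Icc]; omega)
  have hQc : (Q.card : ℝ) ≤ y := by
    have := (card_le_card hQ).trans hPYc
    exact_mod_cast this
  have h1 : ∑ k ∈ E, (∑ p ∈ Q, Rt T a b c p k) ^ 2 =
      ∑ p ∈ Q, ∑ q ∈ Q, ∑ k ∈ E, Rt T a b c p k * Rt T a b c q k := by
    have e1 : ∀ k ∈ E, (∑ p ∈ Q, Rt T a b c p k) ^ 2 =
        ∑ p ∈ Q, ∑ q ∈ Q, Rt T a b c p k * Rt T a b c q k := by
      intro k _
      rw [sq, sum_mul_sum]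
    rw [sum_congr rfl e1, sum_comm]
    refine sum_congr rfl fun p _ => ?_
    rw [sum_comm]
  have h2 : ∀ p ∈ Q, ∀ q ∈ Q, ∑ k ∈ E, Rt T a b c p k * Rt T a b c q k ≤
      (if p = q then (E.card : ℝ) else 0) + (E.card * (Nat.gcd (p - 1) (q - 1) : ℝ) / l ^ 14 +
        (l ^ 6 * D + 3 * H)) := by
    intro p hp q hq
    have hpp := (AK.mem_PY.1 (hQ hp)).1
    have hqp := (AK.mem_PY.1 (hQ hq)).1
    have : Fact p.Prime := ⟨hpp⟩
    have : Fact q.Prime := ⟨hqp⟩
    have hlow : 0 ≤ E.card * (Nat.gcd (p - 1) (q - 1) : ℝ) / l ^ 14 + (l ^ 6 * D + 3 * H) := by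
      have : 0 < l := by linarith
      positivity
    by_cases hpq : p = q
    · subst hpq
      rw [if_pos rfl]
      have e1 : ∑ k ∈ E, Rt T a b c p k * Rt T a b c p k ≤ ∑ _k ∈ E, (1 : ℝ) := by
        refine sum_le_sum fun k _ => ?_
        have := Rt_abs hT a b c p k hpp
        rw [abs_le] at this
        nlinarith [this.1, this.2]
      rw [sum_const, nsmul_eq_mul, mul_one] at e1
      linarith
    · rw [if_neg hpq, zero_add]
      obtain ⟨g, hg⟩ : ∃ g : ℝ, g = (Nat.gcd (p - 1) (q - 1) : ℝ) := ⟨_, rfl⟩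
      have hg0 : 0 ≤ g := by rw [hg]; exact Nat.cast_nonneg _
      have hl0 : 0 < l := by linarith
      have hMM := hM p hp q hq hpq
      rw [← hg, ← hl] at hMM
      rw [← hg]
      have hM0 : 0 ≤ E.card * g / l ^ 20 + D := by positivity
      have hpair := (le_abs_self _).trans (pairG hT a b c p q E _ H H hM0 hMM (hh p hp) (hh q hq))
      refine hpair.trans ?_
      have m5 : ((p - 1).divisors.card : ℝ) * ((q - 1).divisors.card : ℝ) ≤ l ^ 6 := by
        have t1 := hτ p hp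
        have t2 := hτ q hq
        rw [← hl] at t1 t2
        calc _ ≤ l ^ 3 * l ^ 3 := by gcongr
          _ = l ^ 6 := by ring
      have m6 : ((p - 1).divisors.card : ℝ) * ((q - 1).divisors.card : ℝ) * (E.card * g / l ^ 20 + D) ≤
          l ^ 6 * (E.card * g / l ^ 20 + D) := by gcongr
      have m7 : l ^ 6 * (E.card * g / l ^ 20 + D) = E.card * g / l ^ 14 + l ^ 6 * D := by
        field_simp
      linarith
  rw [h1]
  calc ∑ p ∈ Q, ∑ q ∈ Q, ∑ k ∈ E, Rt T a b c p k * Rt T a b c q k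
      ≤ ∑ p ∈ Q, ∑ q ∈ Q, ((if p = q then (E.card : ℝ) else 0) +
        (E.card * (Nat.gcd (p - 1) (q - 1) : ℝ) / l ^ 14 + (l ^ 6 * D + 3 * H))) :=
        sum_le_sum fun p hp => sum_le_sum fun q hq => h2 p hp q hq
    _ = ∑ p ∈ Q, (E.card : ℝ) + ((E.card / l ^ 14) * ∑ p ∈ Q, ∑ q ∈ Q, (Nat.gcd (p - 1) (q - 1) : ℝ) +
        Q.card * (Q.card * (l ^ 6 * D + 3 * H))) := by
        simp only [sum_add_distrib, sum_const, nsmul_eq_mul]
        congr 1
        · rw [sum_congr rfl fun p hp => by rw [sum_ite_eq, if_pos hp]]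
          rw [sum_const, nsmul_eq_mul]
        · congr 1
          · rw [mul_sum]
            refine sum_congr rfl fun p _ => ?_
            rw [mul_sum]
            refine sum_congr rfl fun q _ => by ring
          · ring
    _ ≤ y * E.card + ((E.card / l ^ 14) * ((y : ℝ) ^ 2 * (1 + l)) +
        y * (y * (l ^ 6 * D + 3 * H))) := by
        have e1 : ∑ p ∈ Q, (E.card : ℝ) ≤ y * E.card := by
          rw [sum_const, nsmul_eq_mul]
          gcongr
        have e2 : ∑ p ∈ Q, ∑ q ∈ Q, (Nat.gcd (p - 1) (q - 1) : ℝ) ≤ (y : ℝ) ^ 2 * (1 + l) := by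
          rw [hl]
          refine le_trans ?_ (AK.gcd_sum y (by omega))
          refine (sum_le_sum fun p _ => sum_le_sum_of_subset_of_nonneg hQ fun _ _ _ =>
            Nat.cast_nonneg _).trans ?_
          exact sum_le_sum_of_subset_of_nonneg hQ fun _ _ _ => sum_nonneg fun _ _ =>
            Nat.cast_nonneg _
        have hl0 : 0 < l := by linarith
        have e3 : (0 : ℝ) ≤ l ^ 6 * D + 3 * H := by positivity
        gcongr
    _ = _ := by ring

end Pool.Agent.U376.AG
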