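import Mathlib
import Pool.Agent.U376.AK.Grid
import Pool.Agent.U376.AG.PairG

set_option autoImplicit false

/-! From one value of `x` to all values of `x`, abstract families of exponents. -/

namespace Pool.Agent.U376.AG

open Finset Filter Topology
open Pool.Agent.U376.AK (hit hit_nonneg hit_le PY mem_PY GoodP good_density ev_log)

open Classical in
/-- Chebyshev -/
lemma chebG {T : ∀ p : ℕ, ZMod p → Prop} (a : ℕ) (b c : ℤ) (y : ℕ) (hy : 3 ≤ y)
    (E Q : Finset ℕ) (N : ℝ) (hN : 0 ≤ N) (D H : ℝ)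
    (hl2 : 2 ≤ Real.log y) (hly : 6 * Real.log y ^ 12 ≤ √(y : ℝ))
    (hD : D * Real.log y ^ 16 ≤ N / 2) (hH : H * Real.log y ^ 10 ≤ N / 6)
    (hE : (E.card : ℝ) ≤ N)
    (hsec : ∑ k ∈ E, (∑ p ∈ Q, Rt T a b c p k) ^ 2 ≤
      y * N + N * ((y : ℝ) ^ 2 * (1 + Real.log y)) / Real.log y ^ 14 +
        (y : ℝ) ^ 2 * (Real.log y ^ 6 * D + 3 * H)) (δ : ℝ) (hδ : 0 < δ) :
    ((E.filter (fun k => δ * (y / Real.log y) < |∑ p ∈ Q, Rt T a b c p k|)).card : ℝ) ≤
      4 * N / (δ ^ 2 * Real.log y ^ 8) := by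
  obtain ⟨l, hl⟩ : ∃ l, l = Real.log (y : ℝ) := ⟨_, rfl⟩
  obtain ⟨s, hs⟩ : ∃ s, s = √(y : ℝ) := ⟨_, rfl⟩
  rw [← hl] at hl2 hly hD hH hsec ⊢
  rw [← hs] at hly
  have hyr : (3 : ℝ) ≤ y := by exact_mod_cast hy
  have hss : s * s = y := by rw [hs]; exact Real.mul_self_sqrt (by linarith)
  have hl0 : 0 < l := by linarith
  have hl1 : 1 ≤ l := by linarith
  have hl10 : 0 < l ^ 10 := by positivity
  have hls : l ^ 10 ≤ s := by
    have : l ^ 10 ≤ l ^ 12 := pow_le_pow_right₀ hl1 (by norm_num)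
    have h0 : 0 < l ^ 12 := by positivity
    linarith
  have hs1 : 1 ≤ s := le_trans (one_le_pow₀ hl1) hls
  have t1 : (y : ℝ) * N ≤ N * (y : ℝ) ^ 2 / l ^ 10 := by
    rw [le_div_iff₀ hl10]
    have : l ^ 10 ≤ y := by
      rw [← hss]; nlinarith
    calc (y : ℝ) * N * l ^ 10 ≤ y * N * y := by gcongr
      _ = N * (y : ℝ) ^ 2 := by ring
  have t2 : N * ((y : ℝ) ^ 2 * (1 + l)) / l ^ 14 ≤ N * (y : ℝ) ^ 2 / l ^ 10 := by
    rw [div_le_div_iff₀ (by positivity) hl10]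
    have h1 : 1 + l ≤ l ^ 4 := by
      have h2 : 1 + l ≤ l ^ 2 := by nlinarith
      exact h2.trans (pow_le_pow_right₀ hl1 (by norm_num))
    calc N * ((y : ℝ) ^ 2 * (1 + l)) * l ^ 10 ≤ N * ((y : ℝ) ^ 2 * l ^ 4) * l ^ 10 := by gcongr
      _ = N * (y : ℝ) ^ 2 * l ^ 14 := by ring
  have t3 : (y : ℝ) ^ 2 * (l ^ 6 * D + 3 * H) ≤ N * (y : ℝ) ^ 2 / l ^ 10 := by
    rw [le_div_iff₀ hl10]
    have : (l ^ 6 * D + 3 * H) * l ^ 10 ≤ N := by
      calc (l ^ 6 * D + 3 * H) * l ^ 10 = D * l ^ 16 + 3 * (H * l ^ 10) := by ring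
        _ ≤ N := by linarith
    calc (y : ℝ) ^ 2 * (l ^ 6 * D + 3 * H) * l ^ 10 = (y : ℝ) ^ 2 * ((l ^ 6 * D + 3 * H) * l ^ 10) := by ring
      _ ≤ (y : ℝ) ^ 2 * N := by gcongr
      _ = N * (y : ℝ) ^ 2 := by ring
  have hM : ∑ k ∈ E, (∑ p ∈ Q, Rt T a b c p k) ^ 2 ≤ 4 * (N * (y : ℝ) ^ 2 / l ^ 10) := by
    have : 0 ≤ N * (y : ℝ) ^ 2 / l ^ 10 := by positivity
    linarith
  have hcheb : ((E.filter (fun k => δ * (y / l) < |∑ p ∈ Q, Rt T a b c p k|)).card : ℝ) * (δ * (y / l)) ^ 2 ≤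
        4 * (N * (y : ℝ) ^ 2 / l ^ 10) := by
    refine le_trans ?_ hM
    rw [← nsmul_eq_mul, ← sum_const]
    refine le_trans (sum_le_sum fun k hk => ?_) (sum_le_sum_of_subset_of_nonneg
      (filter_subset (fun k => δ * (y / l) < |∑ p ∈ Q, Rt T a b c p k|) E)
      fun k _ _ => sq_nonneg _)
    have h1 := (mem_filter.1 hk).2
    rw [← sq_abs (∑ p ∈ Q, Rt T a b c p k)]
    have : 0 ≤ δ * ((y : ℝ) / l) := by positivity
    exact pow_le_pow_left₀ this h1.le 2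
  rw [← le_div_iff₀ (by positivity)] at hcheb
  refine hcheb.trans (le_of_eq ?_)
  field_simp

open Classical in
/-- the general theorem -/
theorem mainG (C : ℕ) (hC : 1 ≤ C) (a : ℕ) (b c : ℤ) (ha : 2 ≤ a) (hb : b ≠ 0) (hc : c ≠ 0)
    (E : ℕ → Finset ℕ) (N : ℕ → ℝ) (hN : ∀ K, 0 ≤ N K) (R : ℕ → ℝ) (Y₁ : ℕ)
    (hcheb : ∀ y K : ℕ, Y₁ ≤ y → (y : ℝ) ≤ R K → ∀ T : ∀ p : ℕ, ZMod p → Prop, Adm T → ∀ δ : ℝ, 0 < δ →
      (((E K).filter (fun k => δ * (y / Real.log y) <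
        |∑ p ∈ GoodP a (b * c) C y, Rt T a b c p k|)).card : ℝ) ≤ 4 * N K / (δ ^ 2 * Real.log y ^ 8))
    (ε : ℝ) (hε : 0 < ε) (η : ℝ) (hη : 0 < η) :
    ∃ X : ℕ, ∀ T : ∀ p : ℕ, ZMod p → Prop, Adm T → ∀ K : ℕ,
      (((E K).filter (fun k => ∃ x : ℕ, X ≤ x ∧ (x : ℝ) ≤ R K ∧
      ε * (x / Real.log x) < |∑ p ∈ PY x, Rt T a b c p k|)).card : ℝ) ≤ η * N K := by
  obtain ⟨Y₂, h2⟩ := good_density a (b * c) C ha (mul_ne_zero hb hc) hC (ε / 8) (by positivity)
  obtain ⟨δ, hδ⟩ : ∃ δ, δ = ε / 4 := ⟨_, rfl⟩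
  have hδ0 : 0 < δ := by rw [hδ]; positivity
  -- choice of J
  obtain ⟨J, hJ⟩ : ∃ J : ℕ, J = max (max Y₁ Y₂) (max (⌈16 / ε⌉₊ + 4) (⌈4096 / (δ ^ 2 * η)⌉₊ + 1)) := ⟨_, rfl⟩
  have hJY₁ : Y₁ ≤ J := by rw [hJ]; exact (le_max_left _ _).trans (le_max_left _ _)
  have hJY₂ : Y₂ ≤ J := by rw [hJ]; exact (le_max_right _ _).trans (le_max_left _ _)
  have hJ4 : ⌈16 / ε⌉₊ + 4 ≤ J := by rw [hJ]; exact (le_max_left _ _).trans (le_max_right _ _)
  have hJη : ⌈4096 / (δ ^ 2 * η)⌉₊ + 1 ≤ J := by rw [hJ]; exact (le_max_right _ _).trans (le_max_right _ _)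
  have hJε : 16 / ε ≤ J := by
    have e1 := Nat.le_ceil (16 / ε)
    have e2 : ((⌈16 / ε⌉₊ : ℕ) : ℝ) ≤ J := by exact_mod_cast (by omega : ⌈16 / ε⌉₊ ≤ J)
    linarith
  have hJη' : 4096 / (δ ^ 2 * η) ≤ J := by
    have e1 := Nat.le_ceil (4096 / (δ ^ 2 * η))
    have e2 : ((⌈4096 / (δ ^ 2 * η)⌉₊ : ℕ) : ℝ) ≤ J := by
      exact_mod_cast (by omega : ⌈4096 / (δ ^ 2 * η)⌉₊ ≤ J)
    linarith
  refine ⟨2 ^ (J + 1), fun T hT K' => ?_⟩
  obtain ⟨K, hK⟩ : ∃ K : ℕ, K = ⌊R K'⌋₊ := ⟨_, rfl⟩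
  -- the grid
  obtain ⟨gp, hgp⟩ : ∃ gp : ℕ → ℕ → ℕ, gp = fun j i => 2 ^ j + (2 ^ j / j ^ 2) * i := ⟨_, rfl⟩
  obtain ⟨F, hE⟩ : ∃ F : ℕ → Finset ℕ, F = fun y : ℕ => if (y : ℝ) ≤ R K' then
      (E K').filter (fun k => δ * (y / Real.log y) < |∑ p ∈ GoodP a (b * c) C y, Rt T a b c p k|) else ∅ :=
    ⟨_, rfl⟩
  have hl2a := Real.log_two_gt_d9
  have hl2b := Real.log_two_lt_d9
  have hN0 := hN K'
  have hEc : ∀ y, Y₁ ≤ y → 2 ≤ y → ((F y).card : ℝ) ≤ 4 * N K' / (δ ^ 2 * Real.log y ^ 8) := by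
    intro y hy hy2
    rw [hE]
    beta_reduce
    split_ifs with h
    · exact hcheb y K' hy h T hT δ hδ0
    · have hly : 0 < Real.log y := Real.log_pos (by exact_mod_cast (by omega : 1 < y))
      simp only [card_empty, Nat.cast_zero]
      positivity
  have hsub : (E K').filter (fun k => ∃ x : ℕ, 2 ^ (J + 1) ≤ x ∧ (x : ℝ) ≤ R K' ∧
      ε * (x / Real.log x) < |∑ p ∈ PY x, Rt T a b c p k|) ⊆
      (Ioc J K).biUnion (fun j => (range (2 * j ^ 2 + 1)).biUnion (fun i => F (gp j i))) := by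
    intro k hk
    rw [mem_filter] at hk
    obtain ⟨hkK, x, hx1, hx2, hx3⟩ := hk
    obtain ⟨j, hj⟩ : ∃ j, j = Nat.log 2 x := ⟨_, rfl⟩
    have hx0 : x ≠ 0 := by have := Nat.one_le_two_pow (n := J + 1); omega
    have hj1 : 2 ^ j ≤ x := by rw [hj]; exact Nat.pow_log_le_self 2 hx0
    have hj2 : x < 2 ^ (j + 1) := by rw [hj]; exact Nat.lt_pow_succ_log_self (by norm_num) x
    have hJj : J + 1 ≤ j := by
      rw [hj]; exact (Nat.le_log_iff_pow_le (by norm_num) hx0).2 hx1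
    have hjK : j ≤ K := by
      have f1 : j < 2 ^ j := Nat.lt_two_pow_self
      have f3 : x ≤ K := by rw [hK]; exact Nat.le_floor hx2
      omega
    have hj4 : 5 ≤ j := by omega
    obtain ⟨w, hw⟩ : ∃ w, w = 2 ^ j / j ^ 2 := ⟨_, rfl⟩
    have hjpow : j ^ 2 ≤ 2 ^ j := by
      have : ∀ n : ℕ, 4 ≤ n → n ^ 2 ≤ 2 ^ n := by
        intro n hn
        induction n, hn using Nat.le_induction with
        | base => norm_num
        | succ n hn ih =>
          rw [pow_succ 2 n]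
          nlinarith
      exact this j (by omega)
    have hw1 : 1 ≤ w := by
      rw [hw]
      exact Nat.div_pos hjpow (by positivity)
    have hw2 : w * j ^ 2 ≤ 2 ^ j := by rw [hw]; exact Nat.div_mul_le_self _ _
    have hw3 : 2 ^ j < (w + 1) * j ^ 2 := by
      have h3 := Nat.lt_div_mul_add (a := 2 ^ j) (b := j ^ 2) (by positivity)
      rw [← hw] at h3
      calc 2 ^ j < w * j ^ 2 + j ^ 2 := h3
        _ = (w + 1) * j ^ 2 := by ring
    obtain ⟨i, hi⟩ : ∃ i, i = (x - 2 ^ j) / w := ⟨_, rfl⟩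
    have hi1 : i * w ≤ x - 2 ^ j := by rw [hi]; exact Nat.div_mul_le_self _ _
    have hi2 : x - 2 ^ j < i * w + w := by
      rw [hi]; exact Nat.lt_div_mul_add (by omega)
    have hi3 : i < 2 * j ^ 2 + 1 := by
      by_contra hcon
      push Not at hcon
      have g1 : (2 * j ^ 2 + 1) * w ≤ i * w := Nat.mul_le_mul_right w hcon
      have g2 : x - 2 ^ j < 2 ^ j := by rw [pow_succ] at hj2; omega
      have g3 : (w + 1) * j ^ 2 ≤ 2 * j ^ 2 * w := by
        have : w + 1 ≤ 2 * w := by omega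
        calc (w + 1) * j ^ 2 ≤ (2 * w) * j ^ 2 := Nat.mul_le_mul_right _ this
          _ = 2 * j ^ 2 * w := by ring
      have g4 : (2 * j ^ 2 + 1) * w = 2 * j ^ 2 * w + w := by ring
      omega
    obtain ⟨y, hy⟩ : ∃ y, y = gp j i := ⟨_, rfl⟩
    have hy' : y = 2 ^ j + i * w := by rw [hy, hgp, hw]; ring
    have hyx : y ≤ x := by omega
    have hxy : x - y < w := by omega
    have hy2j : 2 ^ j ≤ y := by omega
    rw [mem_biUnion]
    refine ⟨j, mem_Ioc.2 ⟨by omega, hjK⟩, ?_⟩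
    rw [mem_biUnion]
    refine ⟨i, mem_range.2 hi3, ?_⟩
    rw [← hy, hE]
    beta_reduce
    have hyxr : (y : ℝ) ≤ x := by exact_mod_cast hyx
    rw [if_pos (hyxr.trans hx2), mem_filter]
    refine ⟨hkK, ?_⟩
    -- analysis
    have hx1' : 1 < x := lt_of_lt_of_le (Nat.one_lt_two_pow (by omega)) hj1
    have hxr : (1 : ℝ) < x := by exact_mod_cast hx1'
    have hjr : (5 : ℝ) ≤ j := by exact_mod_cast hj4
    have h2jr : ((2 : ℝ) ^ j) ≤ y := by exact_mod_cast hy2j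
    have hlogx : Real.log x ≤ j := by
      have f1 : (x : ℝ) ≤ 2 ^ (j + 1) := by exact_mod_cast hj2.le
      have f2 := Real.log_le_log (by linarith) f1
      rw [Real.log_pow] at f2
      push_cast at f2
      nlinarith
    have hlogy : (j : ℝ) / 2 ≤ Real.log y := by
      have f2 := Real.log_le_log (by positivity) h2jr
      rw [Real.log_pow] at f2
      nlinarith
    have hlogyx : Real.log y ≤ Real.log x := Real.log_le_log (by
      have : (0 : ℝ) < 2 ^ j := by positivity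
      linarith) hyxr
    have hlx0 : 0 < Real.log x := Real.log_pos hxr
    have hly0 : 0 < Real.log y := by linarith
    have hy0 : (0 : ℝ) < y := by
      have : (0 : ℝ) < 2 ^ j := by positivity
      linarith
    obtain ⟨u, hu⟩ : ∃ u, u = (x : ℝ) / Real.log x := ⟨_, rfl⟩
    have hu0 : 0 < u := by rw [hu]; positivity
    have hv1 : (y : ℝ) / Real.log y ≤ 2 * u := by
      rw [hu]
      rw [div_le_iff₀ hly0]
      have : 2 * ((x : ℝ) / Real.log x) * Real.log y = x * (2 * Real.log y / Real.log x) := by ring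
      rw [this]
      have h3 : 1 ≤ 2 * Real.log y / Real.log x := by
        rw [le_div_iff₀ hlx0]; linarith
      nlinarith
    have hbad := h2 y (by
      have : j < 2 ^ j := Nat.lt_two_pow_self
      omega)
    -- difference between x and y
    have hd1 : |∑ p ∈ PY x, Rt T a b c p k - ∑ p ∈ PY y, Rt T a b c p k| ≤ ε / 8 * u := by
      have hPsub : PY y ⊆ PY x := by
        intro p hp
        rw [mem_PY] at hp ⊢
        exact ⟨hp.1, hp.2.trans hyx⟩
      rw [← sum_sdiff hPsub, add_sub_cancel_right]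
      have g1 : |∑ p ∈ PY x \ PY y, Rt T a b c p k| ≤ ((PY x \ PY y).card : ℝ) := by
        refine (abs_sum_le_sum_abs _ _).trans ?_
        calc _ ≤ ∑ _p ∈ PY x \ PY y, (1 : ℝ) := by
              refine sum_le_sum fun p hp => ?_
              rw [Finset.mem_sdiff, mem_PY] at hp
              exact Rt_abs hT a b c p k hp.1.1
          _ = _ := by rw [sum_const, nsmul_eq_mul, mul_one]
      have g2 : (PY x \ PY y).card ≤ x - y := by
        calc (PY x \ PY y).card ≤ (Ioc y x).card := by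
              apply card_le_card
              intro p hp
              rw [Finset.mem_sdiff, mem_PY, mem_PY] at hp
              rw [mem_Ioc]
              refine ⟨?_, hp.1.2⟩
              by_contra h
              exact hp.2 ⟨hp.1.1, by omega⟩
          _ = x - y := Nat.card_Ioc y x
      have g3 : ((x - y : ℕ) : ℝ) ≤ ε / 8 * u := by
        have k1 : ((x - y : ℕ) : ℝ) ≤ w := by exact_mod_cast hxy.le
        have k2 : (w : ℝ) * j ^ 2 ≤ 2 ^ j := by exact_mod_cast hw2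
        have k3 : (w : ℝ) ≤ x / j ^ 2 := by
          rw [le_div_iff₀ (by positivity)]
          linarith
        have k4 : (x : ℝ) / j ^ 2 ≤ (1 / j) * u := by
          rw [hu]
          have : (1 / (j : ℝ)) * (x / Real.log x) = x / (j * Real.log x) := by
            field_simp
          rw [this]
          apply div_le_div_of_nonneg_left (by linarith) (by positivity)
          rw [sq]
          gcongr
        have k5 : 1 / (j : ℝ) ≤ ε / 8 := by
          have hjJ : (J : ℝ) ≤ j := by exact_mod_cast (by omega : J ≤ j)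
          rw [div_le_div_iff₀ (by linarith) (by norm_num)]
          have := hJε.trans hjJ
          rw [div_le_iff₀ hε] at this
          linarith
        calc ((x - y : ℕ) : ℝ) ≤ (1 / j) * u := by linarith
          _ ≤ ε / 8 * u := by gcongr
      refine g1.trans (le_trans ?_ g3)
      exact_mod_cast g2
    have hd2 : |∑ p ∈ PY y, Rt T a b c p k - ∑ p ∈ GoodP a (b * c) C y, Rt T a b c p k| ≤ ε / 4 * u := by
      have hGsub : GoodP a (b * c) C y ⊆ PY y := by rw [GoodP]; exact filter_subset _ _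
      rw [← sum_sdiff hGsub, add_sub_cancel_right]
      have g1 : |∑ p ∈ PY y \ GoodP a (b * c) C y, Rt T a b c p k| ≤ ((PY y \ GoodP a (b * c) C y).card : ℝ) := by
        refine (abs_sum_le_sum_abs _ _).trans ?_
        calc _ ≤ ∑ _p ∈ PY y \ GoodP a (b * c) C y, (1 : ℝ) := by
              refine sum_le_sum fun p hp => ?_
              rw [Finset.mem_sdiff, mem_PY] at hp
              exact Rt_abs hT a b c p k hp.1.1
          _ = _ := by rw [sum_const, nsmul_eq_mul, mul_one]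
      refine g1.trans (hbad.trans ?_)
      nlinarith
    have hfin : ε / 2 * u < |∑ p ∈ GoodP a (b * c) C y, Rt T a b c p k| := by
      rw [← hu] at hx3
      have k1 := abs_sub_abs_le_abs_sub (∑ p ∈ PY x, Rt T a b c p k) (∑ p ∈ PY y, Rt T a b c p k)
      have k2 := abs_sub_abs_le_abs_sub (∑ p ∈ PY y, Rt T a b c p k) (∑ p ∈ GoodP a (b * c) C y, Rt T a b c p k)
      have k3 : 0 < ε * u := by positivity
      linarith
    refine lt_of_le_of_lt ?_ hfin
    rw [hδ]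
    nlinarith
  -- counting
  have hcount : (((E K').filter (fun k => ∃ x : ℕ, 2 ^ (J + 1) ≤ x ∧ (x : ℝ) ≤ R K' ∧
      ε * (x / Real.log x) < |∑ p ∈ PY x, Rt T a b c p k|)).card : ℝ) ≤
      ∑ j ∈ Ioc J K, (4096 * N K' / δ ^ 2) * ((j : ℝ) ^ 2)⁻¹ := by
    have f1 := (card_le_card hsub).trans (card_biUnion_le.trans (sum_le_sum fun j _ => card_biUnion_le))
    have f2 : (((E K').filter (fun k => ∃ x : ℕ, 2 ^ (J + 1) ≤ x ∧ (x : ℝ) ≤ R K' ∧
      ε * (x / Real.log x) < |∑ p ∈ PY x, Rt T a b c p k|)).card : ℝ) ≤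
      ∑ j ∈ Ioc J K, ∑ i ∈ range (2 * j ^ 2 + 1), ((F (gp j i)).card : ℝ) := by
      exact_mod_cast f1
    refine f2.trans (sum_le_sum fun j hj => ?_)
    rw [mem_Ioc] at hj
    have hj5 : 5 ≤ j := by omega
    have hjr : (5 : ℝ) ≤ j := by exact_mod_cast hj5
    have g1 : ∀ i ∈ range (2 * j ^ 2 + 1), ((F (gp j i)).card : ℝ) ≤ 1024 * N K' / (δ ^ 2 * (j : ℝ) ^ 8) := by
      intro i _
      obtain ⟨y, hy⟩ : ∃ y, y = gp j i := ⟨_, rfl⟩
      have hy2j : 2 ^ j ≤ y := by rw [hy, hgp]; exact Nat.le_add_right _ _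
      have h2j : j < 2 ^ j := Nat.lt_two_pow_self
      rw [← hy]
      refine (hEc y (by omega) (by omega)).trans ?_
      have h2jr : ((2 : ℝ) ^ j) ≤ y := by exact_mod_cast hy2j
      have hlogy : (j : ℝ) / 2 ≤ Real.log y := by
        have f2 := Real.log_le_log (by positivity) h2jr
        rw [Real.log_pow] at f2
        nlinarith
      calc 4 * N K' / (δ ^ 2 * Real.log y ^ 8) ≤ 4 * N K' / (δ ^ 2 * ((j : ℝ) / 2) ^ 8) := by gcongr
        _ = 1024 * N K' / (δ ^ 2 * (j : ℝ) ^ 8) := by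
            field_simp
            ring
    refine (sum_le_sum g1).trans ?_
    rw [sum_const, card_range, nsmul_eq_mul]
    push_cast
    have hj0 : (0 : ℝ) < j := by linarith
    have g2 : (2 * (j : ℝ) ^ 2 + 1) ≤ 4 * (j : ℝ) ^ 2 := by nlinarith
    calc (2 * (j : ℝ) ^ 2 + 1) * (1024 * N K' / (δ ^ 2 * (j : ℝ) ^ 8))
        ≤ (4 * (j : ℝ) ^ 2) * (1024 * N K' / (δ ^ 2 * (j : ℝ) ^ 8)) := by gcongr
      _ = (4096 * N K' / δ ^ 2) * ((j : ℝ) ^ 6)⁻¹ := by field_simp; ring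
      _ ≤ (4096 * N K' / δ ^ 2) * ((j : ℝ) ^ 2)⁻¹ := by
          apply mul_le_mul_of_nonneg_left _ (by positivity)
          apply inv_anti₀ (by positivity)
          exact pow_le_pow_right₀ (by linarith) (by norm_num)
  refine hcount.trans ?_
  rw [← mul_sum]
  have hJ0 : J ≠ 0 := by omega
  have hJr : (0 : ℝ) < J := by exact_mod_cast Nat.pos_of_ne_zero hJ0
  have f3 : ∑ j ∈ Ioc J K, ((j : ℝ) ^ 2)⁻¹ ≤ (J : ℝ)⁻¹ := by
    rcases Nat.lt_or_ge K J with h | h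
    · rw [Ioc_eq_empty (by omega), sum_empty]
      positivity
    · have := sum_Ioc_inv_sq_le_sub (α := ℝ) (k := J) (n := K) hJ0 h
      have h4 : (0 : ℝ) ≤ (K : ℝ)⁻¹ := by positivity
      linarith
  calc (4096 * N K' / δ ^ 2) * ∑ j ∈ Ioc J K, ((j : ℝ) ^ 2)⁻¹ ≤ (4096 * N K' / δ ^ 2) * (J : ℝ)⁻¹ := by gcongr
    _ = (4096 / (δ ^ 2 * η)) / J * (η * N K') := by field_simp
    _ ≤ 1 * (η * N K') := by
        apply mul_le_mul_of_nonneg_right _ (by positivity)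
        rw [div_le_one hJr]
        exact hJη'
    _ = η * N K' := one_mul _

end Pool.Agent.U376.AG
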