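import Mathlib
import Pool.Agent.U376.AK.Fin
import Pool.Agent.U376.AG.GridG

set_option autoImplicit false

/-! Passage to densities, abstract families of exponents. -/

namespace Pool.Agent.U376.AG

open Finset Filter Topology
open Pool.Agent.U376.AK (PY mem_PY PY_eq EE_eq EE_one_lim cnt_sq artinC_pos)
open Pool.Agent.H730R2.AA (NT cnt)
open Pool.Agent.N430.PS (G expandR EE EE_lim)
open Pool.Agent.TH890.AS (Rep dens dens_nonneg dens_le_one dens_eq rep_mono rep_art two_pow_le order_zero)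
open Pool.Agent.H386R2.Artin (artinC)
open Pool.Agent.H386R2.Artin.SH (pi_lower)

/-- Artin's condition -/
def TA (B : ℤ) (e : ℕ) : ∀ p : ℕ, ZMod p → Prop := fun p x => orderOf ((B : ZMod p) * x ^ e) = p - 1

lemma adm_TA (B : ℤ) (e : ℕ) (he : e ≠ 0) : Adm (TA B e) := by
  classical
  intro p hp
  refine ⟨?_, ?_⟩
  · unfold TA
    rw [zero_pow he, mul_zero]
    exact order_zero
  · have hp1 : 1 ≤ p - 1 := by have := hp.out.one_lt; omega
    refine rep_mono (K := ∏ l ∈ (p - 1).primeFactors, ((1 : ℝ) + 1)) ?_ (two_pow_le (by omega))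
    convert rep_art (B : ZMod p) he using 2
    rename_i x
    by_cases h : orderOf ((B : ZMod p) * x ^ e) = p - 1 <;> simp [TA, h]

lemma dens_TA (B : ℤ) (e : ℕ) (he : e ≠ 0) (p : ℕ) [hp : Fact p.Prime] :
    dens p (TA B e p) = G B e p := by
  classical
  obtain ⟨β, h1, -, -⟩ := expandR p B e he
  have hp1 : ((p - 1 : ℕ) : ℂ) ≠ 0 := by
    have := hp.out.one_lt
    exact_mod_cast (by omega : p - 1 ≠ 0)
  have h2 : ∀ x : ZMod p, (if TA B e p x then (1 : ℂ) else 0) =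
      (if x = 0 then 0 else ((G B e p : ℝ) : ℂ)) + ∑ χ ∈ NT p, β χ * χ x := by
    intro x
    have h3 := h1 x.val
    have h4 : ((B * (x.val : ℤ) ^ e : ℤ) : ZMod p) = (B : ZMod p) * x ^ e := by
      push_cast
      rw [ZMod.natCast_zmod_val]
    have h5 : p ∣ x.val ↔ x = 0 := by
      rw [← ZMod.natCast_eq_zero_iff, ZMod.natCast_zmod_val]
    rw [h4, ZMod.natCast_zmod_val] at h3
    simp only [h5] at h3
    rw [← h3]
    by_cases h : orderOf ((B : ZMod p) * x ^ e) = p - 1 <;> simp [TA, h]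
  have h3 : ∑ x, (if TA B e p x then (1 : ℂ) else 0) = ((p - 1 : ℕ) : ℂ) * ((G B e p : ℝ) : ℂ) := by
    rw [sum_congr rfl fun x _ => h2 x, sum_add_distrib, sum_comm]
    have e1 : ∑ χ ∈ NT p, ∑ x, β χ * χ x = 0 := by
      refine sum_eq_zero fun χ hχ => ?_
      rw [← mul_sum, MulChar.sum_eq_zero_of_ne_one, mul_zero]
      unfold NT at hχ
      simpa using hχ
    have e2 : ∑ x : ZMod p, (if x = 0 then (0 : ℂ) else ((G B e p : ℝ) : ℂ)) =
        ((p - 1 : ℕ) : ℂ) * ((G B e p : ℝ) : ℂ) := by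
      have e3 : ∀ x : ZMod p, (if x = 0 then (0 : ℂ) else ((G B e p : ℝ) : ℂ)) =
          ((G B e p : ℝ) : ℂ) - (if x = 0 then ((G B e p : ℝ) : ℂ) else 0) := by
        intro x; split_ifs <;> simp
      rw [sum_congr rfl fun x _ => e3 x, sum_sub_distrib, sum_const, card_univ, ZMod.card, sum_ite_eq',
        if_pos (mem_univ _), nsmul_eq_mul, Nat.cast_sub hp.out.one_le]
      push_cast
      ring
    rw [e1, e2, add_zero]
  have h4 : ((dens p (TA B e p) : ℝ) : ℂ) = ((G B e p : ℝ) : ℂ) := by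
    rw [dens_eq, ← sum_boole]
    push_cast
    rw [div_eq_iff hp1, mul_comm, ← h3]
    refine sum_congr rfl fun _ _ => ?_
    split_ifs <;> simp
  exact_mod_cast h4

lemma sum_dens_TA (B : ℤ) (e : ℕ) (he : e ≠ 0) (x : ℕ) : ∑ p ∈ PY x, dens p (TA B e p) = EE B e x := by
  rw [EE_eq]
  refine sum_congr rfl fun p hp => ?_
  have : Fact p.Prime := ⟨(mem_PY.1 hp).1⟩
  exact dens_TA B e he p

open Classical in
/-- the counting function -/
noncomputable def cT (T : ∀ p : ℕ, ZMod p → Prop) (n : ℤ) (x : ℕ) : ℕ :=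
  ((PY x).filter (fun p => T p (n : ZMod p))).card

lemma sum_Rt (T : ∀ p : ℕ, ZMod p → Prop) (a : ℕ) (b c : ℤ) (k x : ℕ) : ∑ p ∈ PY x, Rt T a b c p k =
    (cT T (b * (a : ℤ) ^ k + c) x : ℝ) - ∑ p ∈ PY x, dens p (T p) := by
  classical
  unfold Rt cT
  rw [sum_sub_distrib]
  congr 1
  rw [← sum_filter, sum_const, nsmul_eq_mul, mul_one]

lemma cT_TA (B : ℤ) (e : ℕ) (n : ℤ) (x : ℕ) : cT (TA B e) n x = cnt (B * n ^ e) x := by
  classical
  unfold cT cnt TA
  rw [PY_eq, filter_filter]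
  apply congrArg
  ext p
  simp only [mem_filter]
  push_cast
  rfl

section
variable (a : ℕ) (b c : ℤ) (E : ℕ → Finset ℕ) (N : ℕ → ℝ) (R : ℕ → ℝ)

open Classical in
/-- the conclusion of the general theorem -/
def Hyp : Prop := ∀ ε : ℝ, 0 < ε → ∀ η : ℝ, 0 < η → ∃ X : ℕ, ∀ T : ∀ p : ℕ, ZMod p → Prop, Adm T → ∀ K : ℕ,
      (((E K).filter (fun k => ∃ x : ℕ, X ≤ x ∧ (x : ℝ) ≤ R K ∧
      ε * (x / Real.log x) < |∑ p ∈ PY x, Rt T a b c p k|)).card : ℝ) ≤ η * N K

variable {a b c E N R}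

open Classical in
theorem lim_fam (hH : Hyp a b c E N R) (T : ∀ p : ℕ, ZMod p → Prop) (hT : Adm T) (L : ℝ)
    (hlim : Tendsto (fun x : ℕ => (∑ p ∈ PY x, dens p (T p)) / (Nat.primeCounting x : ℝ)) atTop (𝓝 L))
    (ε : ℝ) (hε : 0 < ε) (η : ℝ) (hη : 0 < η) :
    ∃ X : ℕ, ∀ K : ℕ, (((E K).filter (fun k => ∃ x : ℕ, X ≤ x ∧ (x : ℝ) ≤ R K ∧
      ε * (Nat.primeCounting x : ℝ) < |(cT T (b * (a : ℤ) ^ k + c) x : ℝ) -
        L * (Nat.primeCounting x : ℝ)|)).card : ℝ) ≤ η * N K := by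
  obtain ⟨X₁, h1⟩ := hH (ε / 4) (by positivity) η hη
  have h2 : ∀ᶠ x : ℕ in atTop, |(∑ p ∈ PY x, dens p (T p)) / (Nat.primeCounting x : ℝ) - L| ≤ ε / 2 := by
    have := (tendsto_order.1 ((hlim.sub_const L).abs)).2 (ε / 2) (by simp; positivity)
    filter_upwards [this] with x hx
    exact hx.le
  obtain ⟨X₂, h3⟩ := eventually_atTop.1 (h2.and (pi_lower.and (eventually_ge_atTop 2)))
  refine ⟨max X₁ X₂, fun K => le_trans ?_ (h1 T hT K)⟩
  have hsub : (E K).filter (fun k => ∃ x : ℕ, max X₁ X₂ ≤ x ∧ (x : ℝ) ≤ R K ∧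
      ε * (Nat.primeCounting x : ℝ) < |(cT T (b * (a : ℤ) ^ k + c) x : ℝ) -
        L * (Nat.primeCounting x : ℝ)|) ⊆
      (E K).filter (fun k => ∃ x : ℕ, X₁ ≤ x ∧ (x : ℝ) ≤ R K ∧
      ε / 4 * (x / Real.log x) < |∑ p ∈ PY x, Rt T a b c p k|) := by
    intro k hk
    rw [mem_filter] at hk
    obtain ⟨hkE, x, hx1, hx2, hx3⟩ := hk
    rw [mem_filter]
    refine ⟨hkE, x, (le_max_left _ _).trans hx1, hx2, ?_⟩
    obtain ⟨g1, g2, g3⟩ := h3 x ((le_max_right _ _).trans hx1)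
    rw [sum_Rt]
    obtain ⟨π, hπ⟩ : ∃ π : ℝ, π = (Nat.primeCounting x : ℝ) := ⟨_, rfl⟩
    obtain ⟨S, hS⟩ : ∃ S : ℝ, S = ∑ p ∈ PY x, dens p (T p) := ⟨_, rfl⟩
    rw [← hπ] at g1 g2 hx3
    rw [← hS] at g1 ⊢
    have hxr : (2 : ℝ) ≤ x := by exact_mod_cast g3
    have hlx : 0 < Real.log x := Real.log_pos (by linarith)
    have hπ0 : 0 < π := lt_of_lt_of_le (by positivity) g2
    have e1 : |S - L * π| ≤ ε / 2 * π := by
      have : S - L * π = (S / π - L) * π := by field_simp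
      rw [this, abs_mul, abs_of_pos hπ0]
      gcongr
    have e2 : ε / 4 * (x / Real.log x) ≤ ε / 2 * π := by
      have : (x : ℝ) / Real.log x = 2 * (x / (2 * Real.log x)) := by field_simp
      rw [this]
      nlinarith
    have e3 := abs_add_le ((cT T (b * (a : ℤ) ^ k + c) x : ℝ) - S) (S - L * π)
    have e4 : (cT T (b * (a : ℤ) ^ k + c) x : ℝ) - S + (S - L * π) =
        (cT T (b * (a : ℤ) ^ k + c) x : ℝ) - L * π := by ring
    rw [e4] at e3
    linarith
  exact_mod_cast card_le_card hsub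

open Classical in
theorem lim_TA (hH : Hyp a b c E N R) (B : ℤ) (e : ℕ) (he : e ≠ 0) (L : ℝ)
    (hlim : Tendsto (fun x : ℕ => EE B e x / (Nat.primeCounting x : ℝ)) atTop (𝓝 L))
    (ε : ℝ) (hε : 0 < ε) (η : ℝ) (hη : 0 < η) :
    ∃ X : ℕ, ∀ K : ℕ, (((E K).filter (fun k => ∃ x : ℕ, X ≤ x ∧ (x : ℝ) ≤ R K ∧
      ε * (Nat.primeCounting x : ℝ) < |(cnt (B * (b * (a : ℤ) ^ k + c) ^ e) x : ℝ) -
        L * (Nat.primeCounting x : ℝ)|)).card : ℝ) ≤ η * N K := by
  have h := lim_fam hH (TA B e) (adm_TA B e he) L (by simpa only [sum_dens_TA B e he] using hlim) ε hε η hη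
  simpa only [cT_TA] using h

/-- the conjectural density for integers with squarefree part `D` -/
noncomputable def dA (D : ℤ) : ℝ :=
  if D % 4 = 1 then
    (1 - ((ArithmeticFunction.moebius D.natAbs : ℤ) : ℝ) *
      ∏ q ∈ D.natAbs.primeFactors, (1 / ((q : ℝ) ^ 2 - (q : ℝ) - 1))) * artinC
  else artinC

open Classical in
/-- the formula with the correction factor for almost all members of the family -/
theorem final_fam (hH : Hyp a b c E N R) (hN : ∀ K, 0 ≤ N K) (ε η : ℝ) (hε : 0 < ε) (hη : 0 < η) :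
    (∃ X : ℕ, ∀ K : ℕ, (((E K).filter (fun k : ℕ =>
      ∃ D s : ℤ, Squarefree D ∧ s ≠ 0 ∧ b * (a : ℤ) ^ k + c = D * s ^ 2 ∧
        ∃ x : ℕ, X ≤ x ∧ (x : ℝ) ≤ R K ∧
          ε * (Nat.primeCounting x : ℝ) <
            |(cnt (b * (a : ℤ) ^ k + c) x : ℝ) - dA D * (Nat.primeCounting x : ℝ)|)).card : ℝ) ≤ η * N K) ∧
    ∀ D : ℤ, Squarefree D → D % 4 = 1 → D ≠ 1 → ∃ X : ℕ, ∀ K : ℕ,
      (((E K).filter (fun k : ℕ => ∃ x : ℕ, X ≤ x ∧ (x : ℝ) ≤ R K ∧
          ε * (Nat.primeCounting x : ℝ) <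
            |(cnt (D * (b * (a : ℤ) ^ k + c) ^ 2) x : ℝ) - dA D * (Nat.primeCounting x : ℝ)|)).card : ℝ) ≤
        η * N K := by
  have hA0 : 0 < artinC := artinC_pos
  obtain ⟨A, hA⟩ : ∃ A, A = artinC := ⟨_, rfl⟩
  rw [← hA] at hA0
  constructor
  · obtain ⟨M, hM⟩ : ∃ M : ℕ, M = ⌈2 * A / ε⌉₊ + 1 := ⟨_, rfl⟩
    have hMr : 2 * A / ε < M := by
      rw [hM]; push_cast
      have := Nat.le_ceil (2 * A / ε)
      linarith
    obtain ⟨XA, hXA⟩ := lim_TA hH 1 1 one_ne_zero artinC (EE_one_lim 1 one_ne_zero)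
      (ε / 2) (by positivity) (η / 2) (by positivity)
    have hD : ∀ D : ℤ, ∃ X : ℕ, D ≠ 0 → ∀ K : ℕ, (((E K).filter (fun k => ∃ x : ℕ, X ≤ x ∧
        (x : ℝ) ≤ R K ∧ A / 2 * (Nat.primeCounting x : ℝ) <
          |(cnt (D * (b * (a : ℤ) ^ k + c) ^ 1) x : ℝ) - artinC * (Nat.primeCounting x : ℝ)|)).card : ℝ) ≤
          η / (2 * (2 * M + 1)) * N K := by
      intro D
      by_cases h : D = 0
      · exact ⟨0, fun h' => absurd h h'⟩
      · obtain ⟨X, hX⟩ := lim_TA hH D 1 one_ne_zero artinC (EE_one_lim D h)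
          (A / 2) (by positivity) (η / (2 * (2 * M + 1))) (by positivity)
        exact ⟨X, fun _ => hX⟩
    choose XD hXD using hD
    obtain ⟨X3, hX3⟩ := eventually_atTop.1 (Pool.Agent.N430.AD.pc_top.eventually_gt_atTop (2 / A))
    obtain ⟨S, hS⟩ : ∃ S : Finset ℤ, S = (Icc (-(M : ℤ)) M).filter (fun D => D ≠ 0) := ⟨_, rfl⟩
    refine ⟨max XA (max X3 (S.sup XD)), fun K => ?_⟩
    have hN0 := hN K
    obtain ⟨F, hF⟩ : ∃ F : ℤ → Finset ℕ, F = fun D => (E K).filter (fun k => ∃ x : ℕ, XD D ≤ x ∧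
        (x : ℝ) ≤ R K ∧ A / 2 * (Nat.primeCounting x : ℝ) <
          |(cnt (D * (b * (a : ℤ) ^ k + c) ^ 1) x : ℝ) - artinC * (Nat.primeCounting x : ℝ)|) := ⟨_, rfl⟩
    have hsub : (E K).filter (fun k : ℕ =>
        ∃ D s : ℤ, Squarefree D ∧ s ≠ 0 ∧ b * (a : ℤ) ^ k + c = D * s ^ 2 ∧
        ∃ x : ℕ, max XA (max X3 (S.sup XD)) ≤ x ∧ (x : ℝ) ≤ R K ∧
          ε * (Nat.primeCounting x : ℝ) <
            |(cnt (b * (a : ℤ) ^ k + c) x : ℝ) - dA D * (Nat.primeCounting x : ℝ)|) ⊆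
        ((E K).filter (fun k => ∃ x : ℕ, XA ≤ x ∧ (x : ℝ) ≤ R K ∧
          ε / 2 * (Nat.primeCounting x : ℝ) < |(cnt (1 * (b * (a : ℤ) ^ k + c) ^ 1) x : ℝ) -
            artinC * (Nat.primeCounting x : ℝ)|)) ∪ S.biUnion F := by
      intro k hk
      rw [mem_filter] at hk
      obtain ⟨hkK, D, s, hDs, hs0, hn, x, hx1, hx2, hx3⟩ := hk
      have hx1A : XA ≤ x := (le_max_left _ _).trans hx1
      have hx13 : X3 ≤ x := (le_max_left _ _).trans ((le_max_right _ _).trans hx1)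
      have hx1S : S.sup XD ≤ x := (le_max_right _ _).trans ((le_max_right _ _).trans hx1)
      have hπ := hX3 x hx13
      obtain ⟨π, hπd⟩ : ∃ π : ℝ, π = (Nat.primeCounting x : ℝ) := ⟨_, rfl⟩
      rw [← hπd] at hx3 hπ
      have hπ0 : 0 < π := lt_trans (by positivity) hπ
      rw [mem_union]
      by_cases hkA : ε / 2 * π < |(cnt (1 * (b * (a : ℤ) ^ k + c) ^ 1) x : ℝ) - artinC * π|
      · left
        rw [mem_filter]
        exact ⟨hkK, x, hx1A, hx2, by rw [← hπd]; exact hkA⟩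
      right
      push Not at hkA
      rw [one_mul, pow_one, ← hA] at hkA
      have hdiff : ε / 2 < |dA D - A| := by
        have h1 := abs_add_le ((cnt (b * (a : ℤ) ^ k + c) x : ℝ) - A * π) ((A - dA D) * π)
        have h2 : (cnt (b * (a : ℤ) ^ k + c) x : ℝ) - A * π + (A - dA D) * π =
            (cnt (b * (a : ℤ) ^ k + c) x : ℝ) - dA D * π := by ring
        rw [h2, abs_mul, abs_of_pos hπ0, abs_sub_comm A (dA D)] at h1
        by_contra hcon
        push Not at hcon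
        nlinarith
      have hD4 : D % 4 = 1 := by
        by_contra h
        unfold dA at hdiff
        rw [if_neg h, hA, sub_self, abs_zero] at hdiff
        linarith
      have hclose := Pool.Agent.W171.EP.dl_close D hDs hD4
      have hartA : Pool.Agent.W171.EP.artA = A := by rw [hA]; rfl
      have hδ : dA D = Pool.Agent.W171.EP.dl D := by
        unfold dA Pool.Agent.W171.EP.dl
        rw [if_pos hD4]
        rfl
      rw [← hδ, hartA, abs_of_pos hA0] at hclose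
      have hD0 : D ≠ 0 := hDs.ne_zero
      have hDr : (0 : ℝ) < |(D : ℝ)| := by
        rw [abs_pos]; exact_mod_cast hD0
      have hDM : |(D : ℝ)| < M := by
        have h1 : ε / 2 < A / |(D : ℝ)| := lt_of_lt_of_le hdiff hclose
        rw [lt_div_iff₀ hDr] at h1
        have h2 : |(D : ℝ)| < 2 * A / ε := by
          rw [lt_div_iff₀ hε]; linarith
        linarith
      have hDM' : |D| < (M : ℤ) := by exact_mod_cast hDM
      rw [abs_lt] at hDM'
      have hDS : D ∈ S := by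
        rw [hS, mem_filter, mem_Icc]
        exact ⟨⟨by omega, by omega⟩, hD0⟩
      rw [mem_biUnion]
      refine ⟨D, hDS, ?_⟩
      rw [hF]
      beta_reduce
      rw [mem_filter]
      refine ⟨hkK, x, (Finset.le_sup (f := XD) hDS).trans hx1S, hx2, ?_⟩
      rw [← hπd]
      have hsq : D * (b * (a : ℤ) ^ k + c) ^ 1 = (D * s) ^ 2 := by
        rw [pow_one, hn]; ring
      rw [hsq]
      have hc1 : (cnt ((D * s) ^ 2) x : ℝ) ≤ 1 := by exact_mod_cast cnt_sq (D * s) x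
      have h3 : 1 < A / 2 * π := by
        rw [div_lt_iff₀ hA0] at hπ
        linarith
      rw [← hA, abs_sub_comm]
      refine lt_of_lt_of_le ?_ (le_abs_self _)
      linarith
    have hSc : (S.card : ℝ) ≤ 2 * M + 1 := by
      have : S.card ≤ 2 * M + 1 := by
        rw [hS]
        refine (card_filter_le _ _).trans ?_
        rw [Int.card_Icc]
        omega
      exact_mod_cast this
    calc _ ≤ ((((E K).filter (fun k => ∃ x : ℕ, XA ≤ x ∧ (x : ℝ) ≤ R K ∧
          ε / 2 * (Nat.primeCounting x : ℝ) < |(cnt (1 * (b * (a : ℤ) ^ k + c) ^ 1) x : ℝ) -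
            artinC * (Nat.primeCounting x : ℝ)|)).card + ∑ D ∈ S, (F D).card : ℕ) : ℝ) := by
          exact_mod_cast (card_le_card hsub).trans ((card_union_le _ _).trans
            (Nat.add_le_add_left card_biUnion_le _))
      _ ≤ η / 2 * N K + ∑ D ∈ S, η / (2 * (2 * M + 1)) * N K := by
          push_cast
          refine add_le_add (hXA K) (sum_le_sum fun D hDS => ?_)
          rw [hS, mem_filter] at hDS
          rw [hF]
          exact hXD D hDS.2 K
      _ = η / 2 * N K + S.card * (η / (2 * (2 * M + 1)) * N K) := by rw [sum_const, nsmul_eq_mul]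
      _ ≤ η / 2 * N K + (2 * M + 1) * (η / (2 * (2 * M + 1)) * N K) := by gcongr
      _ = η * N K := by field_simp; ring
  · intro D hD hD4 hD1
    have hlim := EE_lim D hD hD4 hD1
    obtain ⟨X, hX⟩ := lim_TA hH D 2 two_ne_zero (Pool.Agent.H730R2.AA.dens D) hlim ε hε η hη
    refine ⟨X, fun K => ?_⟩
    have hδ : dA D = Pool.Agent.H730R2.AA.dens D := by
      unfold dA Pool.Agent.H730R2.AA.dens
      rw [if_pos hD4]
      rfl
    rw [hδ]
    exact hX K

end

end Pool.Agent.U376.AG
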