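import Mathlib
import Pool.Agent.U376.AG.FinG

set_option autoImplicit false

/-! All exponents. -/

namespace Pool.Agent.U376.AG

open Finset Filter Topology
open Pool.Agent.U376.AK (hit hit_nonneg hit_le PY mem_PY GoodP good_density ev_log ev_pow pair_sum' hit_sum)

open Classical in
theorem cheb_all (a : ℕ) (b c : ℤ) (θ : ℝ) (hθ0 : 0 < θ) (hθ : θ < 1) : ∃ Y₁ : ℕ,
    ∀ y K : ℕ, Y₁ ≤ y → (y : ℝ) ≤ (K : ℝ) ^ θ → ∀ T : ∀ p : ℕ, ZMod p → Prop, Adm T → ∀ δ : ℝ, 0 < δ →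
      (((range (K + 1)).filter (fun k => δ * (y / Real.log y) <
        |∑ p ∈ GoodP a (b * c) 10 y, Rt T a b c p k|)).card : ℝ) ≤
          4 * ((K + 1 : ℕ) : ℝ) / (δ ^ 2 * Real.log y ^ 8) := by
  have hr : 0 < 1 / θ - 1 := by
    rw [sub_pos, lt_div_iff₀ hθ0]; linarith
  have hlogt : Tendsto (fun y : ℕ => Real.log (y : ℝ)) atTop atTop :=
    Real.tendsto_log_atTop.comp tendsto_natCast_atTop_atTop
  obtain ⟨Y, hY⟩ := eventually_atTop.1 (((ev_log 6 12).and (ev_log 20 10)).and ((ev_pow 20 _ hr).and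
    ((hlogt.eventually_ge_atTop 10).and (eventually_ge_atTop 3))))
  refine ⟨Y, fun y K' hy hK' T hT δ hδ => ?_⟩
  obtain ⟨⟨e1, e0⟩, e2, e3, e4⟩ := hY y hy
  obtain ⟨K, hK⟩ : ∃ K, K = K' + 1 := ⟨_, rfl⟩
  rw [← hK]
  obtain ⟨l, hl⟩ : ∃ l, l = Real.log (y : ℝ) := ⟨_, rfl⟩
  obtain ⟨s, hs⟩ : ∃ s, s = √(y : ℝ) := ⟨_, rfl⟩
  have hyr : (3 : ℝ) ≤ y := by exact_mod_cast e4
  have hss : s * s = y := by rw [hs]; exact Real.mul_self_sqrt (by linarith)
  have hs0 : 0 < s := by rw [hs]; exact Real.sqrt_pos.2 (by linarith)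
  have hl10' : 10 ≤ l := by rw [hl]; exact e3
  have hl0 : 0 < l := by linarith
  have hl1 : 1 ≤ l := by linarith
  have hK0 : (0 : ℝ) ≤ K := Nat.cast_nonneg K
  have e0' : 20 * l ^ 10 ≤ s := by rw [hl, hs]; exact e0
  -- K is large
  have hKy : (y : ℝ) * l ^ 20 ≤ K := by
    have f1 : (y : ℝ) ^ (1 / θ) ≤ ((K' : ℝ) ^ θ) ^ (1 / θ) :=
      Real.rpow_le_rpow (by linarith) hK' (by positivity)
    rw [← Real.rpow_mul (Nat.cast_nonneg K'), mul_one_div_cancel hθ0.ne', Real.rpow_one] at f1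
    have f3 : (K' : ℝ) ≤ K := by rw [hK]; push_cast; linarith
    refine le_trans ?_ (f1.trans f3)
    have f2 : (y : ℝ) ^ (1 / θ) = (y : ℝ) * (y : ℝ) ^ (1 / θ - 1) := by
      rw [Real.rpow_sub_one (by linarith)]
      field_simp
    rw [f2]
    rw [← hl] at e2
    gcongr
  have hs1 : 1 ≤ s := by
    have : 1 ≤ l ^ 10 := one_le_pow₀ hl1
    linarith
  have hQmem : ∀ p ∈ GoodP a (b * c) 10 y, p.Prime ∧ p ≤ y ∧ ¬ p ∣ a ∧ ¬ (p : ℤ) ∣ b * c ∧
      ((p - 1).divisors.card : ℝ) ≤ l ^ 3 ∧ s * l ^ 10 ≤ orderOf (a : ZMod p) := by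
    intro p hp
    rw [GoodP, mem_filter, mem_PY, ← hl, ← hs] at hp
    exact ⟨hp.1.1, hp.1.2, hp.2.1, hp.2.2.1, hp.2.2.2.1, hp.2.2.2.2⟩
  have hsec := secondG (E := range K) (Q := GoodP a (b * c) 10 y) hT a b c y e4
    (by rw [GoodP]; exact filter_subset _ _) (3 * l * y) (K / s + 1) (by positivity) (by positivity)
    (fun p hp => by rw [← hl]; exact (hQmem p hp).2.2.2.2.1)
    (by
      intro p hp
      obtain ⟨hp1, hp2, hp3, hp4, hp5, hp6⟩ := hQmem p hp
      have : Fact p.Prime := ⟨hp1⟩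
      have h1 := hit_sum a b c p K hp3 (fun h => hp4 (h.mul_right c))
      refine h1.trans ?_
      have : s ≤ orderOf (a : ZMod p) := by
        refine le_trans ?_ hp6
        exact le_mul_of_one_le_right hs0.le (one_le_pow₀ hl1)
      gcongr)
    (by
      intro p hp q hq hpq χ φ hχ hφ
      obtain ⟨hp1, hp2, hp3, hp4, hp5, hp6⟩ := hQmem p hp
      obtain ⟨hq1, hq2, hq3, hq4, hq5, hq6⟩ := hQmem q hq
      have : Fact p.Prime := ⟨hp1⟩
      have : Fact q.Prime := ⟨hq1⟩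
      have hap : (a : ZMod p) ≠ 0 := by rwa [Ne, ZMod.natCast_eq_zero_iff]
      have haq : (a : ZMod q) ≠ 0 := by rwa [Ne, ZMod.natCast_eq_zero_iff]
      obtain ⟨α, hα⟩ : IsUnit (a : ZMod p) := by rwa [isUnit_iff_ne_zero]
      obtain ⟨γ, hγ⟩ : IsUnit (a : ZMod q) := by rwa [isUnit_iff_ne_zero]
      obtain ⟨t, ht⟩ : ∃ t, t = orderOf (a : ZMod p) := ⟨_, rfl⟩
      obtain ⟨u, hu⟩ : ∃ u, u = orderOf (a : ZMod q) := ⟨_, rfl⟩
      rw [← ht] at hp6
      rw [← hu] at hq6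
      have hsl : 0 < s * l ^ 10 := by positivity
      have ht0 : (0 : ℝ) < t := lt_of_lt_of_le hsl hp6
      have hu0 : (0 : ℝ) < u := lt_of_lt_of_le hsl hq6
      have ht0' : 0 < t := by exact_mod_cast ht0
      have hu0' : 0 < u := by exact_mod_cast hu0
      have htd : t ∣ p - 1 := by rw [ht]; exact ZMod.orderOf_dvd_card_sub_one hap
      have hud : u ∣ q - 1 := by rw [hu]; exact ZMod.orderOf_dvd_card_sub_one haq
      have hp1' := hp1.two_le
      have hq1' := hq1.two_le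
      have htp : t ≤ y := (Nat.le_of_dvd (by omega) htd).trans (by omega)
      have huq : u ≤ y := (Nat.le_of_dvd (by omega) hud).trans (by omega)
      have hg : Nat.gcd t u ∣ Nat.gcd (p - 1) (q - 1) :=
        Nat.dvd_gcd ((Nat.gcd_dvd_left t u).trans htd) ((Nat.gcd_dvd_right t u).trans hud)
      have hg0 : 0 < Nat.gcd (p - 1) (q - 1) := Nat.gcd_pos_of_pos_left _ (by omega)
      have hgle := Nat.le_of_dvd hg0 hg
      obtain ⟨g, hgdef⟩ : ∃ g, g = Nat.gcd (p - 1) (q - 1) := ⟨_, rfl⟩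
      rw [← hgdef] at hg0 hgle ⊢
      obtain ⟨m, hm⟩ : ∃ m, m = Nat.lcm t u := ⟨_, rfl⟩
      have hm0 : 0 < m := by rw [hm]; exact Nat.lcm_pos ht0' hu0'
      have hgl : t * u ≤ g * m := by
        rw [← Nat.gcd_mul_lcm t u, ← hm]
        exact Nat.mul_le_mul_right m hgle
      have hmle : m ≤ y ^ 2 := by
        have : m ≤ t * u := by
          rw [hm]; exact Nat.le_of_dvd (Nat.mul_pos ht0' hu0') (Nat.lcm_dvd (dvd_mul_right t u) (dvd_mul_left u t))
        calc m ≤ t * u := this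
          _ ≤ y * y := Nat.mul_le_mul htp huq
          _ = y ^ 2 := by ring
      have hmα : m = Nat.lcm (orderOf α) (orderOf γ) := by
        rw [hm, ht, hu, ← hα, ← hγ, orderOf_units, orderOf_units]
      have hb1 : (b : ZMod p) ≠ 0 := by
        rw [Ne, ZMod.intCast_zmod_eq_zero_iff_dvd]; exact fun h => hp4 (h.mul_right c)
      have hb2 : (b : ZMod q) ≠ 0 := by
        rw [Ne, ZMod.intCast_zmod_eq_zero_iff_dvd]; exact fun h => hq4 (h.mul_right c)
      have hc1 : (c : ZMod p) ≠ 0 := by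
        rw [Ne, ZMod.intCast_zmod_eq_zero_iff_dvd]; exact fun h => hp4 (h.mul_left b)
      have hc2 : (c : ZMod q) ≠ 0 := by
        rw [Ne, ZMod.intCast_zmod_eq_zero_iff_dvd]; exact fun h => hq4 (h.mul_left b)
      have h2 : ‖∑ k ∈ range K, χ ((b : ZMod p) * (a : ZMod p) ^ k + (c : ZMod p)) *
          φ ((b : ZMod q) * (a : ZMod q) ^ k + (c : ZMod q))‖ ≤
          (K / m + 1 + Real.log m) * (√(p : ℝ) * √(q : ℝ)) := by
        have hh := pair_sum' α γ m K hmα ((b : ZMod p)⁻¹ * (c : ZMod p)) ((b : ZMod q)⁻¹ * (c : ZMod q))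
          (mul_ne_zero (inv_ne_zero hb1) hc1) (mul_ne_zero (inv_ne_zero hb2) hc2) χ φ hχ hφ
        refine le_trans (le_of_eq_of_le ?_ (mul_le_of_le_one_left (norm_nonneg _)
            (show ‖χ (b : ZMod p) * φ (b : ZMod q)‖ ≤ 1 from ?_))) hh
        · rw [← norm_mul, mul_sum]
          congr 1
          refine sum_congr rfl fun k _ => ?_
          rw [← hα, ← hγ]
          have r1 : (b : ZMod p) * (α : ZMod p) ^ k + (c : ZMod p) =
              (b : ZMod p) * ((α : ZMod p) ^ k + (b : ZMod p)⁻¹ * (c : ZMod p)) := by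
            field_simp
          have r2 : (b : ZMod q) * (γ : ZMod q) ^ k + (c : ZMod q) =
              (b : ZMod q) * ((γ : ZMod q) ^ k + (b : ZMod q)⁻¹ * (c : ZMod q)) := by
            field_simp
          rw [r1, r2, map_mul, map_mul]
          ring
        · rw [norm_mul]
          calc _ ≤ (1 : ℝ) * 1 := mul_le_mul (DirichletCharacter.norm_le_one χ _)
                (DirichletCharacter.norm_le_one φ _) (norm_nonneg _) zero_le_one
            _ = 1 := one_mul 1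
      rw [← hl, card_range]
      refine h2.trans ?_
      have hgr : (0 : ℝ) < g := by exact_mod_cast hg0
      have hmr : (0 : ℝ) < m := by exact_mod_cast hm0
      have hglr : (t : ℝ) * u ≤ g * m := by exact_mod_cast hgl
      have hpq2 : √(p : ℝ) * √(q : ℝ) ≤ y := by
        rw [← hss, hs]
        have e1 : √(p : ℝ) ≤ √(y : ℝ) := Real.sqrt_le_sqrt (by exact_mod_cast hp2)
        have e2 : √(q : ℝ) ≤ √(y : ℝ) := Real.sqrt_le_sqrt (by exact_mod_cast hq2)
        gcongr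
      have m1 : K / (m : ℝ) * (√(p : ℝ) * √(q : ℝ)) ≤ K * g / l ^ 20 := by
        have e1 : (y : ℝ) * l ^ 20 ≤ g * m := by
          calc (y : ℝ) * l ^ 20 = (s * l ^ 10) * (s * l ^ 10) := by rw [← hss]; ring
            _ ≤ (t : ℝ) * u := by gcongr
            _ ≤ _ := hglr
        calc K / (m : ℝ) * (√(p : ℝ) * √(q : ℝ)) ≤ K / (m : ℝ) * y := by gcongr
          _ = K * (y / m) := by ring
          _ ≤ K * (g / l ^ 20) := by
              apply mul_le_mul_of_nonneg_left _ hK0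
              rw [div_le_div_iff₀ hmr (by positivity)]
              exact e1
          _ = K * g / l ^ 20 := by ring
      have m4 : (m : ℝ) ≤ (y : ℝ) ^ 2 := by exact_mod_cast hmle
      have m4' : Real.log m ≤ 2 * l := by
        have := Real.log_le_log hmr m4
        rw [Real.log_pow, ← hl] at this
        push_cast at this
        exact this
      have m4'' : 0 ≤ Real.log (m : ℝ) := Real.log_natCast_nonneg m
      have e1 : (K / (m : ℝ) + 1 + Real.log m) * (√(p : ℝ) * √(q : ℝ)) =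
            K / (m : ℝ) * (√(p : ℝ) * √(q : ℝ)) + (1 + Real.log m) * (√(p : ℝ) * √(q : ℝ)) := by ring
      have e2 : (1 + Real.log m) * (√(p : ℝ) * √(q : ℝ)) ≤ (3 * l) * y := by
        have : 1 + Real.log m ≤ 3 * l := by linarith
        gcongr
      linarith)
  rw [card_range, ← hl] at hsec
  refine chebG a b c y e4 (range K) (GoodP a (b * c) 10 y) K hK0 (3 * l * y) (K / s + 1)
    (by rw [← hl]; linarith) e1 ?_ ?_ (by rw [card_range]) (by rw [← hl]; exact hsec) δ hδ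
  · rw [← hl]
    have h1 : 6 * l ^ 17 ≤ l ^ 20 := by
      have h2 : (10 : ℝ) ^ 3 ≤ l ^ 3 := pow_le_pow_left₀ (by norm_num) hl10' 3
      calc 6 * l ^ 17 ≤ l ^ 3 * l ^ 17 := by
            have : 0 < l ^ 17 := by positivity
            nlinarith
        _ = l ^ 20 := by ring
    have h3 : (y : ℝ) * (6 * l ^ 17) ≤ K := le_trans (by gcongr) hKy
    have h4 : 3 * l * (y : ℝ) * l ^ 16 = (y : ℝ) * (6 * l ^ 17) / 2 := by ring
    rw [h4]
    linarith
  · rw [← hl]
    have h1 : s ≤ K := by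
      have h2 : 1 ≤ l ^ 20 := one_le_pow₀ hl1
      have h3 : s ≤ (y : ℝ) := by rw [← hss]; nlinarith
      nlinarith
    have h2 : 1 ≤ (K : ℝ) / s := by rw [le_div_iff₀ hs0]; linarith
    have h3 : (K : ℝ) / s * (20 * l ^ 10) ≤ K := by
      rw [div_mul_eq_mul_div, div_le_iff₀ hs0]
      gcongr
    calc (K / s + 1) * l ^ 10 ≤ (K / s + K / s) * l ^ 10 := by gcongr
      _ = (K / s * (20 * l ^ 10)) / 10 := by ring
      _ ≤ K / 6 := by linarith

open Classical in
/-- all exponents -/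
theorem hyp_all (a : ℕ) (b c : ℤ) (ha : 2 ≤ a) (hb : b ≠ 0) (hc : c ≠ 0) (θ : ℝ) (hθ0 : 0 < θ) (hθ : θ < 1) :
    Hyp a b c (fun K => range (K + 1)) (fun K => ((K + 1 : ℕ) : ℝ)) (fun K => (K : ℝ) ^ θ) := by
  intro ε hε η hη
  obtain ⟨Y₁, hY₁⟩ := cheb_all a b c θ hθ0 hθ
  exact mainG 10 (by norm_num) a b c ha hb hc _ _ (fun K => Nat.cast_nonneg _) _ Y₁ hY₁ ε hε η hη

end Pool.Agent.U376.AG
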