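import Mathlib
import Pool.Agent.U376.AG.FinG
import Pool.Agent.TH893.JO.Len
import Pool.Agent.W171.LG.LenMain

set_option autoImplicit false

/-! Lenstra's condition, abstract families of exponents. -/

namespace Pool.Agent.U376.AG

open Finset Filter Topology NumberField
open Pool.Agent.U376.AK (PY mem_PY PY_eq)
open Pool.Agent.TH890.AS (Rep dens dens_nonneg dens_le_one dens_eq)
open Pool.Agent.W171.LG (QA QR LC_iffR Un rd UnW PW GF rd_ne un_iff unW_iff IdxC LC DR gp_eqR gT Tp gd aT lim_len exists_unW)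
open Pool.Agent.TH893.JO (rep_QR dens_QR LL PD)
open Pool.Agent.H981R3.LN (ql Sk)
open Pool.Agent.H386R2.Artin.SH (pi_lower)
open Pool.Agent.W401.Cheb (M)

/-- Lenstra's condition in a set of primes -/
def TL (F : IntermediateField ℚ QA) [NumberField F] (C : Set Gal(F/ℚ)) (W0 : Subgroup ℚˣ) (k : ℕ) (D : ℚˣ)
    (r : ℕ) (S : Set ℕ) : ∀ p : ℕ, ZMod p → Prop := fun p x => p ∈ S ∧ QR F C W0 k D r p x

lemma adm_TL (F : IntermediateField ℚ QA) [NumberField F] [IsGalois ℚ F] (C : Set Gal(F/ℚ)) (W0 : Subgroup ℚˣ) (k : ℕ)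
    (D : ℚˣ) (r : ℕ) (hr : r ≠ 0) (S : Set ℕ) : Adm (TL F C W0 k D r S) := by
  classical
  intro p hp
  refine ⟨fun h => h.2.2.2.2.1 rfl, ?_⟩
  by_cases hS : p ∈ S
  · have h := rep_QR F C W0 k D r (p := p) hr
    convert h using 2
    rename_i x
    by_cases h1 : QR F C W0 k D r p x <;> simp [TL, hS, h1]
  · refine ⟨fun _ => 0, by simp, fun x => ?_⟩
    have : ¬ TL F C W0 k D r S p x := fun h => hS h.1
    simp [this]

open Classical in
lemma dens_TL (F : IntermediateField ℚ QA) [NumberField F] (C : Set Gal(F/ℚ)) (W0 : Subgroup ℚˣ) (k : ℕ)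
    (D : ℚˣ) (r : ℕ) (S : Set ℕ) (p : ℕ) [Fact p.Prime] :
    dens p (TL F C W0 k D r S p) = if p ∈ S then dens p (QR F C W0 k D r p) else 0 := by
  split_ifs with h
  · congr 1
    funext x
    simp [TL, h]
  · rw [dens_eq]
    have : (univ : Finset (ZMod p)).filter (TL F C W0 k D r S p) = ∅ := by
      rw [filter_eq_empty_iff]
      exact fun x _ hx => h hx.1
    rw [this, card_empty, Nat.cast_zero, zero_div]

section
variable {a : ℕ} {b c : ℤ} {E : ℕ → Finset ℕ} {N : ℕ → ℝ} {R : ℕ → ℝ}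

open Classical in
/-- Lenstra's condition in arbitrary sets of primes -/
theorem len_fam (hH : Hyp a b c E N R) (ε η : ℝ) (hε : 0 < ε) (hη : 0 < η) :
    ∃ X : ℕ, ∀ (F : IntermediateField ℚ QA) [NumberField F] [IsGalois ℚ F] (C : Set Gal(F/ℚ))
      (W0 : Subgroup ℚˣ) (k : ℕ) (D : ℚˣ) (r : ℕ) (S : Set ℕ), k ≠ 0 → r ≠ 0 →
      (∀ p ∈ S, padicValRat p (D : ℚ) = 0) → ∀ K : ℕ,
      (((E K).filter (fun m => ∃ n : ℕ, n ≠ 0 ∧ (n : ℤ) = b * (a : ℤ) ^ m + c ∧ ∃ x : ℕ, X ≤ x ∧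
        (x : ℝ) ≤ R K ∧ ε * (Nat.primeCounting x : ℝ) <
        |(((PY x).filter (fun p => p ∈ S ∧ LC F C k
          (W0 ⊔ Subgroup.closure {w : ℚˣ | (w : ℚ) = (D : ℚ) * (n : ℚ) ^ r}) p)).card : ℝ) -
          ∑ p ∈ (PY x).filter (fun p => p ∈ S), dens p (QR F C W0 k D r p)|)).card : ℝ) ≤ η * N K := by
  obtain ⟨X₁, h1⟩ := hH (ε / 4) (by positivity) η hη
  obtain ⟨X₂, h3⟩ := eventually_atTop.1 (pi_lower.and (eventually_ge_atTop 2))
  refine ⟨max X₁ X₂, fun F _ _ C W0 k D r S hk hr hD K => le_trans ?_ (h1 _ (adm_TL F C W0 k D r hr S) K)⟩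
  have hsub : (E K).filter (fun m => ∃ n : ℕ, n ≠ 0 ∧ (n : ℤ) = b * (a : ℤ) ^ m + c ∧ ∃ x : ℕ,
        max X₁ X₂ ≤ x ∧
        (x : ℝ) ≤ R K ∧ ε * (Nat.primeCounting x : ℝ) <
        |(((PY x).filter (fun p => p ∈ S ∧ LC F C k
          (W0 ⊔ Subgroup.closure {w : ℚˣ | (w : ℚ) = (D : ℚ) * (n : ℚ) ^ r}) p)).card : ℝ) -
          ∑ p ∈ (PY x).filter (fun p => p ∈ S), dens p (QR F C W0 k D r p)|) ⊆
      (E K).filter (fun m => ∃ x : ℕ, X₁ ≤ x ∧ (x : ℝ) ≤ R K ∧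
      ε / 4 * (x / Real.log x) < |∑ p ∈ PY x, Rt (TL F C W0 k D r S) a b c p m|) := by
    intro m hm
    rw [mem_filter] at hm
    obtain ⟨hmE, n, hn0, hn, x, hx1, hx2, hx3⟩ := hm
    rw [mem_filter]
    refine ⟨hmE, x, (le_max_left _ _).trans hx1, hx2, ?_⟩
    obtain ⟨g2, g3⟩ := h3 x ((le_max_right _ _).trans hx1)
    have hxr : (2 : ℝ) ≤ x := by exact_mod_cast g3
    have hlx : 0 < Real.log x := Real.log_pos (by linarith)
    rw [sum_Rt]
    have e1 : cT (TL F C W0 k D r S) (b * (a : ℤ) ^ m + c) x = ((PY x).filter (fun p => p ∈ S ∧ LC F C k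
          (W0 ⊔ Subgroup.closure {w : ℚˣ | (w : ℚ) = (D : ℚ) * (n : ℚ) ^ r}) p)).card := by
      unfold cT
      apply congrArg
      ext p
      simp only [mem_filter]
      refine and_congr_right fun hp => ?_
      have hpp := (mem_PY.1 hp).1
      have : Fact p.Prime := ⟨hpp⟩
      unfold TL
      refine and_congr_right fun hpS => ?_
      rw [gp_eqR W0 D r hn0]
      have h5 := LC_iffR F C W0 k D r hk hr hpp ((un_iff D.ne_zero).2 (hD p hpS)) hn0
      rw [h5, ← hn]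
      simp
    have e2 : ∑ p ∈ PY x, dens p (TL F C W0 k D r S p) =
        ∑ p ∈ (PY x).filter (fun p => p ∈ S), dens p (QR F C W0 k D r p) := by
      rw [sum_filter]
      refine sum_congr rfl fun p hp => ?_
      have : Fact p.Prime := ⟨(mem_PY.1 hp).1⟩
      exact dens_TL F C W0 k D r S p
    rw [e1, e2]
    refine lt_of_le_of_lt ?_ hx3
    have : (x : ℝ) / Real.log x = 2 * (x / (2 * Real.log x)) := by field_simp
    rw [this]
    nlinarith
  exact_mod_cast card_le_card hsub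

end

section
variable (F : IntermediateField ℚ QA) [NumberField F] [IsGalois ℚ F] (C : Set Gal(F/ℚ))
  (W0 : Subgroup ℚˣ) (k : ℕ) (D : ℚˣ)

open Classical in
/-- the local densities for `r = 1` have the mean value given by Lenstra's series -/
theorem lim_dens (hC : ∀ σ ∈ C, ∀ τ : Gal(F/ℚ), τ * σ * τ⁻¹ ∈ C) (hW0 : W0.FG) :
    Tendsto (fun x : ℕ => (∑ p ∈ PY x, dens p (QR F C W0 k D 1 p)) / (Nat.primeCounting x : ℝ)) atTop
      (𝓝 (∑' n : ℕ, aT F C W0 k n)) := by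
  have h := lim_len F C k hC hW0
  obtain ⟨E, hE, hU⟩ := exists_unW hW0
  have hDf : (Subgroup.zpowers D).FG := ⟨{D}, by simp [Subgroup.zpowers_eq_closure]⟩
  obtain ⟨E', hE', hU'⟩ := exists_unW hDf
  obtain ⟨f, hf⟩ : ∃ f : ℕ → ℝ, f = fun p => if gd F C ⊥ k ∅ p then gT k (Tp W0 k ∅ p) else 0 := ⟨_, rfl⟩
  rw [← hf] at h
  have hfb : ∀ p : ℕ, p.Prime → 0 ≤ f p ∧ f p ≤ 1 := by
    intro p hp
    have : Fact p.Prime := ⟨hp⟩
    rw [hf]
    beta_reduce
    split_ifs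
    · exact Pool.Agent.W171.LG.gT_bounds (p := p) (fun l hl => by
        unfold Tp at hl; exact (mem_filter.1 hl).1)
    · exact ⟨le_rfl, zero_le_one⟩
  have heq : ∀ p : ℕ, p.Prime → E + E' + 1 ≤ p → dens p (QR F C W0 k D 1 p) = f p := by
    intro p hp hpE
    have : Fact p.Prime := ⟨hp⟩
    have hW : UnW W0 p := hU p fun h => by
      have := Nat.le_of_dvd hE h
      omega
    have hDp : Un p (D : ℚ) := hU' p (fun h => by
      have := Nat.le_of_dvd hE' h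
      omega) D (Subgroup.mem_zpowers D)
    rw [dens_QR, hf]
    beta_reduce
    have hgd : gd F C ⊥ k ∅ p ↔ GF F C p := by
      unfold gd; simp
    have hTp : Tp W0 k ∅ p = LL W0 k p := by
      unfold Tp LL
      apply filter_congr
      intro l _
      simp
    by_cases hG : GF F C p
    · rw [if_pos ⟨hG, hW, hDp⟩, if_pos (hgd.2 hG), hTp]
      unfold gT
      refine prod_congr rfl fun l _ => ?_
      unfold PD
      rw [Nat.gcd_one_left, if_pos ⟨rd p (D : ℚ), pow_one _⟩]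
      simp
    · rw [if_neg (fun h => hG h.1), if_neg (fun h => hG (hgd.1 h))]
  have hdb : ∀ p : ℕ, p.Prime → 0 ≤ dens p (QR F C W0 k D 1 p) ∧ dens p (QR F C W0 k D 1 p) ≤ 1 := by
    intro p hp
    have : Fact p.Prime := ⟨hp⟩
    exact ⟨dens_nonneg _ _, dens_le_one _ (fun h => h.2.2.2.1 rfl)⟩
  have hpr : ∀ x : ℕ, Pool.Agent.W401.Cheb.pr x = PY x := by
    intro x
    rw [PY_eq]
    rfl
  have hdiff : ∀ x : ℕ, |∑ p ∈ PY x, dens p (QR F C W0 k D 1 p) - ∑ p ∈ PY x, f p| ≤ (E + E' + 1 : ℕ) := by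
    intro x
    rw [← sum_sub_distrib]
    refine (abs_sum_le_sum_abs _ _).trans ?_
    have h1 : ∀ p ∈ PY x, |dens p (QR F C W0 k D 1 p) - f p| ≤ if p ∈ range (E + E' + 1) then 1 else 0 := by
      intro p hp
      have hpp := (mem_PY.1 hp).1
      by_cases hpE : E + E' + 1 ≤ p
      · rw [heq p hpp hpE, sub_self, abs_zero]
        split_ifs <;> norm_num
      · rw [if_pos (mem_range.2 (by omega)), abs_le]
        obtain ⟨a1, a2⟩ := hfb p hpp
        obtain ⟨a3, a4⟩ := hdb p hpp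
        constructor <;> linarith
    refine (sum_le_sum h1).trans ?_
    rw [← sum_filter, sum_const, nsmul_eq_mul, mul_one]
    have h2 : ((PY x).filter (fun p => p ∈ range (E + E' + 1))).card ≤ E + E' + 1 := by
      calc _ ≤ (range (E + E' + 1)).card := card_le_card fun p hp => (mem_filter.1 hp).2
        _ = _ := card_range _
    exact_mod_cast h2
  have h2 : Tendsto (fun x : ℕ => (∑ p ∈ PY x, dens p (QR F C W0 k D 1 p) - ∑ p ∈ PY x, f p) /
      (Nat.primeCounting x : ℝ)) atTop (𝓝 0) := by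
    have h3 : Tendsto (fun x : ℕ => ((E + E' + 1 : ℕ) : ℝ) / (Nat.primeCounting x : ℝ)) atTop (𝓝 0) :=
      tendsto_const_nhds.div_atTop Pool.Agent.N430.AD.pc_top
    refine squeeze_zero_norm (fun x => ?_) h3
    rw [Real.norm_eq_abs, abs_div, abs_of_nonneg (show (0 : ℝ) ≤ Nat.primeCounting x from Nat.cast_nonneg _)]
    exact div_le_div_of_nonneg_right (hdiff x) (Nat.cast_nonneg _)
  have h4 := h.add h2
  rw [add_zero] at h4
  refine h4.congr fun x => ?_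
  unfold M
  rw [hpr]
  ring

end

section
variable {a : ℕ} {b c : ℤ} {E : ℕ → Finset ℕ} {N : ℕ → ℝ} {R : ℕ → ℝ}

open Classical in
/-- Lenstra's density for the groups `W₀ ⟨D n⟩` -/
theorem len_lim_fam (hH : Hyp a b c E N R) (ε η : ℝ) (hε : 0 < ε) (hη : 0 < η)
    (F : IntermediateField ℚ QA) [NumberField F] [IsGalois ℚ F] (C : Set Gal(F/ℚ))
    (W0 : Subgroup ℚˣ) (k : ℕ) (D : ℚˣ) (hk : k ≠ 0)
    (hC : ∀ σ ∈ C, ∀ τ : Gal(F/ℚ), τ * σ * τ⁻¹ ∈ C) (hW0 : W0.FG) :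
    ∃ X : ℕ, ∀ K : ℕ,
      (((E K).filter (fun m => ∃ n : ℕ, n ≠ 0 ∧ (n : ℤ) = b * (a : ℤ) ^ m + c ∧ ∃ x : ℕ, X ≤ x ∧
        (x : ℝ) ≤ R K ∧ ε * (Nat.primeCounting x : ℝ) <
        |(((PY x).filter (fun p => LC F C k
          (W0 ⊔ Subgroup.closure {w : ℚˣ | (w : ℚ) = (D : ℚ) * (n : ℚ) ^ 1}) p)).card : ℝ) -
          (∑' e : ℕ, aT F C W0 k e) * (Nat.primeCounting x : ℝ)|)).card : ℝ) ≤ η * N K := by
  obtain ⟨X₁, h1⟩ := len_fam hH (ε / 4) η (by positivity) hη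
  have hlim := lim_dens F C W0 k D hC hW0
  obtain ⟨A, hA⟩ : ∃ A, A = ∑' e : ℕ, aT F C W0 k e := ⟨_, rfl⟩
  rw [← hA] at hlim ⊢
  have hDf : (Subgroup.zpowers D).FG := ⟨{D}, by simp [Subgroup.zpowers_eq_closure]⟩
  obtain ⟨E', hE', hU'⟩ := exists_unW hDf
  have h2 : ∀ᶠ x : ℕ in atTop, |(∑ p ∈ PY x, dens p (QR F C W0 k D 1 p)) / (Nat.primeCounting x : ℝ) - A| ≤ ε / 4 := by
    have := (tendsto_order.1 ((hlim.sub_const A).abs)).2 (ε / 4) (by simp; positivity)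
    filter_upwards [this] with x hx
    exact hx.le
  obtain ⟨X₂, h3⟩ := eventually_atTop.1 (h2.and (Pool.Agent.N430.AD.pc_top.eventually_gt_atTop (4 * E' / ε)))
  obtain ⟨S, hS⟩ : ∃ S : Set ℕ, S = {p : ℕ | padicValRat p (D : ℚ) = 0} := ⟨_, rfl⟩
  refine ⟨max X₁ X₂, fun K => le_trans ?_ (h1 F C W0 k D 1 S hk one_ne_zero (fun p hp => by
    rw [hS] at hp; exact hp) K)⟩
  have hsub : (E K).filter (fun m => ∃ n : ℕ, n ≠ 0 ∧ (n : ℤ) = b * (a : ℤ) ^ m + c ∧ ∃ x : ℕ,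
        max X₁ X₂ ≤ x ∧ (x : ℝ) ≤ R K ∧ ε * (Nat.primeCounting x : ℝ) <
        |(((PY x).filter (fun p => LC F C k
          (W0 ⊔ Subgroup.closure {w : ℚˣ | (w : ℚ) = (D : ℚ) * (n : ℚ) ^ 1}) p)).card : ℝ) -
          A * (Nat.primeCounting x : ℝ)|) ⊆
      (E K).filter (fun m => ∃ n : ℕ, n ≠ 0 ∧ (n : ℤ) = b * (a : ℤ) ^ m + c ∧ ∃ x : ℕ, X₁ ≤ x ∧
        (x : ℝ) ≤ R K ∧ ε / 4 * (Nat.primeCounting x : ℝ) <
        |(((PY x).filter (fun p => p ∈ S ∧ LC F C k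
          (W0 ⊔ Subgroup.closure {w : ℚˣ | (w : ℚ) = (D : ℚ) * (n : ℚ) ^ 1}) p)).card : ℝ) -
          ∑ p ∈ (PY x).filter (fun p => p ∈ S), dens p (QR F C W0 k D 1 p)|) := by
    intro m hm
    rw [mem_filter] at hm ⊢
    obtain ⟨hmE, n, hn0, hn, x, hx1, hx2, hx3⟩ := hm
    refine ⟨hmE, n, hn0, hn, x, (le_max_left _ _).trans hx1, hx2, ?_⟩
    obtain ⟨g1, g2⟩ := h3 x ((le_max_right _ _).trans hx1)
    obtain ⟨π, hπ⟩ : ∃ π : ℝ, π = (Nat.primeCounting x : ℝ) := ⟨_, rfl⟩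
    rw [← hπ] at g1 g2 hx3 ⊢
    have hE0 : (0 : ℝ) < E' := by exact_mod_cast hE'
    have hπ0 : 0 < π := lt_trans (by positivity) g2
    obtain ⟨W, hW⟩ : ∃ W, W = W0 ⊔ Subgroup.closure {w : ℚˣ | (w : ℚ) = (D : ℚ) * (n : ℚ) ^ 1} := ⟨_, rfl⟩
    rw [← hW] at hx3 ⊢
    have hnotS : ∀ p : ℕ, p.Prime → p ∉ S → p ≤ E' := by
      intro p hp hpS
      have : Fact p.Prime := ⟨hp⟩
      have h5 : p ∣ E' := by
        by_contra h
        apply hpS
        rw [hS]
        exact (un_iff D.ne_zero).1 (hU' p h D (Subgroup.mem_zpowers D))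
      exact Nat.le_of_dvd hE' h5
    -- the sum of the densities
    have e1 : ∑ p ∈ (PY x).filter (fun p => p ∈ S), dens p (QR F C W0 k D 1 p) =
        ∑ p ∈ PY x, dens p (QR F C W0 k D 1 p) := by
      rw [sum_filter]
      refine sum_congr rfl fun p hp => ?_
      have : Fact p.Prime := ⟨(mem_PY.1 hp).1⟩
      by_cases hpS : p ∈ S
      · rw [if_pos hpS]
      · rw [if_neg hpS, dens_QR, if_neg]
        rintro ⟨-, -, h⟩
        apply hpS
        rw [hS]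
        exact (un_iff D.ne_zero).1 h
    -- the counts
    have e2 : ((PY x).filter (fun p => LC F C k W p)).card =
        ((PY x).filter (fun p => p ∈ S ∧ LC F C k W p)).card +
        ((PY x).filter (fun p => p ∉ S ∧ LC F C k W p)).card := by
      rw [← card_union_of_disjoint]
      · apply congrArg
        ext p
        simp only [mem_filter, mem_union]
        tauto
      · rw [disjoint_left]
        intro p hp hp'
        exact (mem_filter.1 hp').2.1 (mem_filter.1 hp).2.1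
    have e3 : (((PY x).filter (fun p => p ∉ S ∧ LC F C k W p)).card : ℝ) ≤ E' := by
      have : (PY x).filter (fun p => p ∉ S ∧ LC F C k W p) ⊆ Icc 1 E' := by
        intro p hp
        rw [mem_filter] at hp
        have hpp := (mem_PY.1 hp.1).1
        exact mem_Icc.2 ⟨hpp.one_le, hnotS p hpp hp.2.1⟩
      have h5 := card_le_card this
      rw [Nat.card_Icc, Nat.add_sub_cancel] at h5
      exact_mod_cast h5
    obtain ⟨sd, hsd⟩ : ∃ sd, sd = ∑ p ∈ PY x, dens p (QR F C W0 k D 1 p) := ⟨_, rfl⟩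
    rw [e1]
    rw [← hsd] at g1 ⊢
    rw [e2] at hx3
    push_cast at hx3
    obtain ⟨u, hu⟩ : ∃ u : ℝ, u = (((PY x).filter (fun p => p ∈ S ∧ LC F C k W p)).card : ℝ) := ⟨_, rfl⟩
    obtain ⟨v, hv⟩ : ∃ v : ℝ, v = (((PY x).filter (fun p => p ∉ S ∧ LC F C k W p)).card : ℝ) := ⟨_, rfl⟩
    rw [← hu, ← hv] at hx3
    rw [← hv] at e3
    rw [← hu]
    have hv0 : 0 ≤ v := by rw [hv]; exact Nat.cast_nonneg _
    have k1 : |sd - A * π| ≤ ε / 4 * π := by
      have : sd - A * π = (sd / π - A) * π := by field_simp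
      rw [this, abs_mul, abs_of_pos hπ0]
      gcongr
    have k2 : v ≤ ε / 4 * π := by
      rw [div_lt_iff₀ hε] at g2
      nlinarith
    have k3 : |u + v - A * π| ≤ |u - sd| + v + |sd - A * π| := by
      have r1 : u + v - A * π = (u - sd) + v + (sd - A * π) := by ring
      rw [r1]
      refine (abs_add_le _ _).trans (add_le_add ((abs_add_le _ _).trans ?_) le_rfl)
      rw [abs_of_nonneg hv0]
    have k4 : 0 < ε * π := by positivity
    linarith
  exact_mod_cast card_le_card hsub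

end

end Pool.Agent.U376.AG
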