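import Mathlib
import Pool.Agent.N792.SwR
import Pool.Agent.H343R2.EH.Psi
import Pool.Agent.H343R2.EH.Primes

set_option autoImplicit false

/-! Primes in all the classes of all the moduli up to `K ^ θ`, `θ < 1` (Barban, Davenport, Halberstam). -/

namespace Pool.Agent.U376.AG

open Finset Filter Topology

/-- total error over all reduced classes -/
noncomputable def VV (K M : ℕ) : ℝ := ∑ g ∈ (range M).filter (fun g => Nat.Coprime g M),
  |H343E.piAP K M g - H343E.pi1 K / (Nat.totient M : ℝ)|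

lemma VV_nonneg (K M : ℕ) : 0 ≤ VV K M := sum_nonneg fun _ _ => abs_nonneg _

theorem bdh (θ : ℝ) (hθ : θ < 1) (U : ℕ) : ∃ K₀ : ℕ, ∀ K : ℕ, K₀ ≤ K → ∀ D : ℕ, 1 ≤ D → (D : ℝ) ≤ (K : ℝ) ^ θ →
    ∑ M ∈ Icc 1 D, VV K M ≤ D * K / Real.log K ^ U := by
  classical
  obtain ⟨B, X0, h0⟩ := H343E.primes_of U (H343E.unsmoothed (U + 2))
  obtain ⟨x1, h1⟩ := Pool.Agent.N792.SwR.evN _ (Pool.Agent.N792.SwR.ev_pow B 1 (1 - θ) (by linarith))
  obtain ⟨x2, h2⟩ := Pool.Agent.N792.SwR.evN _ (Real.tendsto_log_atTop.eventually_ge_atTop 1)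
  refine ⟨max (max X0 x1) (max x2 1), fun K hK D hD hDK => ?_⟩
  have hK0 : X0 ≤ K := le_trans (le_trans (le_max_left _ _) (le_max_left _ _)) hK
  have hK1 : x1 ≤ K := le_trans (le_trans (le_max_right _ _) (le_max_left _ _)) hK
  have hK2 : x2 ≤ K := le_trans (le_trans (le_max_left _ _) (le_max_right _ _)) hK
  have hK3 : 1 ≤ K := le_trans (le_trans (le_max_right _ _) (le_max_right _ _)) hK
  have hKR : (1 : ℝ) ≤ K := by exact_mod_cast hK3
  have hKR0 : (0 : ℝ) < K := by linarith
  have hL := h2 K hK2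
  have hL0 : 0 < Real.log K := by linarith
  have hA := h1 K hK1
  rw [one_mul] at hA
  have hDR : (1 : ℝ) ≤ D := by exact_mod_cast hD
  have hD1 : (D : ℝ) ≤ K / Real.log K ^ B := by
    rw [le_div_iff₀ (by positivity)]
    calc (D : ℝ) * Real.log K ^ B ≤ (K : ℝ) ^ θ * (K : ℝ) ^ (1 - θ) := by
          apply mul_le_mul hDK hA (by positivity) (by positivity)
      _ = K := by rw [← Real.rpow_add hKR0]; simp
  have hD2 : (D : ℝ) ^ 2 ≤ D * K / Real.log K ^ B := by
    rw [sq, mul_div_assoc]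
    exact mul_le_mul_of_nonneg_left hD1 (by linarith)
  have h4 := h0 K hK0 D hDR D hD1 hD2
    (fun q => if q ≤ D then (range q).filter (fun g => Nat.Coprime g q) else ∅)
    ⟨fun q a ha => by
      split_ifs at ha with hh
      · rw [mem_filter, mem_range] at ha
        exact ha
      · simp at ha, fun q => by
      beta_reduce
      split_ifs with hh
      · have e1 : ((range q).filter (fun g => Nat.Coprime g q)).card ≤ q :=
          (card_filter_le _ _).trans (by rw [card_range])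
        exact_mod_cast e1.trans hh
      · simp⟩
  refine le_trans (le_of_eq ?_) h4
  refine sum_congr rfl fun M hM => ?_
  rw [mem_Icc] at hM
  rw [if_pos hM.2]
  rfl

end Pool.Agent.U376.AG
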