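import Mathlib
import Pool.Agent.N792.SwR
import Pool.Agent.U376.AG.GridG

set_option autoImplicit false

/-! Prime exponents. -/

namespace Pool.Agent.U376.AG

open Finset Filter Topology
open Pool.Agent.U376.AK (hit hit_nonneg hit_le PY mem_PY GoodP good_density ev_log complete)

section
variable {p q : ℕ} [Fact p.Prime] [Fact q.Prime]

/-- the sum over the reduced residues -/
lemma reduced (α : (ZMod p)ˣ) (β : (ZMod q)ˣ) (T : ℕ) (hT : T = Nat.lcm (orderOf α) (orderOf β))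
    (c : ZMod p) (d : ZMod q) (hc : c ≠ 0) (hd : d ≠ 0)
    (χ : DirichletCharacter ℂ p) (φ : DirichletCharacter ℂ q) (hχ : χ ≠ 1) (hφ : φ ≠ 1) :
    ‖∑ g ∈ (range T).filter (fun g => Nat.Coprime g T),
      χ ((α : ZMod p) ^ g + c) * φ ((β : ZMod q) ^ g + d)‖ ≤
      (T.divisors.card : ℝ) * (√(p : ℝ) * √(q : ℝ)) := by
  classical
  have ho1 : 0 < orderOf α := orderOf_pos α
  have ho2 : 0 < orderOf β := orderOf_pos β
  have hT0 : 0 < T := by rw [hT]; exact Nat.lcm_pos ho1 ho2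
  obtain ⟨F, hF⟩ : ∃ F : ℕ → ℂ, F = fun g => χ ((α : ZMod p) ^ g + c) * φ ((β : ZMod q) ^ g + d) := ⟨_, rfl⟩
  have h1 : ∑ g ∈ (range T).filter (fun g => Nat.Coprime g T), F g =
      ∑ e ∈ T.divisors, ((ArithmeticFunction.moebius e : ℤ) : ℂ) * ∑ h ∈ range (T / e), F (e * h) := by
    have e1 : ∀ g ∈ range T, (if Nat.Coprime g T then F g else 0) =
        ∑ e ∈ T.divisors, ((ArithmeticFunction.moebius e : ℤ) : ℂ) * (if e ∣ g then F g else 0) := by
      intro g _
      have e2 : ∑ e ∈ T.divisors, ((ArithmeticFunction.moebius e : ℤ) : ℂ) * (if e ∣ g then F g else 0) =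
          (∑ e ∈ (Nat.gcd g T).divisors, ((ArithmeticFunction.moebius e : ℤ) : ℂ)) * F g := by
        rw [sum_mul]
        have e3 : (Nat.gcd g T).divisors = T.divisors.filter (fun e => e ∣ g) := by
          ext e
          rw [mem_filter, Nat.mem_divisors, Nat.mem_divisors, Nat.dvd_gcd_iff]
          constructor
          · rintro ⟨⟨h1, h2⟩, h3⟩
            exact ⟨⟨h2, hT0.ne'⟩, h1⟩
          · rintro ⟨⟨h1, h2⟩, h3⟩
            exact ⟨⟨h3, h1⟩, (Nat.gcd_pos_of_pos_right _ hT0).ne'⟩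
        rw [e3, sum_filter]
        refine sum_congr rfl fun e _ => ?_
        split_ifs <;> simp
      rw [e2]
      have e4 : ∑ e ∈ (Nat.gcd g T).divisors, ((ArithmeticFunction.moebius e : ℤ) : ℂ) =
          if Nat.Coprime g T then 1 else 0 := by
        have e5 : ∑ e ∈ (Nat.gcd g T).divisors, ArithmeticFunction.moebius e =
            if Nat.gcd g T = 1 then 1 else 0 := by
          rw [← ArithmeticFunction.coe_mul_zeta_apply, ArithmeticFunction.moebius_mul_coe_zeta,
            ArithmeticFunction.one_apply]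
        have e6 : ∑ e ∈ (Nat.gcd g T).divisors, ((ArithmeticFunction.moebius e : ℤ) : ℂ) =
            ((∑ e ∈ (Nat.gcd g T).divisors, ArithmeticFunction.moebius e : ℤ) : ℂ) := by push_cast; rfl
        rw [e6, e5]
        unfold Nat.Coprime
        split_ifs <;> simp
      rw [e4]
      split_ifs <;> simp
    rw [sum_filter, sum_congr rfl e1, sum_comm]
    refine sum_congr rfl fun e he => ?_
    rw [← mul_sum]
    congr 1
    rw [← sum_filter]
    have heT := Nat.dvd_of_mem_divisors he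
    have he0 : 0 < e := Nat.pos_of_mem_divisors he
    symm
    apply sum_bij (fun h _ => e * h)
    · intro h hh
      rw [mem_range] at hh
      rw [mem_filter, mem_range]
      refine ⟨?_, dvd_mul_right e h⟩
      calc e * h < e * (T / e) := Nat.mul_lt_mul_of_pos_left hh he0
        _ = T := Nat.mul_div_cancel' heT
    · intro h _ h' _ hh
      exact Nat.eq_of_mul_eq_mul_left he0 hh
    · intro g hg
      rw [mem_filter, mem_range] at hg
      obtain ⟨h, rfl⟩ := hg.2
      refine ⟨h, ?_, rfl⟩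
      rw [mem_range]
      exact (Nat.lt_div_iff_mul_lt' heT h).2 hg.1
    · intro h _
      rfl
  have h2 : ∀ e ∈ T.divisors, ‖∑ h ∈ range (T / e), F (e * h)‖ ≤ √(p : ℝ) * √(q : ℝ) := by
    intro e he
    have heT := Nat.dvd_of_mem_divisors he
    have he0 : 0 < e := Nat.pos_of_mem_divisors he
    have hord : T / e = Nat.lcm (orderOf (α ^ e)) (orderOf (β ^ e)) := by
      have g1 : orderOf ((α, β) : (ZMod p)ˣ × (ZMod q)ˣ) = T := by rw [Prod.orderOf, hT]
      have g2 : orderOf (((α, β) : (ZMod p)ˣ × (ZMod q)ˣ) ^ e) = T / e := by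
        rw [← g1]
        exact orderOf_pow_of_dvd he0.ne' (by rw [g1]; exact heT)
      rw [← g2, Prod.pow_mk, Prod.orderOf]
    have h3 := complete (α ^ e) (β ^ e) (T / e) 1 hord c d hc hd χ φ hχ hφ
    rw [one_mul, Nat.cast_one, one_mul] at h3
    refine le_trans (le_of_eq ?_) h3
    congr 1
    refine sum_congr rfl fun h _ => ?_
    rw [hF]
    beta_reduce
    rw [Units.val_pow_eq_pow_val, Units.val_pow_eq_pow_val, ← pow_mul, ← pow_mul]
  have h3 : ‖∑ g ∈ (range T).filter (fun g => Nat.Coprime g T), F g‖ ≤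
      (T.divisors.card : ℝ) * (√(p : ℝ) * √(q : ℝ)) := by
    rw [h1]
    calc _ ≤ ∑ _e ∈ T.divisors, √(p : ℝ) * √(q : ℝ) := by
          refine (norm_sum_le _ _).trans (sum_le_sum fun e he => ?_)
          rw [norm_mul]
          have m1 : ‖((ArithmeticFunction.moebius e : ℤ) : ℂ)‖ ≤ 1 := by
            rw [Complex.norm_intCast]
            exact_mod_cast ArithmeticFunction.abs_moebius_le_one
          calc _ ≤ 1 * ‖∑ h ∈ range (T / e), F (e * h)‖ := by gcongr
            _ ≤ _ := by rw [one_mul]; exact h2 e he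
      _ = _ := by rw [sum_const, nsmul_eq_mul]
  rw [hF] at h3
  exact h3

end

/-- sums of periodic functions over the primes -/
lemma prime_sum (F : ℕ → ℂ) (T K : ℕ) (hT : 1 ≤ T) (hF : ∀ k, ‖F k‖ ≤ 1) (hper : ∀ k, F (k + T) = F k)
    (Δ : ℝ) (hΔ : ∀ g < T, Nat.Coprime g T → |H343E.piAP K T g - H343E.pi1 K / (Nat.totient T : ℝ)| ≤ Δ) :
    ‖∑ ℓ ∈ PY K, F ℓ‖ ≤ H343E.pi1 K / (Nat.totient T : ℝ) *
      ‖∑ g ∈ (range T).filter (fun g => Nat.Coprime g T), F g‖ + T * Δ + T := by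
  classical
  have hmod : ∀ k, F k = F (k % T) := by
    intro k
    conv_lhs => rw [← Nat.mod_add_div k T]
    induction k / T with
    | zero => simp
    | succ n ih => rw [Nat.mul_succ, ← Nat.add_assoc, hper, ih]
  have h1 : ∑ ℓ ∈ PY K, F ℓ = ∑ ℓ ∈ (PY K).filter (fun ℓ => Nat.Coprime ℓ T), F ℓ +
      ∑ ℓ ∈ (PY K).filter (fun ℓ => ¬ Nat.Coprime ℓ T), F ℓ :=
    (sum_filter_add_sum_filter_not _ _ _).symm
  have h2 : ‖∑ ℓ ∈ (PY K).filter (fun ℓ => ¬ Nat.Coprime ℓ T), F ℓ‖ ≤ T := by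
    calc _ ≤ ∑ _ℓ ∈ (PY K).filter (fun ℓ => ¬ Nat.Coprime ℓ T), (1 : ℝ) :=
          (norm_sum_le _ _).trans (sum_le_sum fun ℓ _ => hF ℓ)
      _ = (((PY K).filter (fun ℓ => ¬ Nat.Coprime ℓ T)).card : ℝ) := by
          rw [sum_const, nsmul_eq_mul, mul_one]
      _ ≤ T := by
          have h3 : (PY K).filter (fun ℓ => ¬ Nat.Coprime ℓ T) ⊆ Icc 1 T := by
            intro ℓ hℓ
            rw [mem_filter, mem_PY] at hℓ
            rw [mem_Icc]
            refine ⟨hℓ.1.1.one_le, ?_⟩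
            have := (Nat.Prime.dvd_iff_not_coprime hℓ.1.1).2 hℓ.2
            exact Nat.le_of_dvd hT this
          have h4 := card_le_card h3
          rw [Nat.card_Icc, Nat.add_sub_cancel] at h4
          exact_mod_cast h4
  have h3 : ∑ ℓ ∈ (PY K).filter (fun ℓ => Nat.Coprime ℓ T), F ℓ =
      ∑ g ∈ (range T).filter (fun g => Nat.Coprime g T), F g * ((H343E.piAP K T g : ℝ) : ℂ) := by
    rw [← sum_fiberwise_of_maps_to (g := fun ℓ => ℓ % T)
      (t := (range T).filter (fun g => Nat.Coprime g T))]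
    · refine sum_congr rfl fun g hg => ?_
      rw [mem_filter, mem_range] at hg
      have e1 : ∀ ℓ ∈ ((PY K).filter (fun ℓ => Nat.Coprime ℓ T)).filter (fun ℓ => ℓ % T = g), F ℓ = F g := by
        intro ℓ hℓ
        rw [mem_filter] at hℓ
        rw [hmod ℓ, hℓ.2]
      rw [sum_congr rfl e1, sum_const, nsmul_eq_mul, mul_comm]
      congr 1
      have e2 : ((PY K).filter (fun ℓ => Nat.Coprime ℓ T)).filter (fun ℓ => ℓ % T = g) =
          (Icc 1 K).filter (fun ℓ => ℓ.Prime ∧ ℓ ≡ g [MOD T]) := by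
        ext ℓ
        rw [mem_filter, mem_filter, mem_PY, mem_filter, mem_Icc]
        constructor
        · rintro ⟨⟨⟨a1, a2⟩, a3⟩, a4⟩
          refine ⟨⟨a1.one_le, a2⟩, a1, ?_⟩
          unfold Nat.ModEq
          rw [a4, Nat.mod_eq_of_lt hg.1]
        · rintro ⟨⟨a1, a2⟩, a3, a4⟩
          have a5 : ℓ % T = g := by
            have : ℓ % T = g % T := a4
            rw [this, Nat.mod_eq_of_lt hg.1]
          refine ⟨⟨⟨a3, a2⟩, ?_⟩, a5⟩
          have := hg.2
          rw [← a5] at this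
          unfold Nat.Coprime at this ⊢
          rw [← this, ← Nat.gcd_rec]
          exact Nat.gcd_comm _ _
      rw [e2]
      unfold H343E.piAP
      push_cast
      rfl
    · intro ℓ hℓ
      rw [mem_filter] at hℓ
      rw [mem_filter, mem_range]
      refine ⟨Nat.mod_lt _ hT, ?_⟩
      have := hℓ.2
      unfold Nat.Coprime at this ⊢
      rw [← this, ← Nat.gcd_rec]
      exact Nat.gcd_comm _ _
  have h4 : ∑ g ∈ (range T).filter (fun g => Nat.Coprime g T), F g * ((H343E.piAP K T g : ℝ) : ℂ) =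
      ((H343E.pi1 K / (Nat.totient T : ℝ) : ℝ) : ℂ) * ∑ g ∈ (range T).filter (fun g => Nat.Coprime g T), F g +
      ∑ g ∈ (range T).filter (fun g => Nat.Coprime g T), F g *
        ((H343E.piAP K T g - H343E.pi1 K / (Nat.totient T : ℝ) : ℝ) : ℂ) := by
    rw [mul_sum, ← sum_add_distrib]
    refine sum_congr rfl fun g _ => ?_
    push_cast
    ring
  have hpi0 : 0 ≤ H343E.pi1 K / (Nat.totient T : ℝ) := by
    unfold H343E.pi1
    exact div_nonneg (Nat.cast_nonneg _) (Nat.cast_nonneg _)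
  have h5 : ‖∑ g ∈ (range T).filter (fun g => Nat.Coprime g T), F g *
        ((H343E.piAP K T g - H343E.pi1 K / (Nat.totient T : ℝ) : ℝ) : ℂ)‖ ≤ T * Δ := by
    have hΔ0 : 0 ≤ Δ := by
      have h6 : ∃ g, g < T ∧ Nat.Coprime g T := by
        rcases Nat.lt_or_ge 1 T with h | h
        · exact ⟨1, h, Nat.coprime_one_left T⟩
        · have : T = 1 := by omega
          exact ⟨0, by omega, by rw [this]; exact Nat.coprime_one_right 0⟩
      obtain ⟨g, hg1, hg2⟩ := h6
      exact (abs_nonneg _).trans (hΔ g hg1 hg2)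
    calc _ ≤ ∑ _g ∈ (range T).filter (fun g => Nat.Coprime g T), Δ := by
          refine (norm_sum_le _ _).trans (sum_le_sum fun g hg => ?_)
          rw [mem_filter, mem_range] at hg
          rw [norm_mul, Complex.norm_real, Real.norm_eq_abs]
          calc _ ≤ 1 * Δ := mul_le_mul (hF g) (hΔ g hg.1 hg.2) (abs_nonneg _) zero_le_one
            _ = Δ := one_mul Δ
      _ = (((range T).filter (fun g => Nat.Coprime g T)).card : ℝ) * Δ := by
          rw [sum_const, nsmul_eq_mul]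
      _ ≤ T * Δ := by
          have h6 : ((range T).filter (fun g => Nat.Coprime g T)).card ≤ T :=
            (card_filter_le _ _).trans (by rw [card_range])
          have : (((range T).filter (fun g => Nat.Coprime g T)).card : ℝ) ≤ T := by exact_mod_cast h6
          gcongr
  have h6 : ‖((H343E.pi1 K / (Nat.totient T : ℝ) : ℝ) : ℂ) *
      ∑ g ∈ (range T).filter (fun g => Nat.Coprime g T), F g‖ =
      H343E.pi1 K / (Nat.totient T : ℝ) * ‖∑ g ∈ (range T).filter (fun g => Nat.Coprime g T), F g‖ := by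
    rw [norm_mul, Complex.norm_real, Real.norm_of_nonneg hpi0]
  rw [h1, h3, h4]
  calc _ ≤ _ := norm_add_le _ _
    _ ≤ (H343E.pi1 K / (Nat.totient T : ℝ) * ‖∑ g ∈ (range T).filter (fun g => Nat.Coprime g T), F g‖ +
        T * Δ) + T := by
        refine add_le_add ((norm_add_le _ _).trans (add_le_add h6.le h5)) h2

lemma le_tot_mul_tau (n : ℕ) (hn : 0 < n) : n ≤ Nat.totient n * n.divisors.card := by
  have h := Nat.sum_totient n
  calc n = ∑ d ∈ n.divisors, Nat.totient d := h.symm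
    _ ≤ ∑ _d ∈ n.divisors, Nat.totient n := sum_le_sum fun d hd =>
        Nat.le_of_dvd (Nat.totient_pos.2 hn) (Nat.totient_dvd_of_dvd (Nat.dvd_of_mem_divisors hd))
    _ = _ := by rw [sum_const, smul_eq_mul, mul_comm]

lemma tau_lcm (t u : ℕ) (ht : 0 < t) (hu : 0 < u) :
    (Nat.lcm t u).divisors.card ≤ t.divisors.card * u.divisors.card := by
  classical
  have h1 : (Nat.lcm t u).divisors ⊆ (t * u).divisors := by
    apply Nat.divisors_subset_of_dvd (by positivity)
    exact Nat.lcm_dvd (dvd_mul_right t u) (dvd_mul_left u t)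
  refine (card_le_card h1).trans ?_
  rw [Nat.divisors_mul]
  exact card_mul_le

/-- the hits among the prime exponents -/
lemma hit_prime (a : ℕ) (b c : ℤ) (p K : ℕ) [Fact p.Prime] (ha : ¬ p ∣ a) (hb : ¬ (p : ℤ) ∣ b) (Δ : ℝ)
    (hΔ : ∀ g < orderOf (a : ZMod p), Nat.Coprime g (orderOf (a : ZMod p)) →
      |H343E.piAP K (orderOf (a : ZMod p)) g - H343E.pi1 K / (Nat.totient (orderOf (a : ZMod p)) : ℝ)| ≤ Δ)
    (hΔ0 : 0 ≤ Δ) :
    ∑ ℓ ∈ PY K, hit a b c p ℓ ≤ H343E.pi1 K / (Nat.totient (orderOf (a : ZMod p)) : ℝ) + Δ +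
      orderOf (a : ZMod p) := by
  classical
  have hu : IsUnit (a : ZMod p) := by
    rw [isUnit_iff_ne_zero, Ne, ZMod.natCast_eq_zero_iff]
    exact ha
  obtain ⟨α, hα⟩ := hu
  have ho : 0 < orderOf (a : ZMod p) := by
    rw [← hα, orderOf_units]; exact orderOf_pos α
  obtain ⟨t, ht⟩ : ∃ t, t = orderOf (a : ZMod p) := ⟨_, rfl⟩
  rw [← ht] at ho hΔ ⊢
  have hpi0 : 0 ≤ H343E.pi1 K / (Nat.totient t : ℝ) := by
    unfold H343E.pi1
    exact div_nonneg (Nat.cast_nonneg _) (Nat.cast_nonneg _)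
  unfold hit
  rw [← sum_filter, sum_const, nsmul_eq_mul, mul_one]
  obtain ⟨S, hS⟩ : ∃ S, S = (PY K).filter (fun ℓ => (p : ℤ) ∣ b * (a : ℤ) ^ ℓ + c) := ⟨_, rfl⟩
  rw [← hS]
  have hcong : ∀ k ∈ S, ∀ j ∈ S, k ≡ j [MOD t] := by
    intro k hk j hj
    rw [hS, mem_filter] at hk hj
    have e1 : (a : ZMod p) ^ k = (a : ZMod p) ^ j := by
      have f1 := (ZMod.intCast_zmod_eq_zero_iff_dvd _ p).2 hk.2
      have f2 := (ZMod.intCast_zmod_eq_zero_iff_dvd _ p).2 hj.2
      push_cast at f1 f2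
      have := f1.trans f2.symm
      have hb0 : (b : ZMod p) ≠ 0 := by rwa [Ne, ZMod.intCast_zmod_eq_zero_iff_dvd]
      exact mul_left_cancel₀ hb0 (add_right_cancel this)
    rw [← hα, ← Units.val_pow_eq_pow_val, ← Units.val_pow_eq_pow_val] at e1
    have e2 := Units.ext e1
    rw [pow_eq_pow_iff_modEq] at e2
    have e3 : orderOf α = t := by rw [ht, ← hα, orderOf_units]
    rwa [e3] at e2
  have h1 : S.card = (S.filter (fun ℓ => Nat.Coprime ℓ t)).card + (S.filter (fun ℓ => ¬ Nat.Coprime ℓ t)).card :=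
    (card_filter_add_card_filter_not _).symm
  have h2 : (((S.filter (fun ℓ => ¬ Nat.Coprime ℓ t)).card : ℕ) : ℝ) ≤ t := by
    have h3 : S.filter (fun ℓ => ¬ Nat.Coprime ℓ t) ⊆ Icc 1 t := by
      intro ℓ hℓ
      rw [mem_filter, hS, mem_filter, mem_PY] at hℓ
      rw [mem_Icc]
      refine ⟨hℓ.1.1.1.one_le, ?_⟩
      have := (Nat.Prime.dvd_iff_not_coprime hℓ.1.1.1).2 hℓ.2
      exact Nat.le_of_dvd ho this
    have h4 := card_le_card h3
    rw [Nat.card_Icc, Nat.add_sub_cancel] at h4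
    exact_mod_cast h4
  have h3 : (((S.filter (fun ℓ => Nat.Coprime ℓ t)).card : ℕ) : ℝ) ≤ H343E.pi1 K / (Nat.totient t : ℝ) + Δ := by
    rcases (S.filter (fun ℓ => Nat.Coprime ℓ t)).eq_empty_or_nonempty with h | ⟨ℓ₀, h0⟩
    · rw [h, card_empty, Nat.cast_zero]; linarith
    · rw [mem_filter] at h0
      have hg : ℓ₀ % t < t := Nat.mod_lt _ ho
      have hgc : Nat.Coprime (ℓ₀ % t) t := by
        have := h0.2
        unfold Nat.Coprime at this ⊢
        rw [← this, ← Nat.gcd_rec]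
        exact Nat.gcd_comm _ _
      have h4 := (abs_le.1 (hΔ _ hg hgc)).2
      have h5 : S.filter (fun ℓ => Nat.Coprime ℓ t) ⊆
          (Icc 1 K).filter (fun ℓ => ℓ.Prime ∧ ℓ ≡ ℓ₀ % t [MOD t]) := by
        intro ℓ hℓ
        rw [mem_filter] at hℓ
        have h6 := hcong ℓ hℓ.1 ℓ₀ h0.1
        have h7 := hℓ.1
        rw [hS, mem_filter, mem_PY] at h7
        rw [mem_filter, mem_Icc]
        refine ⟨⟨h7.1.1.one_le, h7.1.2⟩, h7.1.1, h6.trans ?_⟩
        exact (Nat.mod_modEq _ _).symm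
      have h6 : (((S.filter (fun ℓ => Nat.Coprime ℓ t)).card : ℕ) : ℝ) ≤ H343E.piAP K t (ℓ₀ % t) := by
        unfold H343E.piAP
        exact_mod_cast card_le_card h5
      linarith
  rw [h1]
  push_cast
  linarith

open Classical in
/-- the hypothesis of the general theorem for prime exponents -/
theorem cheb_prime (a : ℕ) (b c : ℤ) (B : ℕ) : ∃ Y₁ : ℕ,
    ∀ y K : ℕ, Y₁ ≤ y → (y : ℝ) ≤ Real.log K ^ B → ∀ T : ∀ p : ℕ, ZMod p → Prop, Adm T → ∀ δ : ℝ, 0 < δ →
      (((PY K).filter (fun k => δ * (y / Real.log y) <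
        |∑ p ∈ GoodP a (b * c) 16 y, Rt T a b c p k|)).card : ℝ) ≤
          4 * H343E.pi1 K / (δ ^ 2 * Real.log y ^ 8) := by
  obtain ⟨U, hU⟩ : ∃ U, U = 2 * B + 20 := ⟨_, rfl⟩
  obtain ⟨K₁, hsw⟩ := Pool.Agent.N792.SwR.sw_pi U (2 * B)
  have hlogt : Tendsto (fun y : ℕ => Real.log (y : ℝ)) atTop atTop :=
    Real.tendsto_log_atTop.comp tendsto_natCast_atTop_atTop
  have hlow : ∀ᶠ K : ℕ in atTop, (K : ℝ) / (2 * Real.log K) ≤ H343E.pi1 K := by
    have := Pool.Agent.H386R2.Artin.SH.pi_lower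
    filter_upwards [this] with K hK
    refine hK.trans (le_of_eq ?_)
    unfold H343E.pi1
    rw [Nat.primeCounting, Nat.primeCounting', Nat.count_eq_card_filter_range]
    congr 2
    ext p
    rw [mem_filter, mem_filter, mem_range, mem_Icc]
    constructor
    · rintro ⟨h1, h2⟩; exact ⟨⟨h2.one_le, by omega⟩, h2⟩
    · rintro ⟨h1, h2⟩; exact ⟨by omega, h2⟩
  obtain ⟨K₂, hK₂⟩ := eventually_atTop.1 (hlow.and ((ev_log 1 (2 * B + 40)).and
    (hlogt.eventually_ge_atTop 200)))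
  obtain ⟨Y₂, hY₂⟩ := eventually_atTop.1 ((ev_log 6 12).and
    ((hlogt.eventually_ge_atTop 10).and (eventually_ge_atTop 3)))
  refine ⟨max (⌈Real.log (max K₁ K₂ + 1 : ℕ) ^ B⌉₊ + 1) Y₂, fun y K hy hyK T hT δ hδ => ?_⟩
  have hyY₂ : Y₂ ≤ y := (le_max_right _ _).trans hy
  have hKlarge : max K₁ K₂ + 1 ≤ K := by
    by_contra hcon
    push Not at hcon
    have h1 : (⌈Real.log (max K₁ K₂ + 1 : ℕ) ^ B⌉₊ + 1 : ℕ) ≤ y := (le_max_left _ _).trans hy
    have h2 : Real.log K ^ B ≤ Real.log (max K₁ K₂ + 1 : ℕ) ^ B := by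
      apply pow_le_pow_left₀ (Real.log_natCast_nonneg K)
      rcases Nat.eq_zero_or_pos K with h | h
      · rw [h]; simp only [Nat.cast_zero, Real.log_zero]; exact Real.log_natCast_nonneg _
      · exact Real.log_le_log (by exact_mod_cast h) (by exact_mod_cast hcon.le)
    have h3 := Nat.le_ceil (Real.log (max K₁ K₂ + 1 : ℕ) ^ B)
    have h4 : ((⌈Real.log (max K₁ K₂ + 1 : ℕ) ^ B⌉₊ + 1 : ℕ) : ℝ) ≤ y := by exact_mod_cast h1
    push_cast at h4 h3 h2
    linarith
  have hKK₁ : K₁ ≤ K := by omega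
  have hKK₂ : K₂ ≤ K := by omega
  obtain ⟨k1, k2, k3⟩ := hK₂ K hKK₂
  obtain ⟨e1, e2, e3⟩ := hY₂ y hyY₂
  obtain ⟨l, hl⟩ : ∃ l, l = Real.log (y : ℝ) := ⟨_, rfl⟩
  obtain ⟨s, hs⟩ : ∃ s, s = √(y : ℝ) := ⟨_, rfl⟩
  obtain ⟨L, hL⟩ : ∃ L, L = Real.log (K : ℝ) := ⟨_, rfl⟩
  obtain ⟨N, hN⟩ : ∃ N, N = H343E.pi1 K := ⟨_, rfl⟩
  have hNcard : N = ((PY K).card : ℝ) := by rw [hN]; rfl
  have hK1 : 1 ≤ K := by omega
  have hKr : (1 : ℝ) ≤ K := by exact_mod_cast hK1
  have hyr : (3 : ℝ) ≤ y := by exact_mod_cast e3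
  rw [← hL] at k1 k2 k3 hyK
  rw [← hN] at k1
  have hL0 : 0 < L := by linarith
  have hL1 : 1 ≤ L := by linarith
  -- l ≤ L
  have hlL : l ≤ L := by
    have h1 : (y : ℝ) ≤ K := by
      refine hyK.trans ?_
      have h2 : L ^ B ≤ L ^ (2 * B + 40) := pow_le_pow_right₀ hL1 (by omega)
      have h3 : √(K : ℝ) ≤ K := by
        rw [Real.sqrt_le_left (by linarith)]
        nlinarith
      linarith
    rw [hl, hL]
    exact Real.log_le_log (by linarith) h1
  have hl10 : 10 ≤ l := by rw [hl]; exact e2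
  have hl0 : 0 < l := by linarith
  have hl1 : 1 ≤ l := by linarith
  have hss : s * s = y := by rw [hs]; exact Real.mul_self_sqrt (by linarith)
  have hs0 : 0 < s := by rw [hs]; exact Real.sqrt_pos.2 (by linarith)
  obtain ⟨Δ, hΔd⟩ : ∃ Δ, Δ = (K : ℝ) / L ^ U := ⟨_, rfl⟩
  have hΔ0 : 0 ≤ Δ := by rw [hΔd]; positivity
  have hsw' : ∀ q : ℕ, 1 ≤ q → q ≤ y ^ 2 → ∀ g < q, Nat.Coprime g q →
      |H343E.piAP K q g - H343E.pi1 K / (Nat.totient q : ℝ)| ≤ Δ := by
    intro q hq hqy g hg hgc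
    rw [hΔd, hL]
    refine hsw K hKK₁ q hq ?_ g hg hgc
    have h1 : (q : ℝ) ≤ (y : ℝ) ^ 2 := by exact_mod_cast hqy
    refine h1.trans ?_
    rw [← hL, pow_mul']
    exact pow_le_pow_left₀ (by linarith) hyK 2
  -- size conditions
  have hKsize : L ^ (2 * B + 40) ≤ K := by
    rw [one_mul] at k2
    refine k2.trans ?_
    rw [Real.sqrt_le_left (by linarith)]
    nlinarith
  have hD1 : (y : ℝ) ^ 2 * (Δ + 1) * l ^ 16 ≤ N / 2 := by
    have h1 : (y : ℝ) ^ 2 ≤ L ^ (2 * B) := by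
      rw [pow_mul']
      exact pow_le_pow_left₀ (by linarith) hyK 2
    have h2 : l ^ 16 ≤ L ^ 16 := pow_le_pow_left₀ hl0.le hlL 16
    have h3 : Δ + 1 ≤ 2 * (K / L ^ U) := by
      have : 1 ≤ (K : ℝ) / L ^ U := by
        rw [le_div_iff₀ (by positivity), one_mul]
        refine le_trans ?_ hKsize
        exact pow_le_pow_right₀ hL1 (by omega)
      rw [hΔd]; linarith
    calc (y : ℝ) ^ 2 * (Δ + 1) * l ^ 16 ≤ L ^ (2 * B) * (2 * (K / L ^ U)) * L ^ 16 := by gcongr
      _ = 2 * (K / L ^ 4) := by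
          rw [hU]
          have : L ^ (2 * B + 20) = L ^ (2 * B) * L ^ 16 * L ^ 4 := by ring
          rw [this]
          field_simp
      _ ≤ (K / (2 * L)) / 2 := by
          have : 2 * ((K : ℝ) / L ^ 4) = (K / (2 * L)) / 2 * (8 / L ^ 3) := by
            field_simp
            ring
          rw [this]
          apply mul_le_of_le_one_right (by positivity)
          rw [div_le_one (by positivity)]
          have : (200 : ℝ) ^ 3 ≤ L ^ 3 := pow_le_pow_left₀ (by norm_num) k3 3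
          linarith
      _ ≤ N / 2 := by linarith
  have hN0 : 0 ≤ N := by rw [hNcard]; exact Nat.cast_nonneg _
  obtain ⟨D, hDd⟩ : ∃ D : ℝ, D = (y : ℝ) ^ 2 * (Δ + 1) := ⟨_, rfl⟩
  have hD0 : 0 ≤ D := by rw [hDd]; positivity
  obtain ⟨H, hHd⟩ : ∃ H : ℝ, H = N / (s * l ^ 13) + D := ⟨_, rfl⟩
  have hH0 : 0 ≤ H := by rw [hHd]; positivity
  have hQmem : ∀ p ∈ GoodP a (b * c) 16 y, p.Prime ∧ p ≤ y ∧ ¬ p ∣ a ∧ ¬ (p : ℤ) ∣ b * c ∧
      ((p - 1).divisors.card : ℝ) ≤ l ^ 3 ∧ s * l ^ 16 ≤ orderOf (a : ZMod p) := by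
    intro p hp
    rw [GoodP, mem_filter, mem_PY, ← hl, ← hs] at hp
    exact ⟨hp.1.1, hp.1.2, hp.2.1, hp.2.2.1, hp.2.2.2.1, hp.2.2.2.2⟩
  have hsec := secondG (E := PY K) (Q := GoodP a (b * c) 16 y) hT a b c y e3
    (by rw [GoodP]; exact filter_subset _ _) D H hD0 hH0
    (fun p hp => by rw [← hl]; exact (hQmem p hp).2.2.2.2.1)
    (by
      intro p hp
      obtain ⟨hp1, hp2, hp3, hp4, hp5, hp6⟩ := hQmem p hp
      have : Fact p.Prime := ⟨hp1⟩
      obtain ⟨t, ht⟩ : ∃ t, t = orderOf (a : ZMod p) := ⟨_, rfl⟩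
      have hap : (a : ZMod p) ≠ 0 := by rwa [Ne, ZMod.natCast_eq_zero_iff]
      have htd : t ∣ p - 1 := by rw [ht]; exact ZMod.orderOf_dvd_card_sub_one hap
      have hp1' := hp1.two_le
      have htp : t ≤ y := (Nat.le_of_dvd (by omega) htd).trans (by omega)
      rw [← ht] at hp6
      have ht0 : (0 : ℝ) < t := lt_of_lt_of_le (by positivity) hp6
      have ht0' : 0 < t := by exact_mod_cast ht0
      have hyy : t ≤ y ^ 2 := by nlinarith
      have h1 := hit_prime a b c p K hp3 (fun h => hp4 (h.mul_right c)) Δ (by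
        rw [← ht]
        exact hsw' t ht0' hyy) hΔ0
      rw [← ht, ← hN] at h1
      refine h1.trans ?_
      rw [hHd, hDd]
      have h2 : N / (Nat.totient t : ℝ) ≤ N / (s * l ^ 13) := by
        apply div_le_div_of_nonneg_left hN0 (by positivity)
        have h3 : (t : ℝ) ≤ Nat.totient t * t.divisors.card := by exact_mod_cast le_tot_mul_tau t ht0'
        have h4 : (t.divisors.card : ℝ) ≤ l ^ 3 := by
          refine le_trans ?_ hp5
          exact_mod_cast card_le_card (Nat.divisors_subset_of_dvd (by omega) htd)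
        have h5 : s * l ^ 16 ≤ Nat.totient t * l ^ 3 := by
          calc s * l ^ 16 ≤ t := hp6
            _ ≤ Nat.totient t * t.divisors.card := h3
            _ ≤ _ := by gcongr
        have h6 : s * l ^ 16 = s * l ^ 13 * l ^ 3 := by ring
        rw [h6] at h5
        exact le_of_mul_le_mul_right h5 (by positivity)
      have h3 : (t : ℝ) ≤ y := by exact_mod_cast htp
      have h4 : (1 : ℝ) ≤ y := by linarith
      nlinarith [mul_nonneg (show (0 : ℝ) ≤ (y : ℝ) ^ 2 - 1 by nlinarith) hΔ0])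
    (by
      intro p hp q hq hpq χ φ hχ hφ
      obtain ⟨hp1, hp2, hp3, hp4, hp5, hp6⟩ := hQmem p hp
      obtain ⟨hq1, hq2, hq3, hq4, hq5, hq6⟩ := hQmem q hq
      have : Fact p.Prime := ⟨hp1⟩
      have : Fact q.Prime := ⟨hq1⟩
      have hap : (a : ZMod p) ≠ 0 := by rwa [Ne, ZMod.natCast_eq_zero_iff]
      have haq : (a : ZMod q) ≠ 0 := by rwa [Ne, ZMod.natCast_eq_zero_iff]
      obtain ⟨α, hα⟩ : IsUnit (a : ZMod p) := by rwa [isUnit_iff_ne_zero]
      obtain ⟨γ, hγ⟩ : IsUnit (a : ZMod q) := by rwa [isUnit_iff_ne_zero]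
      obtain ⟨t, ht⟩ : ∃ t, t = orderOf (a : ZMod p) := ⟨_, rfl⟩
      obtain ⟨u, hu⟩ : ∃ u, u = orderOf (a : ZMod q) := ⟨_, rfl⟩
      rw [← ht] at hp6
      rw [← hu] at hq6
      have hsl : 0 < s * l ^ 16 := by positivity
      have ht0 : (0 : ℝ) < t := lt_of_lt_of_le hsl hp6
      have hu0 : (0 : ℝ) < u := lt_of_lt_of_le hsl hq6
      have ht0' : 0 < t := by exact_mod_cast ht0
      have hu0' : 0 < u := by exact_mod_cast hu0
      have htd : t ∣ p - 1 := by rw [ht]; exact ZMod.orderOf_dvd_card_sub_one hap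
      have hud : u ∣ q - 1 := by rw [hu]; exact ZMod.orderOf_dvd_card_sub_one haq
      have hp1' := hp1.two_le
      have hq1' := hq1.two_le
      have htp : t ≤ y := (Nat.le_of_dvd (by omega) htd).trans (by omega)
      have huq : u ≤ y := (Nat.le_of_dvd (by omega) hud).trans (by omega)
      have hg : Nat.gcd t u ∣ Nat.gcd (p - 1) (q - 1) :=
        Nat.dvd_gcd ((Nat.gcd_dvd_left t u).trans htd) ((Nat.gcd_dvd_right t u).trans hud)
      have hg0 : 0 < Nat.gcd (p - 1) (q - 1) := Nat.gcd_pos_of_pos_left _ (by omega)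
      have hgle := Nat.le_of_dvd hg0 hg
      obtain ⟨g, hgdef⟩ : ∃ g, g = Nat.gcd (p - 1) (q - 1) := ⟨_, rfl⟩
      rw [← hgdef] at hg0 hgle ⊢
      obtain ⟨m, hm⟩ : ∃ m, m = Nat.lcm t u := ⟨_, rfl⟩
      have hm0 : 0 < m := by rw [hm]; exact Nat.lcm_pos ht0' hu0'
      have hgl : t * u ≤ g * m := by
        rw [← Nat.gcd_mul_lcm t u, ← hm]
        exact Nat.mul_le_mul_right m hgle
      have hmle : m ≤ y ^ 2 := by
        have : m ≤ t * u := by
          rw [hm]; exact Nat.le_of_dvd (Nat.mul_pos ht0' hu0') (Nat.lcm_dvd (dvd_mul_right t u) (dvd_mul_left u t))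
        calc m ≤ t * u := this
          _ ≤ y * y := Nat.mul_le_mul htp huq
          _ = y ^ 2 := by ring
      have hmα : m = Nat.lcm (orderOf α) (orderOf γ) := by
        rw [hm, ht, hu, ← hα, ← hγ, orderOf_units, orderOf_units]
      have hb1 : (b : ZMod p) ≠ 0 := by
        rw [Ne, ZMod.intCast_zmod_eq_zero_iff_dvd]; exact fun h => hp4 (h.mul_right c)
      have hb2 : (b : ZMod q) ≠ 0 := by
        rw [Ne, ZMod.intCast_zmod_eq_zero_iff_dvd]; exact fun h => hq4 (h.mul_right c)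
      have hc1 : (c : ZMod p) ≠ 0 := by
        rw [Ne, ZMod.intCast_zmod_eq_zero_iff_dvd]; exact fun h => hp4 (h.mul_left b)
      have hc2 : (c : ZMod q) ≠ 0 := by
        rw [Ne, ZMod.intCast_zmod_eq_zero_iff_dvd]; exact fun h => hq4 (h.mul_left b)
      obtain ⟨F, hF⟩ : ∃ F : ℕ → ℂ, F = fun k => χ ((b : ZMod p) * (a : ZMod p) ^ k + (c : ZMod p)) *
        φ ((b : ZMod q) * (a : ZMod q) ^ k + (c : ZMod q)) := ⟨_, rfl⟩
      have hF1 : ∀ k, ‖F k‖ ≤ 1 := by
        intro k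
        rw [hF]
        beta_reduce
        rw [norm_mul]
        calc _ ≤ (1 : ℝ) * 1 := mul_le_mul (DirichletCharacter.norm_le_one χ _)
              (DirichletCharacter.norm_le_one φ _) (norm_nonneg _) zero_le_one
          _ = 1 := one_mul 1
      have hper : ∀ k, F (k + m) = F k := by
        intro k
        rw [hF]
        beta_reduce
        have r1 : (a : ZMod p) ^ m = 1 := by
          apply orderOf_dvd_iff_pow_eq_one.1
          rw [hm, ← ht]
          exact Nat.dvd_lcm_left _ _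
        have r2 : (a : ZMod q) ^ m = 1 := by
          apply orderOf_dvd_iff_pow_eq_one.1
          rw [hm, ← hu]
          exact Nat.dvd_lcm_right _ _
        rw [pow_add, pow_add, r1, r2, mul_one, mul_one]
      have h1 := prime_sum F m K hm0 hF1 hper Δ (hsw' m hm0 hmle)
      have h2 : ‖∑ g ∈ (range m).filter (fun g => Nat.Coprime g m), F g‖ ≤
          (m.divisors.card : ℝ) * (√(p : ℝ) * √(q : ℝ)) := by
        have hh := reduced α γ m hmα ((b : ZMod p)⁻¹ * (c : ZMod p)) ((b : ZMod q)⁻¹ * (c : ZMod q))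
          (mul_ne_zero (inv_ne_zero hb1) hc1) (mul_ne_zero (inv_ne_zero hb2) hc2) χ φ hχ hφ
        refine le_trans (le_of_eq_of_le ?_ (mul_le_of_le_one_left (norm_nonneg _)
            (show ‖χ (b : ZMod p) * φ (b : ZMod q)‖ ≤ 1 from ?_))) hh
        · rw [← norm_mul, mul_sum]
          congr 1
          refine sum_congr rfl fun k _ => ?_
          rw [hF]
          beta_reduce
          rw [← hα, ← hγ]
          have r1 : (b : ZMod p) * (α : ZMod p) ^ k + (c : ZMod p) =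
              (b : ZMod p) * ((α : ZMod p) ^ k + (b : ZMod p)⁻¹ * (c : ZMod p)) := by
            field_simp
          have r2 : (b : ZMod q) * (γ : ZMod q) ^ k + (c : ZMod q) =
              (b : ZMod q) * ((γ : ZMod q) ^ k + (b : ZMod q)⁻¹ * (c : ZMod q)) := by
            field_simp
          rw [r1, r2, map_mul, map_mul]
          ring
        · rw [norm_mul]
          calc _ ≤ (1 : ℝ) * 1 := mul_le_mul (DirichletCharacter.norm_le_one χ _)
                (DirichletCharacter.norm_le_one φ _) (norm_nonneg _) zero_le_one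
            _ = 1 := one_mul 1
      have h3 : (∑ k ∈ PY K, χ ((b : ZMod p) * (a : ZMod p) ^ k + (c : ZMod p)) *
        φ ((b : ZMod q) * (a : ZMod q) ^ k + (c : ZMod q))) = ∑ k ∈ PY K, F k := by rw [hF]
      rw [h3, ← hl, ← hNcard]
      refine h1.trans ?_
      rw [← hN]
      have hgr : (0 : ℝ) < g := by exact_mod_cast hg0
      have hmr : (0 : ℝ) < m := by exact_mod_cast hm0
      have hglr : (t : ℝ) * u ≤ g * m := by exact_mod_cast hgl
      have hφ0 : (0 : ℝ) < Nat.totient m := by exact_mod_cast Nat.totient_pos.2 hm0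
      have hpq2 : √(p : ℝ) * √(q : ℝ) ≤ y := by
        rw [← hss, hs]
        have e1 : √(p : ℝ) ≤ √(y : ℝ) := Real.sqrt_le_sqrt (by exact_mod_cast hp2)
        have e2 : √(q : ℝ) ≤ √(y : ℝ) := Real.sqrt_le_sqrt (by exact_mod_cast hq2)
        gcongr
      have hτ : (m.divisors.card : ℝ) ≤ l ^ 6 := by
        have h4 : (m.divisors.card : ℝ) ≤ (t.divisors.card : ℝ) * (u.divisors.card : ℝ) := by
          rw [hm]; exact_mod_cast tau_lcm t u ht0' hu0'
        have h5 : (t.divisors.card : ℝ) ≤ l ^ 3 := by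
          refine le_trans ?_ hp5
          exact_mod_cast card_le_card (Nat.divisors_subset_of_dvd (by omega) htd)
        have h6 : (u.divisors.card : ℝ) ≤ l ^ 3 := by
          refine le_trans ?_ hq5
          exact_mod_cast card_le_card (Nat.divisors_subset_of_dvd (by omega) hud)
        calc _ ≤ _ := h4
          _ ≤ l ^ 3 * l ^ 3 := by gcongr
          _ = l ^ 6 := by ring
      have h5 : (y : ℝ) * l ^ 32 ≤ g * m := by
        calc (y : ℝ) * l ^ 32 = (s * l ^ 16) * (s * l ^ 16) := by rw [← hss]; ring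
          _ ≤ (t : ℝ) * u := by gcongr
          _ ≤ _ := hglr
      have h6 : (m : ℝ) ≤ Nat.totient m * l ^ 6 := by
        have : (m : ℝ) ≤ Nat.totient m * m.divisors.card := by exact_mod_cast le_tot_mul_tau m hm0
        calc (m : ℝ) ≤ Nat.totient m * m.divisors.card := this
          _ ≤ _ := by gcongr
      have h7 : N / (Nat.totient m : ℝ) * ‖∑ g ∈ (range m).filter (fun g => Nat.Coprime g m), F g‖ ≤
          N * g / l ^ 20 := by
        calc _ ≤ N / (Nat.totient m : ℝ) * (l ^ 6 * y) := by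
              apply mul_le_mul_of_nonneg_left _ (by positivity)
              refine h2.trans ?_
              gcongr
          _ = N * (l ^ 6 * y / Nat.totient m) := by ring
          _ ≤ N * (g / l ^ 20) := by
              apply mul_le_mul_of_nonneg_left _ hN0
              rw [div_le_div_iff₀ hφ0 (by positivity)]
              have h8 : (y : ℝ) * l ^ 32 ≤ g * (Nat.totient m * l ^ 6) := h5.trans (by gcongr)
              have h9 : l ^ 6 * (y : ℝ) * l ^ 20 * l ^ 6 ≤ g * Nat.totient m * l ^ 6 := by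
                calc l ^ 6 * (y : ℝ) * l ^ 20 * l ^ 6 = y * l ^ 32 := by ring
                  _ ≤ _ := by linarith
              exact le_of_mul_le_mul_right h9 (by positivity)
          _ = N * g / l ^ 20 := by ring
      have h8 : (m : ℝ) * Δ + m ≤ D := by
        rw [hDd]
        have : (m : ℝ) ≤ (y : ℝ) ^ 2 := by exact_mod_cast hmle
        nlinarith
      linarith)
  rw [← hNcard, ← hl] at hsec
  have hfin := chebG a b c y e3 (PY K) (GoodP a (b * c) 16 y) N hN0 D H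
    (by rw [← hl]; linarith) (by rw [← hl, ← hs, hl, hs]; exact e1) (by rw [← hl, hDd]; exact hD1)
    (by
      rw [← hl, hHd, hDd]
      have h1 : N / (s * l ^ 13) * l ^ 10 ≤ N / 12 := by
        have h2 : N / (s * l ^ 13) * l ^ 10 = N / 12 * (12 / (s * l ^ 3)) := by
          field_simp
        rw [h2]
        apply mul_le_of_le_one_right (by positivity)
        rw [div_le_one (by positivity)]
        have h3 : (10 : ℝ) ^ 3 ≤ l ^ 3 := pow_le_pow_left₀ (by norm_num) hl10 3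
        have h4 : 1 ≤ s := by
          have : 6 * l ^ 12 ≤ s := by rw [hl, hs]; exact e1
          have h5 : 1 ≤ l ^ 12 := one_le_pow₀ hl1
          linarith
        nlinarith
      have h2 : (y : ℝ) ^ 2 * (Δ + 1) * l ^ 10 ≤ N / 12 := by
        have h3 : (y : ℝ) ^ 2 * (Δ + 1) * l ^ 10 * l ^ 6 ≤ N / 2 := by
          calc _ = (y : ℝ) ^ 2 * (Δ + 1) * l ^ 16 := by ring
            _ ≤ _ := hD1
        have h4 : (10 : ℝ) ^ 6 ≤ l ^ 6 := pow_le_pow_left₀ (by norm_num) hl10 6
        have h5 : 0 ≤ (y : ℝ) ^ 2 * (Δ + 1) * l ^ 10 := by positivity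
        nlinarith
      calc (N / (s * l ^ 13) + (y : ℝ) ^ 2 * (Δ + 1)) * l ^ 10 =
          N / (s * l ^ 13) * l ^ 10 + (y : ℝ) ^ 2 * (Δ + 1) * l ^ 10 := by ring
        _ ≤ N / 6 := by linarith) (by rw [hNcard]) (by rw [← hl]; exact hsec) δ hδ
  rw [← hN]
  exact hfin

end Pool.Agent.U376.AG
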