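import Mathlib
import Pool.Agent.U376.AG.PairG

set_option autoImplicit false

/-! The second moment, with error terms which are small on average. -/

namespace Pool.Agent.U376.AG

open Finset
open Pool.Agent.U376.AK (hit hit_nonneg hit_le)

variable {T : ∀ p : ℕ, ZMod p → Prop}

/-- the second moment -/
lemma secondV (hT : Adm T) (a : ℕ) (b c : ℤ) (y : ℕ) (hy : 3 ≤ y) (E Q : Finset ℕ) (hQ : Q ⊆ AK.PY y)
    (Dp : ℕ → ℕ → ℝ) (Hp : ℕ → ℝ) (D H : ℝ) (hDp : ∀ p q, 0 ≤ Dp p q) (hHp : ∀ p, 0 ≤ Hp p)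
    (hD : ∑ p ∈ Q, ∑ q ∈ Q, Dp p q ≤ (y : ℝ) ^ 2 * D) (hH : ∑ p ∈ Q, Hp p ≤ y * H)
    (hτ : ∀ p ∈ Q, ((p - 1).divisors.card : ℝ) ≤ Real.log y ^ 3)
    (hh : ∀ p ∈ Q, ∑ k ∈ E, hit a b c p k ≤ Hp p)
    (hM : ∀ p ∈ Q, ∀ q ∈ Q, p ≠ q → ∀ (χ : DirichletCharacter ℂ p) (φ : DirichletCharacter ℂ q),
      χ ≠ 1 → φ ≠ 1 → ‖∑ k ∈ E, χ ((b : ZMod p) * (a : ZMod p) ^ k + (c : ZMod p)) *
        φ ((b : ZMod q) * (a : ZMod q) ^ k + (c : ZMod q))‖ ≤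
          E.card * (Nat.gcd (p - 1) (q - 1) : ℝ) / Real.log y ^ 20 + Dp p q) :
    ∑ k ∈ E, (∑ p ∈ Q, Rt T a b c p k) ^ 2 ≤
      y * E.card + E.card * ((y : ℝ) ^ 2 * (1 + Real.log y)) / Real.log y ^ 14 +
        (y : ℝ) ^ 2 * (Real.log y ^ 6 * D + 3 * H) := by
  classical
  obtain ⟨l, hl⟩ : ∃ l, l = Real.log (y : ℝ) := ⟨_, rfl⟩
  have hyr : (3 : ℝ) ≤ y := by exact_mod_cast hy
  have hl1 : 1 < l := by
    rw [hl, Real.lt_log_iff_exp_lt (by linarith)]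
    have := Real.exp_one_lt_d9
    linarith
  rw [← hl]
  have hN0 : (0 : ℝ) ≤ E.card := Nat.cast_nonneg _
  have hPYc : (AK.PY y).card ≤ y := by
    unfold AK.PY
    exact (card_filter_le _ _).trans (by rw [Nat.card_Icc]; omega)
  have hQc : (Q.card : ℝ) ≤ y := by
    have := (card_le_card hQ).trans hPYc
    exact_mod_cast this
  have h1 : ∑ k ∈ E, (∑ p ∈ Q, Rt T a b c p k) ^ 2 =
      ∑ p ∈ Q, ∑ q ∈ Q, ∑ k ∈ E, Rt T a b c p k * Rt T a b c q k := by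
    have e1 : ∀ k ∈ E, (∑ p ∈ Q, Rt T a b c p k) ^ 2 =
        ∑ p ∈ Q, ∑ q ∈ Q, Rt T a b c p k * Rt T a b c q k := by
      intro k _
      rw [sq, sum_mul_sum]
    rw [sum_congr rfl e1, sum_comm]
    refine sum_congr rfl fun p _ => ?_
    rw [sum_comm]
  have h2 : ∀ p ∈ Q, ∀ q ∈ Q, ∑ k ∈ E, Rt T a b c p k * Rt T a b c q k ≤
      (if p = q then (E.card : ℝ) else 0) + ((E.card * (Nat.gcd (p - 1) (q - 1) : ℝ) / l ^ 14 +
        l ^ 6 * Dp p q) + (2 * Hp p + Hp q)) := by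
    intro p hp q hq
    have hpp := (AK.mem_PY.1 (hQ hp)).1
    have hqp := (AK.mem_PY.1 (hQ hq)).1
    have : Fact p.Prime := ⟨hpp⟩
    have : Fact q.Prime := ⟨hqp⟩
    have hDpq := hDp p q
    have hHpp := hHp p
    have hHpq := hHp q
    have hlow : 0 ≤ (E.card * (Nat.gcd (p - 1) (q - 1) : ℝ) / l ^ 14 + l ^ 6 * Dp p q) + (2 * Hp p + Hp q) := by
      have : 0 < l := by linarith
      positivity
    by_cases hpq : p = q
    · subst hpq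
      rw [if_pos rfl]
      have e1 : ∑ k ∈ E, Rt T a b c p k * Rt T a b c p k ≤ ∑ _k ∈ E, (1 : ℝ) := by
        refine sum_le_sum fun k _ => ?_
        have := Rt_abs hT a b c p k hpp
        rw [abs_le] at this
        nlinarith [this.1, this.2]
      rw [sum_const, nsmul_eq_mul, mul_one] at e1
      linarith
    · rw [if_neg hpq, zero_add]
      obtain ⟨g, hg⟩ : ∃ g : ℝ, g = (Nat.gcd (p - 1) (q - 1) : ℝ) := ⟨_, rfl⟩
      have hg0 : 0 ≤ g := by rw [hg]; exact Nat.cast_nonneg _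
      have hl0 : 0 < l := by linarith
      have hMM := hM p hp q hq hpq
      rw [← hg, ← hl] at hMM
      rw [← hg]
      have hM0 : 0 ≤ E.card * g / l ^ 20 + Dp p q := by positivity
      have hpair := (le_abs_self _).trans (pairG hT a b c p q E _ (Hp p) (Hp q) hM0 hMM (hh p hp) (hh q hq))
      refine hpair.trans ?_
      have m5 : ((p - 1).divisors.card : ℝ) * ((q - 1).divisors.card : ℝ) ≤ l ^ 6 := by
        have t1 := hτ p hp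
        have t2 := hτ q hq
        rw [← hl] at t1 t2
        calc _ ≤ l ^ 3 * l ^ 3 := by gcongr
          _ = l ^ 6 := by ring
      have m6 : ((p - 1).divisors.card : ℝ) * ((q - 1).divisors.card : ℝ) * (E.card * g / l ^ 20 + Dp p q) ≤
          l ^ 6 * (E.card * g / l ^ 20 + Dp p q) := by gcongr
      have m7 : l ^ 6 * (E.card * g / l ^ 20 + Dp p q) = E.card * g / l ^ 14 + l ^ 6 * Dp p q := by
        field_simp
      linarith
  have hl0 : 0 < l := by linarith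
  have hgcd : ∑ p ∈ Q, ∑ q ∈ Q, (Nat.gcd (p - 1) (q - 1) : ℝ) ≤ (y : ℝ) ^ 2 * (1 + l) := by
    rw [hl]
    refine le_trans ?_ (AK.gcd_sum y (by omega))
    refine (sum_le_sum fun p _ => sum_le_sum_of_subset_of_nonneg hQ fun _ _ _ =>
      Nat.cast_nonneg _).trans ?_
    exact sum_le_sum_of_subset_of_nonneg hQ fun _ _ _ => sum_nonneg fun _ _ =>
      Nat.cast_nonneg _
  have s1 : ∑ p ∈ Q, ∑ q ∈ Q, (if p = q then (E.card : ℝ) else 0) ≤ y * E.card := by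
    rw [sum_congr rfl fun p hp => by rw [sum_ite_eq, if_pos hp]]
    rw [sum_const, nsmul_eq_mul]
    gcongr
  have s2 : ∑ p ∈ Q, ∑ q ∈ Q, E.card * (Nat.gcd (p - 1) (q - 1) : ℝ) / l ^ 14 ≤
      E.card * ((y : ℝ) ^ 2 * (1 + l)) / l ^ 14 := by
    have e : ∑ p ∈ Q, ∑ q ∈ Q, E.card * (Nat.gcd (p - 1) (q - 1) : ℝ) / l ^ 14 =
        E.card / l ^ 14 * ∑ p ∈ Q, ∑ q ∈ Q, (Nat.gcd (p - 1) (q - 1) : ℝ) := by
      rw [mul_sum]
      refine sum_congr rfl fun p _ => ?_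
      rw [mul_sum]
      refine sum_congr rfl fun q _ => by ring
    rw [e]
    calc _ ≤ E.card / l ^ 14 * ((y : ℝ) ^ 2 * (1 + l)) := by gcongr
      _ = _ := by ring
  have s3 : ∑ p ∈ Q, ∑ q ∈ Q, l ^ 6 * Dp p q ≤ l ^ 6 * ((y : ℝ) ^ 2 * D) := by
    have e : ∑ p ∈ Q, ∑ q ∈ Q, l ^ 6 * Dp p q = l ^ 6 * ∑ p ∈ Q, ∑ q ∈ Q, Dp p q := by
      rw [mul_sum]
      refine sum_congr rfl fun p _ => by rw [mul_sum]
    rw [e]
    gcongr
  have s4 : ∑ p ∈ Q, ∑ q ∈ Q, (2 * Hp p + Hp q) ≤ y * (3 * (y * H)) := by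
    have e : ∑ p ∈ Q, ∑ q ∈ Q, (2 * Hp p + Hp q) = Q.card * (3 * ∑ p ∈ Q, Hp p) := by
      simp only [sum_add_distrib, sum_const, nsmul_eq_mul, ← mul_sum]
      ring
    rw [e]
    have h0 : 0 ≤ ∑ p ∈ Q, Hp p := sum_nonneg fun p _ => hHp p
    gcongr
  rw [h1]
  calc ∑ p ∈ Q, ∑ q ∈ Q, ∑ k ∈ E, Rt T a b c p k * Rt T a b c q k
      ≤ ∑ p ∈ Q, ∑ q ∈ Q, ((if p = q then (E.card : ℝ) else 0) +
        ((E.card * (Nat.gcd (p - 1) (q - 1) : ℝ) / l ^ 14 + l ^ 6 * Dp p q) + (2 * Hp p + Hp q))) :=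
        sum_le_sum fun p hp => sum_le_sum fun q hq => h2 p hp q hq
    _ = ∑ p ∈ Q, ∑ q ∈ Q, (if p = q then (E.card : ℝ) else 0) +
        (∑ p ∈ Q, ∑ q ∈ Q, E.card * (Nat.gcd (p - 1) (q - 1) : ℝ) / l ^ 14 +
        ∑ p ∈ Q, ∑ q ∈ Q, l ^ 6 * Dp p q + ∑ p ∈ Q, ∑ q ∈ Q, (2 * Hp p + Hp q)) := by
        simp only [sum_add_distrib]
    _ ≤ _ := by
        have e : (y : ℝ) ^ 2 * (l ^ 6 * D + 3 * H) = l ^ 6 * ((y : ℝ) ^ 2 * D) + y * (3 * (y * H)) := by ring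
        rw [e]
        linarith

end Pool.Agent.U376.AG
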