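import Mathlib
import Pool.Agent.U376.AG.Bdh
import Pool.Agent.U376.AG.SecV
import Pool.Agent.U376.AG.PrimeExp

set_option autoImplicit false

/-! Prime exponents, with the theorem of Barban, Davenport and Halberstam. -/

namespace Pool.Agent.U376.AG

open Finset Filter Topology
open Pool.Agent.U376.AK (hit hit_nonneg hit_le PY mem_PY GoodP good_density ev_log complete)

section
variable {p q : ℕ} [Fact p.Prime] [Fact q.Prime]

/-- the sum over the reduced residues modulo a multiple of the period -/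
lemma reducedM (α : (ZMod p)ˣ) (β : (ZMod q)ˣ) (T M : ℕ) (hT : T = Nat.lcm (orderOf α) (orderOf β))
    (hTM : T ∣ M) (hM0 : 0 < M)
    (c : ZMod p) (d : ZMod q) (hc : c ≠ 0) (hd : d ≠ 0)
    (χ : DirichletCharacter ℂ p) (φ : DirichletCharacter ℂ q) (hχ : χ ≠ 1) (hφ : φ ≠ 1) :
    ‖∑ g ∈ (range M).filter (fun g => Nat.Coprime g M),
      χ ((α : ZMod p) ^ g + c) * φ ((β : ZMod q) ^ g + d)‖ ≤
      (M.divisors.card : ℝ) * (((M / T : ℕ) : ℝ) * (√(p : ℝ) * √(q : ℝ))) := by
  classical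
  have ho1 : 0 < orderOf α := orderOf_pos α
  have ho2 : 0 < orderOf β := orderOf_pos β
  have hT0 : 0 < T := by rw [hT]; exact Nat.lcm_pos ho1 ho2
  obtain ⟨F, hF⟩ : ∃ F : ℕ → ℂ, F = fun g => χ ((α : ZMod p) ^ g + c) * φ ((β : ZMod q) ^ g + d) := ⟨_, rfl⟩
  have h1 : ∑ g ∈ (range M).filter (fun g => Nat.Coprime g M), F g =
      ∑ e ∈ M.divisors, ((ArithmeticFunction.moebius e : ℤ) : ℂ) * ∑ h ∈ range (M / e), F (e * h) := by
    have e1 : ∀ g ∈ range M, (if Nat.Coprime g M then F g else 0) =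
        ∑ e ∈ M.divisors, ((ArithmeticFunction.moebius e : ℤ) : ℂ) * (if e ∣ g then F g else 0) := by
      intro g _
      have e2 : ∑ e ∈ M.divisors, ((ArithmeticFunction.moebius e : ℤ) : ℂ) * (if e ∣ g then F g else 0) =
          (∑ e ∈ (Nat.gcd g M).divisors, ((ArithmeticFunction.moebius e : ℤ) : ℂ)) * F g := by
        rw [sum_mul]
        have e3 : (Nat.gcd g M).divisors = M.divisors.filter (fun e => e ∣ g) := by
          ext e
          rw [mem_filter, Nat.mem_divisors, Nat.mem_divisors, Nat.dvd_gcd_iff]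
          constructor
          · rintro ⟨⟨h1, h2⟩, h3⟩
            exact ⟨⟨h2, hM0.ne'⟩, h1⟩
          · rintro ⟨⟨h1, h2⟩, h3⟩
            exact ⟨⟨h3, h1⟩, (Nat.gcd_pos_of_pos_right _ hM0).ne'⟩
        rw [e3, sum_filter]
        refine sum_congr rfl fun e _ => ?_
        split_ifs <;> simp
      rw [e2]
      have e4 : ∑ e ∈ (Nat.gcd g M).divisors, ((ArithmeticFunction.moebius e : ℤ) : ℂ) =
          if Nat.Coprime g M then 1 else 0 := by
        have e5 : ∑ e ∈ (Nat.gcd g M).divisors, ArithmeticFunction.moebius e =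
            if Nat.gcd g M = 1 then 1 else 0 := by
          rw [← ArithmeticFunction.coe_mul_zeta_apply, ArithmeticFunction.moebius_mul_coe_zeta,
            ArithmeticFunction.one_apply]
        have e6 : ∑ e ∈ (Nat.gcd g M).divisors, ((ArithmeticFunction.moebius e : ℤ) : ℂ) =
            ((∑ e ∈ (Nat.gcd g M).divisors, ArithmeticFunction.moebius e : ℤ) : ℂ) := by push_cast; rfl
        rw [e6, e5]
        unfold Nat.Coprime
        split_ifs <;> simp
      rw [e4]
      split_ifs <;> simp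
    rw [sum_filter, sum_congr rfl e1, sum_comm]
    refine sum_congr rfl fun e he => ?_
    rw [← mul_sum]
    congr 1
    rw [← sum_filter]
    have heT := Nat.dvd_of_mem_divisors he
    have he0 : 0 < e := Nat.pos_of_mem_divisors he
    symm
    apply sum_bij (fun h _ => e * h)
    · intro h hh
      rw [mem_range] at hh
      rw [mem_filter, mem_range]
      refine ⟨?_, dvd_mul_right e h⟩
      calc e * h < e * (M / e) := Nat.mul_lt_mul_of_pos_left hh he0
        _ = M := Nat.mul_div_cancel' heT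
    · intro h _ h' _ hh
      exact Nat.eq_of_mul_eq_mul_left he0 hh
    · intro g hg
      rw [mem_filter, mem_range] at hg
      obtain ⟨h, rfl⟩ := hg.2
      refine ⟨h, ?_, rfl⟩
      rw [mem_range]
      exact (Nat.lt_div_iff_mul_lt' heT h).2 hg.1
    · intro h _
      rfl
  have h2 : ∀ e ∈ M.divisors, ‖∑ h ∈ range (M / e), F (e * h)‖ ≤ ((M / T : ℕ) : ℝ) * (√(p : ℝ) * √(q : ℝ)) := by
    intro e he
    have heT := Nat.dvd_of_mem_divisors he
    have he0 : 0 < e := Nat.pos_of_mem_divisors he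
    obtain ⟨L, hL⟩ : ∃ L, L = Nat.lcm (orderOf (α ^ e)) (orderOf (β ^ e)) := ⟨_, rfl⟩
    have hL0 : 0 < L := by rw [hL]; exact Nat.lcm_pos (orderOf_pos _) (orderOf_pos _)
    have g1 : orderOf ((α, β) : (ZMod p)ˣ × (ZMod q)ˣ) = T := by rw [Prod.orderOf, hT]
    have g2 : orderOf (((α, β) : (ZMod p)ˣ × (ZMod q)ˣ) ^ e) = L := by
      rw [hL, Prod.pow_mk, Prod.orderOf]
    have hLd : L ∣ M / e := by
      rw [← g2]
      apply orderOf_dvd_of_pow_eq_one
      rw [← pow_mul, Nat.mul_div_cancel' heT]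
      exact orderOf_dvd_iff_pow_eq_one.1 (by rw [g1]; exact hTM)
    have hTe : T ≤ e * L := by
      apply Nat.le_of_dvd (Nat.mul_pos he0 hL0)
      rw [← g1]
      apply orderOf_dvd_of_pow_eq_one
      rw [pow_mul, ← g2]
      exact pow_orderOf_eq_one _
    have h3 := complete (α ^ e) (β ^ e) L (M / e / L) hL c d hc hd χ φ hχ hφ
    rw [Nat.div_mul_cancel hLd] at h3
    refine le_trans (le_of_eq_of_le ?_ h3) ?_
    · congr 1
      refine sum_congr rfl fun h _ => ?_
      rw [hF]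
      beta_reduce
      rw [Units.val_pow_eq_pow_val, Units.val_pow_eq_pow_val, ← pow_mul, ← pow_mul]
    · have h4 : M / e / L ≤ M / T := by
        rw [Nat.div_div_eq_div_mul]
        exact Nat.div_le_div_left hTe hT0
      have h5 : ((M / e / L : ℕ) : ℝ) ≤ ((M / T : ℕ) : ℝ) := by exact_mod_cast h4
      gcongr
  have h3 : ‖∑ g ∈ (range M).filter (fun g => Nat.Coprime g M), F g‖ ≤
      (M.divisors.card : ℝ) * (((M / T : ℕ) : ℝ) * (√(p : ℝ) * √(q : ℝ))) := by
    rw [h1]
    calc _ ≤ ∑ _e ∈ M.divisors, ((M / T : ℕ) : ℝ) * (√(p : ℝ) * √(q : ℝ)) := by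
          refine (norm_sum_le _ _).trans (sum_le_sum fun e he => ?_)
          rw [norm_mul]
          have m1 : ‖((ArithmeticFunction.moebius e : ℤ) : ℂ)‖ ≤ 1 := by
            rw [Complex.norm_intCast]
            exact_mod_cast ArithmeticFunction.abs_moebius_le_one
          calc _ ≤ 1 * ‖∑ h ∈ range (M / e), F (e * h)‖ := by gcongr
            _ ≤ _ := by rw [one_mul]; exact h2 e he
      _ = _ := by rw [sum_const, nsmul_eq_mul]
  rw [hF] at h3
  exact h3

end

/-- sums of periodic functions over the primes -/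
lemma prime_sumV (F : ℕ → ℂ) (T K : ℕ) (hT : 1 ≤ T) (hF : ∀ k, ‖F k‖ ≤ 1) (hper : ∀ k, F (k + T) = F k) :
    ‖∑ ℓ ∈ PY K, F ℓ‖ ≤ H343E.pi1 K / (Nat.totient T : ℝ) *
      ‖∑ g ∈ (range T).filter (fun g => Nat.Coprime g T), F g‖ + VV K T + T := by
  classical
  have hmod : ∀ k, F k = F (k % T) := by
    intro k
    conv_lhs => rw [← Nat.mod_add_div k T]
    induction k / T with
    | zero => simp
    | succ n ih => rw [Nat.mul_succ, ← Nat.add_assoc, hper, ih]
  have h1 : ∑ ℓ ∈ PY K, F ℓ = ∑ ℓ ∈ (PY K).filter (fun ℓ => Nat.Coprime ℓ T), F ℓ +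
      ∑ ℓ ∈ (PY K).filter (fun ℓ => ¬ Nat.Coprime ℓ T), F ℓ :=
    (sum_filter_add_sum_filter_not _ _ _).symm
  have h2 : ‖∑ ℓ ∈ (PY K).filter (fun ℓ => ¬ Nat.Coprime ℓ T), F ℓ‖ ≤ T := by
    calc _ ≤ ∑ _ℓ ∈ (PY K).filter (fun ℓ => ¬ Nat.Coprime ℓ T), (1 : ℝ) :=
          (norm_sum_le _ _).trans (sum_le_sum fun ℓ _ => hF ℓ)
      _ = (((PY K).filter (fun ℓ => ¬ Nat.Coprime ℓ T)).card : ℝ) := by
          rw [sum_const, nsmul_eq_mul, mul_one]
      _ ≤ T := by
          have h3 : (PY K).filter (fun ℓ => ¬ Nat.Coprime ℓ T) ⊆ Icc 1 T := by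
            intro ℓ hℓ
            rw [mem_filter, mem_PY] at hℓ
            rw [mem_Icc]
            refine ⟨hℓ.1.1.one_le, ?_⟩
            have := (Nat.Prime.dvd_iff_not_coprime hℓ.1.1).2 hℓ.2
            exact Nat.le_of_dvd hT this
          have h4 := card_le_card h3
          rw [Nat.card_Icc, Nat.add_sub_cancel] at h4
          exact_mod_cast h4
  have h3 : ∑ ℓ ∈ (PY K).filter (fun ℓ => Nat.Coprime ℓ T), F ℓ =
      ∑ g ∈ (range T).filter (fun g => Nat.Coprime g T), F g * ((H343E.piAP K T g : ℝ) : ℂ) := by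
    rw [← sum_fiberwise_of_maps_to (g := fun ℓ => ℓ % T)
      (t := (range T).filter (fun g => Nat.Coprime g T))]
    · refine sum_congr rfl fun g hg => ?_
      rw [mem_filter, mem_range] at hg
      have e1 : ∀ ℓ ∈ ((PY K).filter (fun ℓ => Nat.Coprime ℓ T)).filter (fun ℓ => ℓ % T = g), F ℓ = F g := by
        intro ℓ hℓ
        rw [mem_filter] at hℓ
        rw [hmod ℓ, hℓ.2]
      rw [sum_congr rfl e1, sum_const, nsmul_eq_mul, mul_comm]
      congr 1
      have e2 : ((PY K).filter (fun ℓ => Nat.Coprime ℓ T)).filter (fun ℓ => ℓ % T = g) =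
          (Icc 1 K).filter (fun ℓ => ℓ.Prime ∧ ℓ ≡ g [MOD T]) := by
        ext ℓ
        rw [mem_filter, mem_filter, mem_PY, mem_filter, mem_Icc]
        constructor
        · rintro ⟨⟨⟨a1, a2⟩, a3⟩, a4⟩
          refine ⟨⟨a1.one_le, a2⟩, a1, ?_⟩
          unfold Nat.ModEq
          rw [a4, Nat.mod_eq_of_lt hg.1]
        · rintro ⟨⟨a1, a2⟩, a3, a4⟩
          have a5 : ℓ % T = g := by
            have : ℓ % T = g % T := a4
            rw [this, Nat.mod_eq_of_lt hg.1]
          refine ⟨⟨⟨a3, a2⟩, ?_⟩, a5⟩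
          have := hg.2
          rw [← a5] at this
          unfold Nat.Coprime at this ⊢
          rw [← this, ← Nat.gcd_rec]
          exact Nat.gcd_comm _ _
      rw [e2]
      unfold H343E.piAP
      push_cast
      rfl
    · intro ℓ hℓ
      rw [mem_filter] at hℓ
      rw [mem_filter, mem_range]
      refine ⟨Nat.mod_lt _ hT, ?_⟩
      have := hℓ.2
      unfold Nat.Coprime at this ⊢
      rw [← this, ← Nat.gcd_rec]
      exact Nat.gcd_comm _ _
  have h4 : ∑ g ∈ (range T).filter (fun g => Nat.Coprime g T), F g * ((H343E.piAP K T g : ℝ) : ℂ) =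
      ((H343E.pi1 K / (Nat.totient T : ℝ) : ℝ) : ℂ) * ∑ g ∈ (range T).filter (fun g => Nat.Coprime g T), F g +
      ∑ g ∈ (range T).filter (fun g => Nat.Coprime g T), F g *
        ((H343E.piAP K T g - H343E.pi1 K / (Nat.totient T : ℝ) : ℝ) : ℂ) := by
    rw [mul_sum, ← sum_add_distrib]
    refine sum_congr rfl fun g _ => ?_
    push_cast
    ring
  have hpi0 : 0 ≤ H343E.pi1 K / (Nat.totient T : ℝ) := by
    unfold H343E.pi1
    exact div_nonneg (Nat.cast_nonneg _) (Nat.cast_nonneg _)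
  have h5 : ‖∑ g ∈ (range T).filter (fun g => Nat.Coprime g T), F g *
        ((H343E.piAP K T g - H343E.pi1 K / (Nat.totient T : ℝ) : ℝ) : ℂ)‖ ≤ VV K T := by
    unfold VV
    refine (norm_sum_le _ _).trans (sum_le_sum fun g hg => ?_)
    rw [norm_mul, Complex.norm_real, Real.norm_eq_abs]
    calc _ ≤ 1 * |H343E.piAP K T g - H343E.pi1 K / (Nat.totient T : ℝ)| :=
          mul_le_mul_of_nonneg_right (hF g) (abs_nonneg _)
      _ = _ := one_mul _
  have h6 : ‖((H343E.pi1 K / (Nat.totient T : ℝ) : ℝ) : ℂ) *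
      ∑ g ∈ (range T).filter (fun g => Nat.Coprime g T), F g‖ =
      H343E.pi1 K / (Nat.totient T : ℝ) * ‖∑ g ∈ (range T).filter (fun g => Nat.Coprime g T), F g‖ := by
    rw [norm_mul, Complex.norm_real, Real.norm_of_nonneg hpi0]
  rw [h1, h3, h4]
  calc _ ≤ _ := norm_add_le _ _
    _ ≤ (H343E.pi1 K / (Nat.totient T : ℝ) * ‖∑ g ∈ (range T).filter (fun g => Nat.Coprime g T), F g‖ +
        VV K T) + T := by
        refine add_le_add ((norm_add_le _ _).trans (add_le_add h6.le h5)) h2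

lemma tau_mul (t u : ℕ) : (t * u).divisors.card ≤ t.divisors.card * u.divisors.card := by
  classical
  rw [Nat.divisors_mul]
  exact card_mul_le

/-- the hits among the prime exponents -/
lemma hit_primeV (a : ℕ) (b c : ℤ) (p K : ℕ) [Fact p.Prime] (ha : ¬ p ∣ a) (hb : ¬ (p : ℤ) ∣ b) :
    ∑ ℓ ∈ PY K, hit a b c p ℓ ≤ H343E.pi1 K * ((p - 1).divisors.card : ℝ) / (orderOf (a : ZMod p) : ℝ) +
      VV K (p - 1) + (p - 1 : ℕ) := by
  classical
  have hp := Fact.out (p := p.Prime)
  have hp1 : 1 ≤ p - 1 := by have := hp.two_le; omega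
  have hap : (a : ZMod p) ≠ 0 := by rwa [Ne, ZMod.natCast_eq_zero_iff]
  obtain ⟨α, hα⟩ : IsUnit (a : ZMod p) := by rwa [isUnit_iff_ne_zero]
  have ho : 0 < orderOf (a : ZMod p) := by rw [← hα, orderOf_units]; exact orderOf_pos α
  obtain ⟨t, ht⟩ : ∃ t, t = orderOf (a : ZMod p) := ⟨_, rfl⟩
  rw [← ht] at ho ⊢
  have htd : t ∣ p - 1 := by rw [ht]; exact ZMod.orderOf_dvd_card_sub_one hap
  obtain ⟨n, hn⟩ := htd
  have hper : ∀ k, hit a b c p (k + (p - 1)) = hit a b c p k := by
    intro k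
    unfold hit
    have e : (p : ℤ) ∣ b * (a : ℤ) ^ (k + (p - 1)) + c ↔ (p : ℤ) ∣ b * (a : ℤ) ^ k + c := by
      rw [← ZMod.intCast_zmod_eq_zero_iff_dvd, ← ZMod.intCast_zmod_eq_zero_iff_dvd]
      push_cast
      rw [pow_add, ZMod.pow_card_sub_one_eq_one hap, mul_one]
    simp only [e]
  have h1 := prime_sumV (fun k => ((hit a b c p k : ℝ) : ℂ)) (p - 1) K hp1
    (fun k => by
      rw [Complex.norm_real, Real.norm_of_nonneg (hit_nonneg a b c p k)]
      exact hit_le a b c p k)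
    (fun k => by rw [hper])
  rw [← Complex.ofReal_sum, Complex.norm_real, Real.norm_of_nonneg
    (sum_nonneg fun ℓ _ => hit_nonneg a b c p ℓ), ← Complex.ofReal_sum, Complex.norm_real,
    Real.norm_of_nonneg (sum_nonneg fun ℓ _ => hit_nonneg a b c p ℓ)] at h1
  -- the number of hits in a period
  have hcount : ∑ g ∈ (range (p - 1)).filter (fun g => Nat.Coprime g (p - 1)), hit a b c p g ≤ n := by
    have e0 : ∑ g ∈ (range (p - 1)).filter (fun g => Nat.Coprime g (p - 1)), hit a b c p g ≤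
        ∑ g ∈ range (p - 1), hit a b c p g :=
      sum_le_sum_of_subset_of_nonneg (filter_subset _ _) fun g _ _ => hit_nonneg a b c p g
    refine e0.trans ?_
    unfold hit
    rw [← sum_filter, sum_const, nsmul_eq_mul, mul_one]
    obtain ⟨S, hS⟩ : ∃ S, S = (range (p - 1)).filter (fun ℓ => (p : ℤ) ∣ b * (a : ℤ) ^ ℓ + c) := ⟨_, rfl⟩
    rw [← hS]
    have hcong : ∀ k ∈ S, ∀ j ∈ S, k % t = j % t := by
      intro k hk j hj
      rw [hS, mem_filter] at hk hj
      have e1 : (a : ZMod p) ^ k = (a : ZMod p) ^ j := by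
        have f1 := (ZMod.intCast_zmod_eq_zero_iff_dvd _ p).2 hk.2
        have f2 := (ZMod.intCast_zmod_eq_zero_iff_dvd _ p).2 hj.2
        push_cast at f1 f2
        have := f1.trans f2.symm
        have hb0 : (b : ZMod p) ≠ 0 := by rwa [Ne, ZMod.intCast_zmod_eq_zero_iff_dvd]
        exact mul_left_cancel₀ hb0 (add_right_cancel this)
      rw [← hα, ← Units.val_pow_eq_pow_val, ← Units.val_pow_eq_pow_val] at e1
      have e2 := Units.ext e1
      rw [pow_eq_pow_iff_modEq] at e2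
      have e3 : orderOf α = t := by rw [ht, ← hα, orderOf_units]
      rw [e3] at e2
      exact e2
    have hle : S.card ≤ (range n).card := by
      apply card_le_card_of_injOn (fun k => k / t)
      · intro k hk
        have hk' : k ∈ S := hk
        rw [hS, mem_filter, mem_range, hn] at hk'
        have : k / t < n := Nat.div_lt_of_lt_mul hk'.1
        exact mem_coe.2 (mem_range.2 this)
      · intro k hk j hj hkj
        have h1 := hcong k hk j hj
        have h2 : k / t = j / t := hkj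
        rw [← Nat.div_add_mod k t, ← Nat.div_add_mod j t, h1, h2]
    rw [card_range] at hle
    exact_mod_cast hle
  have hpi0 : 0 ≤ H343E.pi1 K := by unfold H343E.pi1; exact Nat.cast_nonneg _
  have hφ0 : (0 : ℝ) < Nat.totient (p - 1) := by exact_mod_cast Nat.totient_pos.2 (by omega)
  have ht0 : (0 : ℝ) < t := by exact_mod_cast ho
  have h2 : H343E.pi1 K / (Nat.totient (p - 1) : ℝ) *
      ∑ g ∈ (range (p - 1)).filter (fun g => Nat.Coprime g (p - 1)), hit a b c p g ≤
      H343E.pi1 K * ((p - 1).divisors.card : ℝ) / (t : ℝ) := by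
    calc _ ≤ H343E.pi1 K / (Nat.totient (p - 1) : ℝ) * n := by gcongr
      _ ≤ _ := by
        rw [div_mul_eq_mul_div, div_le_div_iff₀ hφ0 ht0]
        have h3 : (n : ℝ) * t ≤ (p - 1).divisors.card * Nat.totient (p - 1) := by
          have h4 := le_tot_mul_tau (p - 1) (by omega)
          have h5 : n * t ≤ (p - 1).divisors.card * Nat.totient (p - 1) := by
            calc n * t = p - 1 := by rw [hn, mul_comm]
              _ ≤ _ := by rw [mul_comm]; exact h4
          exact_mod_cast h5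
        calc H343E.pi1 K * n * t = H343E.pi1 K * (n * t) := by ring
          _ ≤ H343E.pi1 K * ((p - 1).divisors.card * Nat.totient (p - 1)) := by gcongr
          _ = _ := by ring
  linarith

/-- the pairs with a given product -/
lemma pair_sum (K y : ℕ) (Q : Finset ℕ) (τ : ℝ) (hQ : ∀ p ∈ Q, p.Prime ∧ p ≤ y ∧
    ((p - 1).divisors.card : ℝ) ≤ τ) (hτ : 0 ≤ τ) :
    ∑ p ∈ Q, ∑ q ∈ Q, VV K ((p - 1) * (q - 1)) ≤ τ ^ 2 * ∑ M ∈ Icc 1 (y ^ 2), VV K M := by
  classical
  rw [← sum_product', ← sum_fiberwise_of_maps_to (g := fun z : ℕ × ℕ => (z.1 - 1) * (z.2 - 1))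
    (t := Icc 1 (y ^ 2)), mul_sum]
  · refine sum_le_sum fun M hM => ?_
    have e1 : ∀ z ∈ (Q ×ˢ Q).filter (fun z : ℕ × ℕ => (z.1 - 1) * (z.2 - 1) = M),
        VV K ((z.1 - 1) * (z.2 - 1)) = VV K M := by
      intro z hz
      rw [mem_filter] at hz
      rw [hz.2]
    rw [sum_congr rfl e1, sum_const, nsmul_eq_mul]
    apply mul_le_mul_of_nonneg_right _ (VV_nonneg K M)
    rcases ((Q ×ˢ Q).filter (fun z : ℕ × ℕ => (z.1 - 1) * (z.2 - 1) = M)).eq_empty_or_nonempty with h | ⟨z, hz⟩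
    · rw [h, card_empty, Nat.cast_zero]; positivity
    · rw [mem_filter, mem_product] at hz
      obtain ⟨⟨hz1, hz2⟩, hz3⟩ := hz
      obtain ⟨a1, a2, a3⟩ := hQ _ hz1
      obtain ⟨b1, b2, b3⟩ := hQ _ hz2
      rw [mem_Icc] at hM
      have hinj : ((Q ×ˢ Q).filter (fun z : ℕ × ℕ => (z.1 - 1) * (z.2 - 1) = M)).card ≤ M.divisors.card := by
        apply card_le_card_of_injOn (fun z => z.1 - 1)
        · intro w hw
          have hw' : w ∈ (Q ×ˢ Q).filter (fun z : ℕ × ℕ => (z.1 - 1) * (z.2 - 1) = M) := hw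
          rw [mem_filter] at hw'
          refine mem_coe.2 (Nat.mem_divisors.2 ⟨⟨w.2 - 1, hw'.2.symm⟩, by omega⟩)
        · intro w hw v hv hwv
          have hw' : w ∈ (Q ×ˢ Q).filter (fun z : ℕ × ℕ => (z.1 - 1) * (z.2 - 1) = M) := hw
          have hv' : v ∈ (Q ×ˢ Q).filter (fun z : ℕ × ℕ => (z.1 - 1) * (z.2 - 1) = M) := hv
          rw [mem_filter, mem_product] at hw' hv'
          have c1 := (hQ _ hw'.1.1).1.two_le
          have c2 := (hQ _ hw'.1.2).1.two_le
          have c3 := (hQ _ hv'.1.1).1.two_le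
          have c4 := (hQ _ hv'.1.2).1.two_le
          have e2 : w.1 - 1 = v.1 - 1 := hwv
          have e3 : w.1 = v.1 := by omega
          have e4 : (w.1 - 1) * (w.2 - 1) = (w.1 - 1) * (v.2 - 1) := by rw [hw'.2, e2, hv'.2]
          have e5 := Nat.eq_of_mul_eq_mul_left (by omega) e4
          have e6 : w.2 = v.2 := by omega
          exact Prod.ext e3 e6
      have h2 : (M.divisors.card : ℝ) ≤ τ ^ 2 := by
        rw [← hz3]
        have h3 : ((((z.1 - 1) * (z.2 - 1)).divisors.card : ℕ) : ℝ) ≤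
            ((z.1 - 1).divisors.card : ℝ) * ((z.2 - 1).divisors.card : ℝ) := by
          exact_mod_cast tau_mul (z.1 - 1) (z.2 - 1)
        calc _ ≤ _ := h3
          _ ≤ τ * τ := by gcongr
          _ = τ ^ 2 := by ring
      have h3 : ((((Q ×ˢ Q).filter (fun z : ℕ × ℕ => (z.1 - 1) * (z.2 - 1) = M)).card : ℕ) : ℝ) ≤
          (M.divisors.card : ℝ) := by exact_mod_cast hinj
      linarith
  · intro z hz
    rw [mem_product] at hz
    obtain ⟨a1, a2, a3⟩ := hQ _ hz.1
    obtain ⟨b1, b2, b3⟩ := hQ _ hz.2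
    have a4 := a1.two_le
    have b4 := b1.two_le
    rw [mem_Icc]
    refine ⟨Nat.mul_pos (by omega) (by omega), ?_⟩
    calc (z.1 - 1) * (z.2 - 1) ≤ y * y := Nat.mul_le_mul (by omega) (by omega)
      _ = y ^ 2 := by ring

end Pool.Agent.U376.AG
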