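import Mathlib
import Pool.Agent.U376.AG.PrimeV

set_option autoImplicit false

/-! Prime exponents `≤ K`, primes up to `K ^ θ`, `θ < 1 / 2`. -/

namespace Pool.Agent.U376.AG

open Finset Filter Topology
open Pool.Agent.U376.AK (hit hit_nonneg hit_le PY mem_PY GoodP good_density ev_log complete)

/-- the correlation of two primes over the prime exponents -/
lemma pair_primeV (a : ℕ) (b c : ℤ) (p q y K : ℕ) (hy : 3 ≤ y) (hp : p ∈ GoodP a (b * c) 16 y)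
    (hq : q ∈ GoodP a (b * c) 16 y) [Fact p.Prime] [Fact q.Prime]
    (χ : DirichletCharacter ℂ p) (φ : DirichletCharacter ℂ q) (hχ : χ ≠ 1) (hφ : φ ≠ 1) :
    ‖∑ k ∈ PY K, χ ((b : ZMod p) * (a : ZMod p) ^ k + (c : ZMod p)) *
        φ ((b : ZMod q) * (a : ZMod q) ^ k + (c : ZMod q))‖ ≤
      (PY K).card * (Nat.gcd (p - 1) (q - 1) : ℝ) / Real.log y ^ 20 +
        (VV K ((p - 1) * (q - 1)) + (y : ℝ) ^ 2) := by
  obtain ⟨l, hl⟩ : ∃ l, l = Real.log (y : ℝ) := ⟨_, rfl⟩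
  obtain ⟨s, hs⟩ : ∃ s, s = √(y : ℝ) := ⟨_, rfl⟩
  obtain ⟨N, hN⟩ : ∃ N, N = H343E.pi1 K := ⟨_, rfl⟩
  have hNcard : N = ((PY K).card : ℝ) := by rw [hN]; rfl
  have hN0 : 0 ≤ N := by rw [hNcard]; exact Nat.cast_nonneg _
  have hyr : (3 : ℝ) ≤ y := by exact_mod_cast hy
  have hl1 : 1 < l := by
    rw [hl, Real.lt_log_iff_exp_lt (by linarith)]
    have := Real.exp_one_lt_d9
    linarith
  have hl0 : 0 < l := by linarith
  have hss : s * s = y := by rw [hs]; exact Real.mul_self_sqrt (by linarith)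
  have hs0 : 0 < s := by rw [hs]; exact Real.sqrt_pos.2 (by linarith)
  rw [GoodP, mem_filter, mem_PY, ← hl, ← hs] at hp hq
  obtain ⟨⟨hp1, hp2⟩, hp3, hp4, hp5, hp6⟩ := hp
  obtain ⟨⟨hq1, hq2⟩, hq3, hq4, hq5, hq6⟩ := hq
  have hap : (a : ZMod p) ≠ 0 := by rwa [Ne, ZMod.natCast_eq_zero_iff]
  have haq : (a : ZMod q) ≠ 0 := by rwa [Ne, ZMod.natCast_eq_zero_iff]
  obtain ⟨α, hα⟩ : IsUnit (a : ZMod p) := by rwa [isUnit_iff_ne_zero]
  obtain ⟨γ, hγ⟩ : IsUnit (a : ZMod q) := by rwa [isUnit_iff_ne_zero]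
  obtain ⟨t, ht⟩ : ∃ t, t = orderOf (a : ZMod p) := ⟨_, rfl⟩
  obtain ⟨u, hu⟩ : ∃ u, u = orderOf (a : ZMod q) := ⟨_, rfl⟩
  rw [← ht] at hp6
  rw [← hu] at hq6
  have hsl : 0 < s * l ^ 16 := by positivity
  have ht0 : (0 : ℝ) < t := lt_of_lt_of_le hsl hp6
  have hu0 : (0 : ℝ) < u := lt_of_lt_of_le hsl hq6
  have ht0' : 0 < t := by exact_mod_cast ht0
  have hu0' : 0 < u := by exact_mod_cast hu0
  have htd : t ∣ p - 1 := by rw [ht]; exact ZMod.orderOf_dvd_card_sub_one hap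
  have hud : u ∣ q - 1 := by rw [hu]; exact ZMod.orderOf_dvd_card_sub_one haq
  have hp1' := hp1.two_le
  have hq1' := hq1.two_le
  have hg : Nat.gcd t u ∣ Nat.gcd (p - 1) (q - 1) :=
    Nat.dvd_gcd ((Nat.gcd_dvd_left t u).trans htd) ((Nat.gcd_dvd_right t u).trans hud)
  have hg0 : 0 < Nat.gcd (p - 1) (q - 1) := Nat.gcd_pos_of_pos_left _ (by omega)
  have hgle := Nat.le_of_dvd hg0 hg
  obtain ⟨g, hgdef⟩ : ∃ g, g = Nat.gcd (p - 1) (q - 1) := ⟨_, rfl⟩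
  rw [← hgdef] at hg0 hgle ⊢
  obtain ⟨m, hm⟩ : ∃ m, m = Nat.lcm t u := ⟨_, rfl⟩
  have hm0 : 0 < m := by rw [hm]; exact Nat.lcm_pos ht0' hu0'
  have hgl : t * u ≤ g * m := by
    rw [← Nat.gcd_mul_lcm t u, ← hm]
    exact Nat.mul_le_mul_right m hgle
  obtain ⟨M, hM⟩ : ∃ M, M = (p - 1) * (q - 1) := ⟨_, rfl⟩
  have hM0 : 0 < M := by rw [hM]; exact Nat.mul_pos (by omega) (by omega)
  have hmM : m ∣ M := by
    rw [hm, hM]
    exact Nat.lcm_dvd (htd.mul_right _) (hud.mul_left _)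
  have hMle : M ≤ y ^ 2 := by
    rw [hM]
    calc (p - 1) * (q - 1) ≤ y * y := Nat.mul_le_mul (by omega) (by omega)
      _ = y ^ 2 := by ring
  rw [← hM]
  have hmα : m = Nat.lcm (orderOf α) (orderOf γ) := by
    rw [hm, ht, hu, ← hα, ← hγ, orderOf_units, orderOf_units]
  have hb1 : (b : ZMod p) ≠ 0 := by
    rw [Ne, ZMod.intCast_zmod_eq_zero_iff_dvd]; exact fun h => hp4 (h.mul_right c)
  have hb2 : (b : ZMod q) ≠ 0 := by
    rw [Ne, ZMod.intCast_zmod_eq_zero_iff_dvd]; exact fun h => hq4 (h.mul_right c)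
  have hc1 : (c : ZMod p) ≠ 0 := by
    rw [Ne, ZMod.intCast_zmod_eq_zero_iff_dvd]; exact fun h => hp4 (h.mul_left b)
  have hc2 : (c : ZMod q) ≠ 0 := by
    rw [Ne, ZMod.intCast_zmod_eq_zero_iff_dvd]; exact fun h => hq4 (h.mul_left b)
  obtain ⟨F, hF⟩ : ∃ F : ℕ → ℂ, F = fun k => χ ((b : ZMod p) * (a : ZMod p) ^ k + (c : ZMod p)) *
    φ ((b : ZMod q) * (a : ZMod q) ^ k + (c : ZMod q)) := ⟨_, rfl⟩
  have hF1 : ∀ k, ‖F k‖ ≤ 1 := by
    intro k
    rw [hF]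
    beta_reduce
    rw [norm_mul]
    calc _ ≤ (1 : ℝ) * 1 := mul_le_mul (DirichletCharacter.norm_le_one χ _)
          (DirichletCharacter.norm_le_one φ _) (norm_nonneg _) zero_le_one
      _ = 1 := one_mul 1
  have hper : ∀ k, F (k + M) = F k := by
    intro k
    rw [hF]
    beta_reduce
    have r1 : (a : ZMod p) ^ M = 1 := by
      apply orderOf_dvd_iff_pow_eq_one.1
      rw [← ht]
      exact (by rw [hm]; exact Nat.dvd_lcm_left _ _ : t ∣ m).trans hmM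
    have r2 : (a : ZMod q) ^ M = 1 := by
      apply orderOf_dvd_iff_pow_eq_one.1
      rw [← hu]
      exact (by rw [hm]; exact Nat.dvd_lcm_right _ _ : u ∣ m).trans hmM
    rw [pow_add, pow_add, r1, r2, mul_one, mul_one]
  have h1 := prime_sumV F M K hM0 hF1 hper
  have h2 : ‖∑ g ∈ (range M).filter (fun g => Nat.Coprime g M), F g‖ ≤
      (M.divisors.card : ℝ) * (((M / m : ℕ) : ℝ) * (√(p : ℝ) * √(q : ℝ))) := by
    have hh := reducedM α γ m M hmα hmM hM0 ((b : ZMod p)⁻¹ * (c : ZMod p)) ((b : ZMod q)⁻¹ * (c : ZMod q))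
      (mul_ne_zero (inv_ne_zero hb1) hc1) (mul_ne_zero (inv_ne_zero hb2) hc2) χ φ hχ hφ
    refine le_trans (le_of_eq_of_le ?_ (mul_le_of_le_one_left (norm_nonneg _)
        (show ‖χ (b : ZMod p) * φ (b : ZMod q)‖ ≤ 1 from ?_))) hh
    · rw [← norm_mul, mul_sum]
      congr 1
      refine sum_congr rfl fun k _ => ?_
      rw [hF]
      beta_reduce
      rw [← hα, ← hγ]
      have r1 : (b : ZMod p) * (α : ZMod p) ^ k + (c : ZMod p) =
          (b : ZMod p) * ((α : ZMod p) ^ k + (b : ZMod p)⁻¹ * (c : ZMod p)) := by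
        field_simp
      have r2 : (b : ZMod q) * (γ : ZMod q) ^ k + (c : ZMod q) =
          (b : ZMod q) * ((γ : ZMod q) ^ k + (b : ZMod q)⁻¹ * (c : ZMod q)) := by
        field_simp
      rw [r1, r2, map_mul, map_mul]
      ring
    · rw [norm_mul]
      calc _ ≤ (1 : ℝ) * 1 := mul_le_mul (DirichletCharacter.norm_le_one χ _)
            (DirichletCharacter.norm_le_one φ _) (norm_nonneg _) zero_le_one
        _ = 1 := one_mul 1
  have h3 : (∑ k ∈ PY K, χ ((b : ZMod p) * (a : ZMod p) ^ k + (c : ZMod p)) *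
    φ ((b : ZMod q) * (a : ZMod q) ^ k + (c : ZMod q))) = ∑ k ∈ PY K, F k := by rw [hF]
  rw [h3, ← hl, ← hNcard]
  refine h1.trans ?_
  rw [← hN]
  have hgr : (0 : ℝ) < g := by exact_mod_cast hg0
  have hmr : (0 : ℝ) < m := by exact_mod_cast hm0
  have hMr : (0 : ℝ) < M := by exact_mod_cast hM0
  have hglr : (t : ℝ) * u ≤ g * m := by exact_mod_cast hgl
  have hφ0 : (0 : ℝ) < Nat.totient M := by exact_mod_cast Nat.totient_pos.2 hM0
  have hpq2 : √(p : ℝ) * √(q : ℝ) ≤ y := by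
    rw [← hss, hs]
    have e1 : √(p : ℝ) ≤ √(y : ℝ) := Real.sqrt_le_sqrt (by exact_mod_cast hp2)
    have e2 : √(q : ℝ) ≤ √(y : ℝ) := Real.sqrt_le_sqrt (by exact_mod_cast hq2)
    gcongr
  have hτ : (M.divisors.card : ℝ) ≤ l ^ 6 := by
    have h4 : (M.divisors.card : ℝ) ≤ ((p - 1).divisors.card : ℝ) * ((q - 1).divisors.card : ℝ) := by
      rw [hM]; exact_mod_cast tau_mul (p - 1) (q - 1)
    calc _ ≤ _ := h4
      _ ≤ l ^ 3 * l ^ 3 := by gcongr
      _ = l ^ 6 := by ring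
  have h5 : (y : ℝ) * l ^ 32 ≤ g * m := by
    calc (y : ℝ) * l ^ 32 = (s * l ^ 16) * (s * l ^ 16) := by rw [← hss]; ring
      _ ≤ (t : ℝ) * u := by gcongr
      _ ≤ _ := hglr
  have h6 : (M : ℝ) ≤ Nat.totient M * l ^ 6 := by
    have : (M : ℝ) ≤ Nat.totient M * M.divisors.card := by exact_mod_cast le_tot_mul_tau M hM0
    calc (M : ℝ) ≤ Nat.totient M * M.divisors.card := this
      _ ≤ _ := by gcongr
  have hdiv : ((M / m : ℕ) : ℝ) = M / m := by
    rw [Nat.cast_div hmM (by exact_mod_cast hm0.ne')]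
  have h7 : N / (Nat.totient M : ℝ) * ‖∑ g ∈ (range M).filter (fun g => Nat.Coprime g M), F g‖ ≤
      N * g / l ^ 20 := by
    calc _ ≤ N / (Nat.totient M : ℝ) * (l ^ 6 * (M / m * y)) := by
          apply mul_le_mul_of_nonneg_left _ (by positivity)
          refine h2.trans ?_
          rw [hdiv]
          gcongr
      _ = N * (l ^ 6 * (M / Nat.totient M) * (y / m)) := by ring
      _ ≤ N * (l ^ 6 * l ^ 6 * (g / l ^ 32)) := by
          apply mul_le_mul_of_nonneg_left _ hN0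
          have q1 : (M : ℝ) / Nat.totient M ≤ l ^ 6 := by
            rw [div_le_iff₀ hφ0, mul_comm]; exact h6
          have q2 : (y : ℝ) / m ≤ g / l ^ 32 := by
            rw [div_le_div_iff₀ hmr (by positivity)]
            exact h5
          gcongr
      _ = N * g / l ^ 20 := by
          field_simp
  have h8 : (M : ℝ) ≤ (y : ℝ) ^ 2 := by exact_mod_cast hMle
  linarith

open Classical in
/-- the hypothesis of the general theorem for prime exponents -/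
theorem cheb_primeV (a : ℕ) (b c : ℤ) (θ : ℝ) (hθ0 : 0 < θ) (hθ : θ < 1 / 2) : ∃ Y₁ : ℕ,
    ∀ y K : ℕ, Y₁ ≤ y → (y : ℝ) ≤ (K : ℝ) ^ θ → ∀ T : ∀ p : ℕ, ZMod p → Prop, Adm T → ∀ δ : ℝ, 0 < δ →
      (((PY K).filter (fun k => δ * (y / Real.log y) <
        |∑ p ∈ GoodP a (b * c) 16 y, Rt T a b c p k|)).card : ℝ) ≤
          4 * H343E.pi1 K / (δ ^ 2 * Real.log y ^ 8) := by
  obtain ⟨U, hU⟩ : ∃ U, U = 40 := ⟨_, rfl⟩
  obtain ⟨K₁, hbdh⟩ := bdh (2 * θ) (by linarith) U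
  have hlogt : Tendsto (fun y : ℕ => Real.log (y : ℝ)) atTop atTop :=
    Real.tendsto_log_atTop.comp tendsto_natCast_atTop_atTop
  have hlow : ∀ᶠ K : ℕ in atTop, (K : ℝ) / (2 * Real.log K) ≤ H343E.pi1 K := by
    have := Pool.Agent.H386R2.Artin.SH.pi_lower
    filter_upwards [this] with K hK
    refine hK.trans (le_of_eq ?_)
    unfold H343E.pi1
    rw [Nat.primeCounting, Nat.primeCounting', Nat.count_eq_card_filter_range]
    congr 2
    ext p
    rw [mem_filter, mem_filter, mem_range, mem_Icc]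
    constructor
    · rintro ⟨h1, h2⟩; exact ⟨⟨h2.one_le, by omega⟩, h2⟩
    · rintro ⟨h1, h2⟩; exact ⟨by omega, h2⟩
  obtain ⟨x1, h1⟩ := Pool.Agent.N792.SwR.evN _ (Pool.Agent.N792.SwR.ev_pow 17 48 (1 - 2 * θ) (by linarith))
  obtain ⟨K₂, hK₂⟩ := eventually_atTop.1 (hlow.and (hlogt.eventually_ge_atTop 200))
  obtain ⟨Y₂, hY₂⟩ := eventually_atTop.1 ((ev_log 6 12).and
    ((hlogt.eventually_ge_atTop 10).and (eventually_ge_atTop 3)))
  refine ⟨max (max K₁ (max K₂ (max x1 1))) Y₂, fun y K hy hyK T hT δ hδ => ?_⟩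
  have hyY₂ : Y₂ ≤ y := (le_max_right _ _).trans hy
  have hy1 : 1 ≤ y := (le_max_right _ _).trans ((le_max_right _ _).trans ((le_max_right _ _).trans
    ((le_max_left _ _).trans hy)))
  have hK1 : 1 ≤ K := by
    rcases Nat.eq_zero_or_pos K with h | h
    · exfalso
      rw [h, Nat.cast_zero, Real.zero_rpow hθ0.ne'] at hyK
      have : (1 : ℝ) ≤ y := by exact_mod_cast hy1
      linarith
    · exact h
  have hKr : (1 : ℝ) ≤ K := by exact_mod_cast hK1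
  have hKr0 : (0 : ℝ) < K := by linarith
  have hyKle : y ≤ K := by
    have h2 : (y : ℝ) ≤ K := hyK.trans (by
      calc (K : ℝ) ^ θ ≤ (K : ℝ) ^ (1 : ℝ) := Real.rpow_le_rpow_of_exponent_le hKr (by linarith)
        _ = K := Real.rpow_one _)
    exact_mod_cast h2
  have hKK₁ : K₁ ≤ K := ((le_max_left _ _).trans ((le_max_left _ _).trans hy)).trans hyKle
  have hKK₂ : K₂ ≤ K := ((le_max_left _ _).trans ((le_max_right _ _).trans ((le_max_left _ _).trans hy))).trans hyKle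
  have hKx1 : x1 ≤ K := ((le_max_left _ _).trans ((le_max_right _ _).trans ((le_max_right _ _).trans
    ((le_max_left _ _).trans hy)))).trans hyKle
  obtain ⟨k1, k3⟩ := hK₂ K hKK₂
  have k4 := h1 K hKx1
  obtain ⟨e1, e2, e3⟩ := hY₂ y hyY₂
  obtain ⟨l, hl⟩ : ∃ l, l = Real.log (y : ℝ) := ⟨_, rfl⟩
  obtain ⟨s, hs⟩ : ∃ s, s = √(y : ℝ) := ⟨_, rfl⟩
  obtain ⟨L, hL⟩ : ∃ L, L = Real.log (K : ℝ) := ⟨_, rfl⟩
  obtain ⟨N, hN⟩ : ∃ N, N = H343E.pi1 K := ⟨_, rfl⟩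
  have hNcard : N = ((PY K).card : ℝ) := by rw [hN]; rfl
  have hyr : (3 : ℝ) ≤ y := by exact_mod_cast e3
  rw [← hL] at k1 k3 k4
  rw [← hN] at k1
  have hL0 : 0 < L := by linarith
  have hL1 : 1 ≤ L := by linarith
  have hlL : l ≤ L := by
    rw [hl, hL]
    exact Real.log_le_log (by linarith) (by exact_mod_cast hyKle)
  have hl10 : 10 ≤ l := by rw [hl]; exact e2
  have hl0 : 0 < l := by linarith
  have hl1 : 1 ≤ l := by linarith
  have hss : s * s = y := by rw [hs]; exact Real.mul_self_sqrt (by linarith)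
  have hs0 : 0 < s := by rw [hs]; exact Real.sqrt_pos.2 (by linarith)
  have hN0 : 0 ≤ N := by rw [hNcard]; exact Nat.cast_nonneg _
  -- the errors
  have hy2K : ((y ^ 2 : ℕ) : ℝ) ≤ (K : ℝ) ^ (2 * θ) := by
    push_cast
    calc (y : ℝ) ^ 2 ≤ ((K : ℝ) ^ θ) ^ 2 := pow_le_pow_left₀ (by linarith) hyK 2
      _ = (K : ℝ) ^ (2 * θ) := by
        rw [← Real.rpow_natCast, ← Real.rpow_mul hKr0.le, mul_comm θ]
        norm_num
  have hyK2 : (y : ℝ) ≤ (K : ℝ) ^ (2 * θ) := by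
    refine hyK.trans (Real.rpow_le_rpow_of_exponent_le hKr (by linarith))
  have hb2 := hbdh K hKK₁ (y ^ 2) (Nat.one_le_pow _ _ (by omega)) hy2K
  have hb1 := hbdh K hKK₁ y hy1 hyK2
  rw [← hL] at hb1 hb2
  have hpow : (y : ℝ) ^ 2 * (48 * L ^ 17) ≤ K := by
    have h3 : (y : ℝ) ^ 2 ≤ (K : ℝ) ^ (2 * θ) := by
      have := hy2K
      push_cast at this
      exact this
    calc (y : ℝ) ^ 2 * (48 * L ^ 17) ≤ (K : ℝ) ^ (2 * θ) * (K : ℝ) ^ (1 - 2 * θ) := by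
          apply mul_le_mul h3 k4 (by positivity) (by positivity)
      _ = K := by rw [← Real.rpow_add hKr0]; simp
  have hKN : (K : ℝ) ≤ 2 * L * N := by
    rw [div_le_iff₀ (by positivity)] at k1
    linarith
  have hsmall : (y : ℝ) ^ 2 * L ^ 16 ≤ N / 24 := by
    have h3 : (y : ℝ) ^ 2 * L ^ 16 * (48 * L) ≤ 2 * L * N := by
      have e : (y : ℝ) ^ 2 * L ^ 16 * (48 * L) = (y : ℝ) ^ 2 * (48 * L ^ 17) := by ring
      rw [e]
      exact hpow.trans hKN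
    have h4 : L * ((y : ℝ) ^ 2 * L ^ 16 * 24) ≤ L * N := by linarith
    have h5 := le_of_mul_le_mul_left h4 hL0
    linarith
  have hKU : ∀ j : ℕ, j ≤ 30 → (K : ℝ) / L ^ U * l ^ j ≤ N / 24 := by
    intro j hj
    have h3 : l ^ j ≤ L ^ j := pow_le_pow_left₀ hl0.le hlL j
    have h4 : L ^ j ≤ L ^ 30 := pow_le_pow_right₀ hL1 hj
    calc (K : ℝ) / L ^ U * l ^ j ≤ (K : ℝ) / L ^ U * L ^ 30 := by
          apply mul_le_mul_of_nonneg_left (h3.trans h4) (by positivity)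
      _ = (K : ℝ) / L ^ 10 := by
          rw [hU]; field_simp
      _ ≤ (2 * L * N) / L ^ 10 := by gcongr
      _ = N / 24 * (48 / L ^ 9) := by field_simp; ring
      _ ≤ N / 24 * 1 := by
          apply mul_le_mul_of_nonneg_left _ (by positivity)
          rw [div_le_one (by positivity)]
          have : (200 : ℝ) ^ 9 ≤ L ^ 9 := pow_le_pow_left₀ (by norm_num) k3 9
          linarith
      _ = _ := mul_one _
  obtain ⟨D, hDd⟩ : ∃ D : ℝ, D = l ^ 6 * (K / L ^ U) + (y : ℝ) ^ 2 := ⟨_, rfl⟩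
  obtain ⟨H, hHd⟩ : ∃ H : ℝ, H = N / (s * l ^ 13) + K / L ^ U + y := ⟨_, rfl⟩
  obtain ⟨Q, hQd⟩ : ∃ Q, Q = GoodP a (b * c) 16 y := ⟨_, rfl⟩
  have hQsub : Q ⊆ PY y := by rw [hQd, GoodP]; exact filter_subset _ _
  have hQmem : ∀ p ∈ Q, p.Prime ∧ p ≤ y ∧ ¬ p ∣ a ∧ ¬ (p : ℤ) ∣ b * c ∧
      ((p - 1).divisors.card : ℝ) ≤ l ^ 3 ∧ s * l ^ 16 ≤ orderOf (a : ZMod p) := by
    intro p hp
    rw [hQd, GoodP, mem_filter, mem_PY, ← hl, ← hs] at hp
    exact ⟨hp.1.1, hp.1.2, hp.2.1, hp.2.2.1, hp.2.2.2.1, hp.2.2.2.2⟩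
  have hQc : (Q.card : ℝ) ≤ y := by
    have h3 : (PY y).card ≤ y := by
      unfold PY
      exact (card_filter_le _ _).trans (by rw [Nat.card_Icc]; omega)
    exact_mod_cast (card_le_card hQsub).trans h3
  have hDsum : ∑ p ∈ Q, ∑ q ∈ Q, (VV K ((p - 1) * (q - 1)) + (y : ℝ) ^ 2) ≤ (y : ℝ) ^ 2 * D := by
    have h3 := pair_sum K y Q (l ^ 3) (fun p hp => ⟨(hQmem p hp).1, (hQmem p hp).2.1, (hQmem p hp).2.2.2.2.1⟩)
      (by positivity)
    have h4 : ∑ p ∈ Q, ∑ q ∈ Q, (VV K ((p - 1) * (q - 1)) + (y : ℝ) ^ 2) =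
        ∑ p ∈ Q, ∑ q ∈ Q, VV K ((p - 1) * (q - 1)) + Q.card * (Q.card * (y : ℝ) ^ 2) := by
      simp only [sum_add_distrib, sum_const, nsmul_eq_mul]
    rw [h4, hDd]
    have h5 : (Q.card : ℝ) * (Q.card * (y : ℝ) ^ 2) ≤ y * (y * (y : ℝ) ^ 2) := by gcongr
    have h6 : (l ^ 3) ^ 2 * ∑ M ∈ Icc 1 (y ^ 2), VV K M ≤ (l ^ 3) ^ 2 * (((y ^ 2 : ℕ) : ℝ) * K / L ^ U) := by
      gcongr
    push_cast at h6
    calc _ ≤ (l ^ 3) ^ 2 * ((y : ℝ) ^ 2 * K / L ^ U) + y * (y * (y : ℝ) ^ 2) := by linarith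
      _ = _ := by ring
  have hHsum : ∑ p ∈ Q, (N / (s * l ^ 13) + VV K (p - 1) + y) ≤ y * H := by
    rw [hHd, sum_add_distrib, sum_add_distrib, sum_const, sum_const, nsmul_eq_mul, nsmul_eq_mul]
    have h3 : ∑ p ∈ Q, VV K (p - 1) ≤ ∑ M ∈ Icc 1 y, VV K M := by
      have h4 : ∑ p ∈ Q, VV K (p - 1) = ∑ M ∈ Q.image (fun p => p - 1), VV K M := by
        rw [sum_image]
        intro p hp q hq hpq
        have c1 := (hQmem _ hp).1.two_le
        have c2 := (hQmem _ hq).1.two_le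
        have c3 : p - 1 = q - 1 := hpq
        omega
      rw [h4]
      apply sum_le_sum_of_subset_of_nonneg
      · intro M hM
        rw [mem_image] at hM
        obtain ⟨p, hp, rfl⟩ := hM
        have c1 := (hQmem _ hp).1.two_le
        have c2 := (hQmem _ hp).2.1
        rw [mem_Icc]
        constructor <;> omega
      · intro M _ _
        exact VV_nonneg K M
    have h5 : (Q.card : ℝ) * (N / (s * l ^ 13)) ≤ y * (N / (s * l ^ 13)) := by gcongr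
    have h6 : (Q.card : ℝ) * (y : ℝ) ≤ y * y := by gcongr
    have h7 : (y : ℝ) * (N / (s * l ^ 13) + K / L ^ U + y) =
        y * (N / (s * l ^ 13)) + y * K / L ^ U + y * y := by ring
    rw [h7]
    linarith
  have hsec := secondV (E := PY K) (Q := Q) hT a b c y e3 hQsub
    (fun p q => VV K ((p - 1) * (q - 1)) + (y : ℝ) ^ 2) (fun p => N / (s * l ^ 13) + VV K (p - 1) + y) D H
    (fun p q => add_nonneg (VV_nonneg _ _) (by positivity))
    (fun p => add_nonneg (add_nonneg (by positivity) (VV_nonneg _ _)) (by linarith)) hDsum hHsum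
    (fun p hp => by rw [← hl]; exact (hQmem p hp).2.2.2.2.1)
    (by
      intro p hp
      obtain ⟨hp1, hp2, hp3, hp4, hp5, hp6⟩ := hQmem p hp
      have : Fact p.Prime := ⟨hp1⟩
      have h3 := hit_primeV a b c p K hp3 (fun h => hp4 (h.mul_right c))
      refine h3.trans ?_
      rw [← hN]
      obtain ⟨t, ht⟩ : ∃ t, t = orderOf (a : ZMod p) := ⟨_, rfl⟩
      rw [← ht] at hp6 ⊢
      have ht0 : (0 : ℝ) < t := lt_of_lt_of_le (by positivity) hp6
      have h4 : N * ((p - 1).divisors.card : ℝ) / t ≤ N / (s * l ^ 13) := by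
        rw [div_le_div_iff₀ ht0 (by positivity)]
        calc N * ((p - 1).divisors.card : ℝ) * (s * l ^ 13) ≤ N * l ^ 3 * (s * l ^ 13) := by gcongr
          _ = N * (s * l ^ 16) := by ring
          _ ≤ N * t := by gcongr
      have h5 : ((p - 1 : ℕ) : ℝ) ≤ y := by exact_mod_cast (by omega : p - 1 ≤ y)
      linarith)
    (by
      intro p hp q hq hpq χ φ hχ hφ
      have : Fact p.Prime := ⟨(hQmem p hp).1⟩
      have : Fact q.Prime := ⟨(hQmem q hq).1⟩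
      rw [hQd] at hp hq
      exact pair_primeV a b c p q y K e3 hp hq χ φ hχ hφ)
  rw [← hNcard, ← hl] at hsec
  have hfin := chebG a b c y e3 (PY K) Q N hN0 D H
    (by rw [← hl]; linarith) (by rw [← hl, ← hs, hl, hs]; exact e1)
    (by
      rw [← hl, hDd]
      have h3 := hKU 22 (by norm_num)
      have h4 : (y : ℝ) ^ 2 * l ^ 16 ≤ N / 24 := by
        refine le_trans ?_ hsmall
        have : l ^ 16 ≤ L ^ 16 := pow_le_pow_left₀ hl0.le hlL 16
        gcongr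
      have h5 : (l ^ 6 * ((K : ℝ) / L ^ U) + (y : ℝ) ^ 2) * l ^ 16 =
          (K : ℝ) / L ^ U * l ^ 22 + (y : ℝ) ^ 2 * l ^ 16 := by ring
      rw [h5]
      linarith)
    (by
      rw [← hl, hHd]
      have h3 := hKU 10 (by norm_num)
      have h4 : (y : ℝ) * l ^ 10 ≤ N / 24 := by
        refine le_trans ?_ hsmall
        have h5 : l ^ 10 ≤ L ^ 16 := (pow_le_pow_left₀ hl0.le hlL 10).trans (pow_le_pow_right₀ hL1 (by norm_num))
        have h6 : (y : ℝ) ≤ (y : ℝ) ^ 2 := by nlinarith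
        gcongr
      have h5 : N / (s * l ^ 13) * l ^ 10 ≤ N / 12 := by
        have h2 : N / (s * l ^ 13) * l ^ 10 = N / 12 * (12 / (s * l ^ 3)) := by
          field_simp
        rw [h2]
        apply mul_le_of_le_one_right (by positivity)
        rw [div_le_one (by positivity)]
        have h3 : (10 : ℝ) ^ 3 ≤ l ^ 3 := pow_le_pow_left₀ (by norm_num) hl10 3
        have h4 : 1 ≤ s := by
          have : 6 * l ^ 12 ≤ s := by rw [hl, hs]; exact e1
          have h5 : 1 ≤ l ^ 12 := one_le_pow₀ hl1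
          linarith
        nlinarith
      calc (N / (s * l ^ 13) + K / L ^ U + y) * l ^ 10 =
          N / (s * l ^ 13) * l ^ 10 + (K : ℝ) / L ^ U * l ^ 10 + y * l ^ 10 := by ring
        _ ≤ N / 6 := by linarith) (by rw [hNcard]) (by rw [← hl]; exact hsec) δ hδ
  rw [← hN, ← hQd]
  exact hfin

open Classical in
/-- prime exponents, the range `x ≤ K ^ θ`, `θ < 1 / 2` -/
theorem mainW (a : ℕ) (b c : ℤ) (ha : 2 ≤ a) (hb : b ≠ 0) (hc : c ≠ 0) (θ : ℝ) (hθ0 : 0 < θ)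
    (hθ : θ < 1 / 2) (ε : ℝ) (hε : 0 < ε) (η : ℝ) (hη : 0 < η) :
    ∃ X : ℕ, ∀ T : ∀ p : ℕ, ZMod p → Prop, Adm T → ∀ K : ℕ,
      (((PY K).filter (fun k => ∃ x : ℕ, X ≤ x ∧ (x : ℝ) ≤ (K : ℝ) ^ θ ∧
      ε * (x / Real.log x) < |∑ p ∈ PY x, Rt T a b c p k|)).card : ℝ) ≤ η * ((PY K).card : ℝ) := by
  obtain ⟨Y₁, hY₁⟩ := cheb_primeV a b c θ hθ0 hθ
  exact mainG 16 (by norm_num) a b c ha hb hc PY (fun K => ((PY K).card : ℝ)) (fun K => Nat.cast_nonneg _)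
    (fun K => (K : ℝ) ^ θ) Y₁ hY₁ ε hε η hη

end Pool.Agent.U376.AG
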