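import Mathlib
import Pool.Agent.U376.AG.PrimeW
import Pool.Agent.U376.AG.FinG

set_option autoImplicit false

/-! Prime exponents, primes up to `K ^ θ`, conclusion. -/

namespace Pool.Agent.U376.AG

open Finset Filter Topology
open Pool.Agent.U376.AK (PY mem_PY)

open Classical in
/-- prime exponents -/
theorem hyp_primeV (a : ℕ) (b c : ℤ) (ha : 2 ≤ a) (hb : b ≠ 0) (hc : c ≠ 0) (θ : ℝ) (hθ0 : 0 < θ)
    (hθ : θ < 1 / 2) :
    Hyp a b c PY (fun K => ((PY K).card : ℝ)) (fun K => (K : ℝ) ^ θ) :=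
  fun ε hε η hη => mainW a b c ha hb hc θ hθ0 hθ ε hε η hη

end Pool.Agent.U376.AG
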