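import Mathlib
import Pool.Agent.U376.AG.PrimeExp
import Pool.Agent.U376.AG.FinG

set_option autoImplicit false

/-! Prime exponents, conclusion. -/

namespace Pool.Agent.U376.AG

open Finset Filter Topology
open Pool.Agent.U376.AK (PY mem_PY)

open Classical in
/-- prime exponents -/
theorem hyp_prime (a : ℕ) (b c : ℤ) (ha : 2 ≤ a) (hb : b ≠ 0) (hc : c ≠ 0) (B : ℕ) :
    Hyp a b c PY (fun K => ((PY K).card : ℝ)) (fun K => Real.log K ^ B) := by
  intro ε hε η hη
  obtain ⟨Y₁, hY₁⟩ := cheb_prime a b c B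
  exact mainG 16 (by norm_num) a b c ha hb hc _ _ (fun K => Nat.cast_nonneg _) _ Y₁ hY₁ ε hε η hη

end Pool.Agent.U376.AG
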